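import Mathlib

/-!
Contractions defined on a family of vectors.
-/

open scoped ComplexOrder InnerProductSpace ComplexConjugate Topology
open Finset Filter

noncomputable section

namespace Run7.h989.CC

/-- A contraction with `v (a x) = b x`, zero on the orthogonal complement of the range of `a`. -/
theorem douglas {F H : Type*} [AddCommGroup F] [Module ℂ F] [NormedAddCommGroup H]
    [InnerProductSpace ℂ H] [CompleteSpace H] (a b : F →ₗ[ℂ] H) (h : ∀ x, ‖b x‖ ≤ ‖a x‖) :
    ∃ v : H →L[ℂ] H, (∀ x, v (a x) = b x) ∧ (∀ y, ‖v y‖ ≤ ‖y‖) ∧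
      ∀ η, (∀ x, ⟪a x, η⟫_ℂ = 0) → v η = 0 := by
  have hker : LinearMap.ker a ≤ LinearMap.ker b := by
    intro x hx
    rw [LinearMap.mem_ker] at hx ⊢
    have := h x
    rw [hx, norm_zero] at this
    exact norm_le_zero_iff.1 this
  let S : Submodule ℂ H := LinearMap.range a
  let T : S →ₗ[ℂ] H := ((LinearMap.ker a).liftQ b hker).comp
    (a.quotKerEquivRange.symm.toLinearMap)
  have hT : ∀ x, T ⟨a x, LinearMap.mem_range_self a x⟩ = b x := by
    intro x
    have h1 : a.quotKerEquivRange.symm ⟨a x, LinearMap.mem_range_self a x⟩ =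
        Submodule.Quotient.mk x := by
      rw [LinearEquiv.symm_apply_eq]
      exact Subtype.ext rfl
    change ((LinearMap.ker a).liftQ b hker)
      (a.quotKerEquivRange.symm ⟨a x, LinearMap.mem_range_self a x⟩) = b x
    rw [h1, Submodule.liftQ_apply]
  have hTb : ∀ s : S, ‖T s‖ ≤ 1 * ‖s‖ := by
    rintro ⟨s, x, rfl⟩
    rw [hT x, one_mul]
    exact h x
  let T' : S →L[ℂ] H := T.mkContinuous 1 hTb
  let K : Submodule ℂ H := S.topologicalClosure
  have hSK : S ≤ K := S.le_topologicalClosure
  let e : S →L[ℂ] K := (Submodule.inclusion hSK).mkContinuous 1 (fun s => by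
    rw [one_mul]
    exact le_rfl)
  have hiso : Isometry e := AddMonoidHomClass.isometry_of_norm e fun s => rfl
  have hdense : DenseRange e := by
    have h1 : DenseRange (Set.inclusion (show (S : Set H) ⊆ (K : Set H) from hSK)) := by
      rw [denseRange_inclusion_iff]
      exact fun x hx => hx
    exact h1
  have : CompleteSpace K := S.isClosed_topologicalClosure.completeSpace_coe
  let v : H →L[ℂ] H := (T'.extend e).comp K.orthogonalProjectionOnto
  have hn : ∀ k : K, ‖T'.extend e k‖ ≤ ‖k‖ := by
    intro k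
    refine hdense.induction_on (p := fun k => ‖T'.extend e k‖ ≤ ‖k‖) k
      (isClosed_le (T'.extend e).continuous.norm continuous_norm) fun s => ?_
    rw [T'.extend_eq hdense hiso.isUniformInducing]
    have h1 := hTb s
    rw [one_mul] at h1
    exact h1
  refine ⟨v, fun x => ?_, fun y => ?_, fun η hη => ?_⟩
  · have h1 : K.orthogonalProjectionOnto (a x) = e ⟨a x, LinearMap.mem_range_self a x⟩ := by
      have h2 : a x ∈ K := hSK (LinearMap.mem_range_self a x)
      have h3 := K.orthogonalProjectionOnto_mem_subspace_eq_self ⟨a x, h2⟩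
      exact h3
    change (T'.extend e) (K.orthogonalProjectionOnto (a x)) = b x
    rw [h1, T'.extend_eq hdense hiso.isUniformInducing]
    exact hT x
  · refine (hn _).trans ?_
    calc ‖K.orthogonalProjectionOnto y‖ ≤ ‖K.orthogonalProjectionOnto‖ * ‖y‖ :=
          (K.orthogonalProjectionOnto).le_opNorm y
      _ ≤ 1 * ‖y‖ := mul_le_mul_of_nonneg_right K.orthogonalProjectionOnto_norm_le (norm_nonneg _)
      _ = ‖y‖ := one_mul _
  · have h1 : η ∈ Kᗮ := by
      have h2 : η ∈ Sᗮ := by
        rw [Submodule.mem_orthogonal]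
        rintro _ ⟨x, rfl⟩
        exact hη x
      rwa [Submodule.orthogonal_closure]
    change (T'.extend e) (K.orthogonalProjectionOnto η) = 0
    have h2 : K.orthogonalProjectionOnto η = 0 := by
      exact Submodule.orthogonalProjectionOnto_apply_of_mem_orthogonal h1
    rw [h2, map_zero]

/-- An operator that vanishes on the range of `a` and on its orthogonal complement is zero. -/
theorem ext_range {F H : Type*} [AddCommGroup F] [Module ℂ F] [NormedAddCommGroup H]
    [InnerProductSpace ℂ H] [CompleteSpace H] (a : F →ₗ[ℂ] H) (t : H →L[ℂ] H)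
    (h1 : ∀ x, t (a x) = 0) (h2 : ∀ η, (∀ x, ⟪a x, η⟫_ℂ = 0) → t η = 0) : t = 0 := by
  let S : Submodule ℂ H := LinearMap.range a
  let K : Submodule ℂ H := S.topologicalClosure
  have : CompleteSpace K := S.isClosed_topologicalClosure.completeSpace_coe
  ext ξ
  obtain ⟨y, hy, z, hz, rfl⟩ := K.exists_add_mem_mem_orthogonal ξ
  have h3 : t y = 0 := by
    have h4 : K ≤ LinearMap.ker (t : H →ₗ[ℂ] H) := by
      refine Submodule.topologicalClosure_minimal S ?_ ?_
      · rintro _ ⟨x, rfl⟩
        exact h1 x
      · exact t.isClosed_ker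
    exact h4 hy
  have h5 : t z = 0 := by
    refine h2 z fun x => ?_
    exact (Submodule.mem_orthogonal K z).1 hz _ (S.le_topologicalClosure
      (LinearMap.mem_range_self a x))
  rw [map_add, h3, h5, add_zero]
  rfl

end Run7.h989.CC
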