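import Mathlib
import Pool.Agent.H804R2.DP.Ulim

/-!
Means of bounded operator valued functions on a commutative group of exponent two.
-/

open scoped ComplexOrder InnerProductSpace ComplexConjugate Topology
open Finset Filter

noncomputable section

namespace Run7.h989.CC

open H710R2.DP H759R2.Kad

/-- A commutative group in which all squares are trivial. -/
class SymG (G : Type) extends CommGroup G where
  sq : ∀ g : G, g * g = 1

variable {G : Type} [SymG G]

theorem closure_finite (s : Finset G) : Finite (Subgroup.closure (s : Set G)) := by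
  have : Group.FG (Subgroup.closure (s : Set G)) := by
    rw [Group.fg_iff_subgroup_fg]
    exact ⟨s, rfl⟩
  refine CommGroup.finite_of_fg_torsion _ ?_
  intro x
  rw [isOfFinOrder_iff_pow_eq_one]
  refine ⟨2, by norm_num, ?_⟩
  ext
  push_cast
  rw [pow_two]
  exact SymG.sq _

/-- The finite subgroup generated by a finite set, as a finite set. -/
def cl (s : Finset G) : Finset G :=
  haveI := closure_finite s
  (Set.toFinite (Subgroup.closure (s : Set G) : Set G)).toFinset

theorem mem_cl {s : Finset G} {g : G} : g ∈ cl s ↔ g ∈ Subgroup.closure (s : Set G) := by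
  simp [cl]

theorem one_mem_cl (s : Finset G) : (1 : G) ∈ cl s := mem_cl.2 (one_mem _)

theorem card_cl_pos (s : Finset G) : 0 < (cl s).card := Finset.card_pos.2 ⟨1, one_mem_cl s⟩

variable {H : Type} [NormedAddCommGroup H] [InnerProductSpace ℂ H] [CompleteSpace H]

/-- The average over the finite subgroup generated by `s`. -/
def avs (f : G → (H →L[ℂ] H)) (s : Finset G) : H →L[ℂ] H :=
  ((cl s).card : ℂ)⁻¹ • ∑ h ∈ cl s, f h

theorem norm_avs_le {f : G → (H →L[ℂ] H)} {d : ℝ} (hf : ∀ g, ‖f g‖ ≤ d) (s : Finset G) :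
    ‖avs f s‖ ≤ d := by
  have hc : (0 : ℝ) < (cl s).card := by exact_mod_cast card_cl_pos s
  rw [avs, norm_smul, norm_inv, Complex.norm_natCast]
  calc ((cl s).card : ℝ)⁻¹ * ‖∑ h ∈ cl s, f h‖ ≤ ((cl s).card : ℝ)⁻¹ * ∑ h ∈ cl s, ‖f h‖ := by
        gcongr
        exact norm_sum_le _ _
    _ ≤ ((cl s).card : ℝ)⁻¹ * ∑ _h ∈ cl s, d := by
        gcongr
        exact hf _
    _ = d := by
        rw [Finset.sum_const, nsmul_eq_mul, ← mul_assoc, inv_mul_cancel₀ hc.ne', one_mul]

/-- The ultrafilter along which means are taken. -/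
def uf (G : Type) : Ultrafilter (Finset G) := Ultrafilter.of (atTop : Filter (Finset G))

theorem uf_le : (uf G : Filter (Finset G)) ≤ atTop := Ultrafilter.of_le _

/-- Boundedness. -/
def Bdd (f : G → (H →L[ℂ] H)) : Prop := ∃ d : ℝ, ∀ g, ‖f g‖ ≤ d

open Classical in
/-- The mean of a bounded function. -/
def Av (f : G → (H →L[ℂ] H)) : H →L[ℂ] H :=
  if h : Bdd f then (dp_ulim H (Finset G) (uf G) (avs f) h.choose
    (norm_avs_le h.choose_spec)).choose else 0

theorem av_tendsto {f : G → (H →L[ℂ] H)} (hf : Bdd f) (ξ η : H) :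
    Tendsto (fun s => ⟪η, avs f s ξ⟫_ℂ) (uf G) (𝓝 ⟪η, Av f ξ⟫_ℂ) := by
  rw [Av, dif_pos hf]
  exact (dp_ulim H (Finset G) (uf G) (avs f) hf.choose (norm_avs_le hf.choose_spec)).choose_spec.2
    ξ η

theorem av_unique {f : G → (H →L[ℂ] H)} (hf : Bdd f) {S : H →L[ℂ] H}
    (h : ∀ ξ η, Tendsto (fun s => ⟪η, avs f s ξ⟫_ℂ) (uf G) (𝓝 ⟪η, S ξ⟫_ℂ)) : Av f = S := by
  ext ξ
  refine ext_inner_left ℂ fun η => ?_
  exact tendsto_nhds_unique (av_tendsto hf ξ η) (h ξ η)

theorem norm_av_le {f : G → (H →L[ℂ] H)} {d : ℝ} (hf : ∀ g, ‖f g‖ ≤ d) : ‖Av f‖ ≤ d := by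
  have hd : 0 ≤ d := (norm_nonneg _).trans (hf 1)
  obtain ⟨S, hS, hS'⟩ := dp_ulim H (Finset G) (uf G) (avs f) d (norm_avs_le hf)
  rw [av_unique ⟨d, hf⟩ hS']
  exact hS

theorem av_const (x : H →L[ℂ] H) : Av (fun _ : G => x) = x := by
  refine av_unique ⟨‖x‖, fun _ => le_rfl⟩ fun ξ η => ?_
  have : ∀ s : Finset G, avs (fun _ : G => x) s = x := by
    intro s
    have hc : ((cl s).card : ℂ) ≠ 0 := by exact_mod_cast (card_cl_pos s).ne'
    rw [avs, Finset.sum_const, ← Nat.cast_smul_eq_nsmul ℂ, smul_smul, inv_mul_cancel₀ hc, one_smul]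
  simp only [this]
  exact tendsto_const_nhds

theorem av_add {f g : G → (H →L[ℂ] H)} (hf : Bdd f) (hg : Bdd g) :
    Av (fun h => f h + g h) = Av f + Av g := by
  have hb : Bdd (fun h => f h + g h) := by
    obtain ⟨d, hd⟩ := hf
    obtain ⟨e, he⟩ := hg
    exact ⟨d + e, fun h => (norm_add_le _ _).trans (add_le_add (hd h) (he h))⟩
  refine av_unique hb fun ξ η => ?_
  have h := (av_tendsto hf ξ η).add (av_tendsto hg ξ η)
  simp only [← inner_add_right] at h
  simp only [avs, Finset.sum_add_distrib, smul_add, add_apply] at h ⊢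
  exact h

theorem av_mul_left (x : H →L[ℂ] H) {f : G → (H →L[ℂ] H)} (hf : Bdd f) :
    Av (fun h => x * f h) = x * Av f := by
  have hb : Bdd (fun h => x * f h) := by
    obtain ⟨d, hd⟩ := hf
    exact ⟨‖x‖ * d, fun h => (norm_mul_le _ _).trans
      (mul_le_mul_of_nonneg_left (hd h) (norm_nonneg _))⟩
  refine av_unique hb fun ξ η => ?_
  have h := av_tendsto hf ξ (ContinuousLinearMap.adjoint x η)
  simp only [ContinuousLinearMap.adjoint_inner_left] at h
  have h2 : ∀ s, x (avs f s ξ) = avs (fun h => x * f h) s ξ := by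
    intro s
    rw [avs, avs, ← Finset.mul_sum, smul_apply, smul_apply, map_smul]
    rfl
  simp only [h2] at h
  exact h

theorem av_mul_right (x : H →L[ℂ] H) {f : G → (H →L[ℂ] H)} (hf : Bdd f) :
    Av (fun h => f h * x) = Av f * x := by
  have hb : Bdd (fun h => f h * x) := by
    obtain ⟨d, hd⟩ := hf
    exact ⟨d * ‖x‖, fun h => (norm_mul_le _ _).trans
      (mul_le_mul_of_nonneg_right (hd h) (norm_nonneg _))⟩
  refine av_unique hb fun ξ η => ?_
  have h := av_tendsto hf (x ξ) η
  have h2 : ∀ s, avs f s (x ξ) = avs (fun h => f h * x) s ξ := by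
    intro s
    rw [avs, avs, ← Finset.sum_mul, smul_apply, smul_apply]
    rfl
  simp only [h2] at h
  exact h

theorem av_neg {f : G → (H →L[ℂ] H)} (hf : Bdd f) : Av (fun h => -f h) = -Av f := by
  have h := av_mul_left (-1 : H →L[ℂ] H) hf
  simpa using h

theorem av_sub {f g : G → (H →L[ℂ] H)} (hf : Bdd f) (hg : Bdd g) :
    Av (fun h => f h - g h) = Av f - Av g := by
  have hb : Bdd (fun h => -g h) := by
    obtain ⟨e, he⟩ := hg
    exact ⟨e, fun h => by rw [norm_neg]; exact he h⟩
  have h := av_add hf hb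
  rw [av_neg hg] at h
  simpa [sub_eq_add_neg] using h

theorem av_star {f : G → (H →L[ℂ] H)} (hf : Bdd f) :
    Av (fun h => star (f h)) = star (Av f) := by
  have hb : Bdd (fun h => star (f h)) := by
    obtain ⟨d, hd⟩ := hf
    exact ⟨d, fun h => by rw [norm_star]; exact hd h⟩
  refine av_unique hb fun ξ η => ?_
  have h := (Complex.continuous_conj.tendsto _).comp (av_tendsto hf η ξ)
  have h2 : ∀ s, (starRingEnd ℂ) ⟪ξ, avs f s η⟫_ℂ = ⟪η, avs (fun h => star (f h)) s ξ⟫_ℂ := by
    intro s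
    rw [inner_conj_symm, avs, avs, ← star_sum]
    have : star (((cl s).card : ℂ)⁻¹ • ∑ h ∈ cl s, f h) =
        ((cl s).card : ℂ)⁻¹ • star (∑ h ∈ cl s, f h) := by
      rw [star_smul]
      congr 1
      simp
    rw [← this, ContinuousLinearMap.star_eq_adjoint, ContinuousLinearMap.adjoint_inner_right]
  have h3 : (starRingEnd ℂ) ⟪ξ, Av f η⟫_ℂ = ⟪η, star (Av f) ξ⟫_ℂ := by
    rw [inner_conj_symm, ContinuousLinearMap.star_eq_adjoint,
      ContinuousLinearMap.adjoint_inner_right]
  simp only [Function.comp_def, h2, h3] at h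
  exact h

theorem av_inv (k : G) {f : G → (H →L[ℂ] H)} (hf : Bdd f) : Av (fun h => f (k * h)) = Av f := by
  have hb : Bdd (fun h => f (k * h)) := by
    obtain ⟨d, hd⟩ := hf
    exact ⟨d, fun h => hd _⟩
  refine av_unique hb fun ξ η => ?_
  refine (av_tendsto hf ξ η).congr' ?_
  have h1 : ∀ᶠ s in (uf G : Filter (Finset G)), k ∈ s := by
    refine uf_le ?_
    filter_upwards [eventually_ge_atTop ({k} : Finset G)] with s hs
    exact hs (Finset.mem_singleton_self k)
  filter_upwards [h1] with s hs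
  have h2 : avs (fun h => f (k * h)) s = avs f s := by
    rw [avs, avs]
    congr 1
    have hk : k ∈ Subgroup.closure (s : Set G) := Subgroup.subset_closure (by exact_mod_cast hs)
    refine Finset.sum_bij (fun h _ => k * h) ?_ ?_ ?_ ?_
    · intro a ha
      exact mem_cl.2 (mul_mem hk (mem_cl.1 ha))
    · intro a _ b _ hab
      exact mul_left_cancel hab
    · intro b hb
      exact ⟨k⁻¹ * b, mem_cl.2 (mul_mem (inv_mem hk) (mem_cl.1 hb)), by simp⟩
    · intro a _
      rfl
  rw [h2]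

theorem av_comm {f : G → (H →L[ℂ] H)} (hf : Bdd f) {t : H →L[ℂ] H}
    (h : ∀ g, t * f g = f g * t) : t * Av f = Av f * t := by
  rw [← av_mul_left t hf, ← av_mul_right t hf]
  simp only [h]

/-- Membership in a von Neumann algebra through the commutant. -/
theorem mem_of_comm {M : VonNeumannAlgebra H} {x : H →L[ℂ] H}
    (h : ∀ t : H →L[ℂ] H, (∀ y ∈ M, t * y = y * t) → t * x = x * t) : x ∈ M := by
  have : x ∈ Set.centralizer (Set.centralizer (M : Set (H →L[ℂ] H))) := by
    intro t ht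
    exact h t fun y hy => (ht y hy).symm
  rw [VonNeumannAlgebra.centralizer_centralizer] at this
  exact this

theorem av_mem {M : VonNeumannAlgebra H} {f : G → (H →L[ℂ] H)} (hf : Bdd f)
    (h : ∀ g, f g ∈ M) : Av f ∈ M :=
  mem_of_comm fun _ ht => av_comm hf fun g => ht _ (h g)

end Run7.h989.CC
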