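import Mathlib
import Pool.Agent.Run7.h989.CC.Mean

/-!
Square roots of operators near the identity, unitaries and partial isometries in von Neumann
algebras near given ones.
-/

open scoped ComplexOrder InnerProductSpace ComplexConjugate Topology
open Finset Filter

noncomputable section

namespace Run7.h989.CC

open H710R2.DP H759R2.Kad

variable {H : Type} [NormedAddCommGroup H] [InnerProductSpace ℂ H] [CompleteSpace H]

/-- Square roots of operators near the identity. -/
theorem exists_isqrt {a : H →L[ℂ] H} (ha : IsSelfAdjoint a) {κ : ℝ} (hκ : κ < 1)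
    (h : ‖a - 1‖ ≤ κ) : ∃ c s : H →L[ℂ] H, star c = c ∧ star s = s ∧ c * s = 1 ∧ s * c = 1 ∧
      s * s = a ∧ ‖s - 1‖ ≤ κ ∧ ∀ b, a * b = b * a → c * b = b * c := by
  have hκ0 : 0 ≤ κ := (norm_nonneg _).trans h
  rcases subsingleton_or_nontrivial (H →L[ℂ] H) with hs | hn
  · refine ⟨0, 0, Subsingleton.elim _ _, Subsingleton.elim _ _, Subsingleton.elim _ _,
      Subsingleton.elim _ _, Subsingleton.elim _ _, ?_, fun _ _ => Subsingleton.elim _ _⟩
    rw [Subsingleton.elim ((0 : H →L[ℂ] H) - 1) 0, norm_zero]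
    exact hκ0
  have hsp : ∀ x ∈ spectrum ℝ a, |x - 1| ≤ κ := by
    intro x hx
    have h1 : x - 1 ∈ spectrum ℝ (a - 1) := by
      rw [spectrum.mem_iff] at hx ⊢
      have h2 : algebraMap ℝ (H →L[ℂ] H) (x - 1) - (a - 1) = algebraMap ℝ (H →L[ℂ] H) x - a := by
        rw [map_sub, map_one]
        abel
      rw [h2]
      exact hx
    have h2 := spectrum.norm_le_norm_of_mem h1
    rw [Real.norm_eq_abs] at h2
    exact h2.trans h
  have hpos : ∀ x ∈ spectrum ℝ a, 0 < x := by
    intro x hx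
    have := abs_le.1 (hsp x hx)
    linarith
  have hc1 : ContinuousOn (fun x : ℝ => (√x)⁻¹) (spectrum ℝ a) := by
    refine ContinuousOn.inv₀ Real.continuous_sqrt.continuousOn fun x hx => ?_
    exact (Real.sqrt_pos.2 (hpos x hx)).ne'
  have hc2 : ContinuousOn (fun x : ℝ => √x) (spectrum ℝ a) := Real.continuous_sqrt.continuousOn
  refine ⟨cfc (fun x : ℝ => (√x)⁻¹) a, cfc (fun x : ℝ => √x) a, ?_, ?_, ?_, ?_, ?_, ?_, ?_⟩
  · exact (cfc_predicate (R := ℝ) _ a).star_eq
  · exact (cfc_predicate (R := ℝ) _ a).star_eq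
  · rw [← cfc_mul _ _ a hc1 hc2]
    have : cfc (fun x : ℝ => (√x)⁻¹ * √x) a = cfc (fun _ : ℝ => (1 : ℝ)) a := by
      refine cfc_congr fun x hx => ?_
      exact inv_mul_cancel₀ (Real.sqrt_pos.2 (hpos x hx)).ne'
    rw [this, cfc_const_one ℝ a]
  · rw [← cfc_mul _ _ a hc2 hc1]
    have : cfc (fun x : ℝ => √x * (√x)⁻¹) a = cfc (fun _ : ℝ => (1 : ℝ)) a := by
      refine cfc_congr fun x hx => ?_
      exact mul_inv_cancel₀ (Real.sqrt_pos.2 (hpos x hx)).ne'
    rw [this, cfc_const_one ℝ a]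
  · rw [← cfc_mul _ _ a hc2 hc2]
    have : cfc (fun x : ℝ => √x * √x) a = cfc (id : ℝ → ℝ) a := by
      refine cfc_congr fun x hx => ?_
      exact Real.mul_self_sqrt (hpos x hx).le
    rw [this, cfc_id ℝ a]
  · have h1 : cfc (fun x : ℝ => √x) a - 1 = cfc (fun x : ℝ => √x - 1) a := by
      rw [cfc_sub _ _ a hc2 continuousOn_const, cfc_const_one ℝ a]
    rw [h1]
    refine norm_cfc_le hκ0 fun x hx => ?_
    rw [Real.norm_eq_abs]
    have h2 := hsp x hx
    have h3 := hpos x hx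
    have h4 : 0 ≤ √x := Real.sqrt_nonneg x
    have h5 : (√x - 1) * (√x + 1) = x - 1 := by
      have := Real.mul_self_sqrt h3.le
      linear_combination this
    calc |√x - 1| = |√x - 1| * 1 := (mul_one _).symm
      _ ≤ |√x - 1| * (√x + 1) := by
          refine mul_le_mul_of_nonneg_left (by linarith) (abs_nonneg _)
      _ = |√x - 1| * |√x + 1| := by rw [abs_of_nonneg (by linarith : 0 ≤ √x + 1)]
      _ = |x - 1| := by rw [← abs_mul, h5]
      _ ≤ κ := h2
  · intro b hb
    exact (Commute.cfc_real hb _).eq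

theorem norm_one_le : ‖(1 : H →L[ℂ] H)‖ ≤ 1 := ContinuousLinearMap.norm_id_le

/-- `u` is unitary. -/
def IsU (u : H →L[ℂ] H) : Prop := star u * u = 1 ∧ u * star u = 1

theorem IsU.norm_le {u : H →L[ℂ] H} (h : IsU u) : ‖u‖ ≤ 1 := by
  have h1 : ‖u‖ * ‖u‖ ≤ 1 := by
    rw [← CStarRing.norm_star_mul_self, h.1]
    exact norm_one_le
  nlinarith [norm_nonneg u]

theorem IsU.star {u : H →L[ℂ] H} (h : IsU u) : IsU (star u) := by
  refine ⟨?_, ?_⟩
  · rw [star_star]; exact h.2
  · rw [star_star]; exact h.1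

theorem IsU.mul {u v : H →L[ℂ] H} (h : IsU u) (h' : IsU v) : IsU (u * v) := by
  constructor
  · rw [star_mul]
    calc Star.star v * Star.star u * (u * v) = Star.star v * (Star.star u * u) * v := by
          noncomm_ring
      _ = 1 := by rw [h.1, mul_one, h'.1]
  · rw [star_mul]
    calc u * v * (Star.star v * Star.star u) = u * (v * Star.star v) * Star.star u := by
          noncomm_ring
      _ = 1 := by rw [h'.2, mul_one, h.2]

/-- The polar part of an operator near a unitary. -/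
theorem exists_polar {x u : H →L[ℂ] H} (hu : IsU u) (hxu : ‖x - u‖ < 1) {κ : ℝ} (hκ : κ < 1)
    (h : ‖star x * x - 1‖ ≤ κ) : ∃ v c : H →L[ℂ] H, IsU v ∧ v = x * c ∧ ‖v - x‖ ≤ κ ∧
      ∀ b, star x * x * b = b * (star x * x) → c * b = b * c := by
  obtain ⟨c, s, hc, hs, hcs, hsc, hss, hsn, hcomm⟩ :=
    exists_isqrt (IsSelfAdjoint.star_mul_self x) hκ h
  have h1 : star (x * c) * (x * c) = 1 := by
    rw [star_mul, hc]
    calc c * star x * (x * c) = c * (star x * x) * c := by noncomm_ring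
      _ = (c * s) * (s * c) := by rw [← hss]; noncomm_ring
      _ = 1 := by rw [hcs, hsc, mul_one]
  have hux : IsUnit x := by
    have h2 : ‖1 - star u * x‖ < 1 := by
      have h3 : 1 - star u * x = star u * (u - x) := by rw [mul_sub, hu.1]
      rw [h3]
      calc ‖star u * (u - x)‖ ≤ ‖star u‖ * ‖u - x‖ := norm_mul_le _ _
        _ ≤ 1 * ‖u - x‖ := by
            gcongr
            exact hu.star.norm_le
        _ < 1 := by rw [one_mul, norm_sub_rev]; exact hxu
    have h4 : IsUnit (star u * x) := by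
      have := isUnit_one_sub_of_norm_lt_one h2
      rwa [sub_sub_cancel] at this
    have h5 : IsUnit u := ⟨⟨u, star u, hu.2, hu.1⟩, rfl⟩
    have h6 := h5.mul h4
    rwa [← mul_assoc, hu.2, one_mul] at h6
  have huc : IsUnit c := ⟨⟨c, s, hcs, hsc⟩, rfl⟩
  have h2 : (x * c) * star (x * c) = 1 := by
    obtain ⟨w, hw⟩ := hux.mul huc
    rw [← hw] at h1 ⊢
    have h3 : star (w : H →L[ℂ] H) = ((w⁻¹ : (H →L[ℂ] H)ˣ) : H →L[ℂ] H) := by
      calc star (w : H →L[ℂ] H) = star (w : H →L[ℂ] H) * (w * ((w⁻¹ : (H →L[ℂ] H)ˣ) : H →L[ℂ] H)) := by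
            rw [Units.mul_inv, mul_one]
        _ = ((w⁻¹ : (H →L[ℂ] H)ˣ) : H →L[ℂ] H) := by rw [← mul_assoc, h1, one_mul]
    rw [h3, Units.mul_inv]
  have hU : IsU (x * c) := ⟨h1, h2⟩
  refine ⟨x * c, c, hU, rfl, ?_, hcomm⟩
  have h3 : x * c - x = -(x * c) * (s - 1) := by
    have : x = x * c * s := by rw [mul_assoc, hcs, mul_one]
    conv_lhs => rw [this]
    have h4 : x * c * s * c = x * c := by rw [mul_assoc (x * c) s c, hsc, mul_one]
    rw [h4]
    noncomm_ring
  rw [h3]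
  calc ‖-(x * c) * (s - 1)‖ ≤ ‖-(x * c)‖ * ‖s - 1‖ := norm_mul_le _ _
    _ ≤ 1 * κ := by
        rw [norm_neg]
        exact mul_le_mul hU.norm_le hsn (norm_nonneg _) zero_le_one
    _ = κ := one_mul κ

/-- A unitary in `N` near a unitary near `N`. -/
theorem exists_unitary {N : VonNeumannAlgebra H} {u y : H →L[ℂ] H} (hu : IsU u) (hy : y ∈ N)
    {γ : ℝ} (hγ : γ ≤ 1 / 4) (h : ‖u - y‖ ≤ γ) : ∃ v ∈ N, IsU v ∧ ‖u - v‖ ≤ 4 * γ := by
  have hγ0 : 0 ≤ γ := (norm_nonneg _).trans h
  have hyn : ‖y‖ ≤ 1 + γ := by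
    calc ‖y‖ = ‖u - (u - y)‖ := by rw [sub_sub_cancel]
      _ ≤ ‖u‖ + ‖u - y‖ := norm_sub_le _ _
      _ ≤ 1 + γ := add_le_add hu.norm_le h
  have h1 : ‖star y * y - 1‖ ≤ 3 * γ := by
    have h2 : star y * y - 1 = star y * (y - u) + star (y - u) * u := by
      rw [star_sub, mul_sub, sub_mul, hu.1]
      abel
    rw [h2]
    calc ‖star y * (y - u) + star (y - u) * u‖ ≤ ‖star y * (y - u)‖ + ‖star (y - u) * u‖ :=
          norm_add_le _ _
      _ ≤ ‖star y‖ * ‖y - u‖ + ‖star (y - u)‖ * ‖u‖ := add_le_add (norm_mul_le _ _) (norm_mul_le _ _)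
      _ ≤ (1 + γ) * γ + γ * 1 := by
          rw [norm_star, norm_star, norm_sub_rev y u]
          refine add_le_add (mul_le_mul hyn h (norm_nonneg _) (by linarith))
            (mul_le_mul h hu.norm_le (norm_nonneg _) hγ0)
      _ ≤ 3 * γ := by nlinarith
  obtain ⟨v, c, hv, hvc, hvn, hcomm⟩ := exists_polar (x := y) hu
    (by rw [norm_sub_rev]; linarith) (κ := 3 * γ) (by linarith) h1
  refine ⟨v, ?_, hv, ?_⟩
  · rw [hvc]
    refine mul_mem hy ?_
    refine mem_of_comm fun t ht => ?_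
    exact (hcomm t (by
      have h5 := ht _ (mul_mem (star_mem hy) hy)
      exact h5.symm)).symm
  · calc ‖u - v‖ = ‖(u - y) - (v - y)‖ := by congr 1; abel
      _ ≤ ‖u - y‖ + ‖v - y‖ := norm_sub_le _ _
      _ ≤ 4 * γ := by linarith

/-- A partial isometry in `N` between two projections of `N` near one near `N`. -/
theorem exists_pi {N : VonNeumannAlgebra H} {p q v y : H →L[ℂ] H} (hp : p ∈ N) (hq : q ∈ N)
    (hpp : IsPr p) (hqq : IsPr q) (hv : star v * v = p) (hqv : q * v = v) (hy : y ∈ N)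
    {γ : ℝ} (hγ : γ ≤ 1 / 4) (h : ‖v - y‖ ≤ γ) : ∃ w ∈ N, star w * w = p ∧ q * w = w := by
  have hγ0 : 0 ≤ γ := (norm_nonneg _).trans h
  have hPn : ∀ {p : H →L[ℂ] H}, IsPr p → ‖p‖ ≤ 1 := by
    intro p hp
    have h1 : ‖p‖ * ‖p‖ = ‖p‖ := by rw [← CStarRing.norm_star_mul_self, hp.1, hp.2]
    nlinarith [norm_nonneg p]
  have hvn : ‖v‖ ≤ 1 := by
    have h1 : ‖v‖ * ‖v‖ ≤ 1 := by
      rw [← CStarRing.norm_star_mul_self, hv]
      exact hPn hpp
    nlinarith [norm_nonneg v]
  have hvp : v * p = v := by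
    have h1 : star (v * p - v) * (v * p - v) = 0 := by
      have h2 : star (v * p - v) * (v * p - v) = p * (star v * v) * p - p * (star v * v)
          - (star v * v) * p + star v * v := by
        rw [star_sub, star_mul, hpp.1]
        noncomm_ring
      rw [h2, hv, hpp.2, hpp.2]
      noncomm_ring
    exact sub_eq_zero.1 ((CStarRing.star_mul_self_eq_zero_iff _).1 h1)
  set z : H →L[ℂ] H := q * y * p with hz
  have hzN : z ∈ N := mul_mem (mul_mem hq hy) hp
  have hzv : ‖z - v‖ ≤ γ := by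
    have h1 : z - v = q * (y - v) * p := by
      rw [hz, mul_sub, sub_mul, hqv, hvp]
    rw [h1]
    calc ‖q * (y - v) * p‖ ≤ ‖q‖ * ‖y - v‖ * ‖p‖ :=
          (norm_mul_le _ _).trans (mul_le_mul_of_nonneg_right (norm_mul_le _ _) (norm_nonneg _))
      _ ≤ 1 * γ * 1 := by
          rw [norm_sub_rev y v]
          gcongr
          · exact hPn hqq
          · exact hPn hpp
      _ = γ := by ring
  have hzn : ‖z‖ ≤ 1 + γ := by
    calc ‖z‖ = ‖v + (z - v)‖ := by rw [add_sub_cancel]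
      _ ≤ ‖v‖ + ‖z - v‖ := norm_add_le _ _
      _ ≤ 1 + γ := add_le_add hvn hzv
  have hzp : z * p = z := by rw [hz, mul_assoc, hpp.2]
  have hqz : q * z = z := by rw [hz, ← mul_assoc, ← mul_assoc, hqq.2]
  set a : H →L[ℂ] H := star z * z + (1 - p) with ha
  have haN : a ∈ N := add_mem (mul_mem (star_mem hzN) hzN) (sub_mem (one_mem N) hp)
  have hasa : IsSelfAdjoint a := by
    refine (IsSelfAdjoint.star_mul_self z).add ?_
    change star (1 - p) = 1 - p
    rw [star_sub, star_one, hpp.1]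
  have h1 : ‖a - 1‖ ≤ 3 / 4 := by
    have h2 : a - 1 = star z * (z - v) + star (z - v) * v := by
      rw [ha, star_sub, mul_sub, sub_mul, hv]
      abel
    rw [h2]
    calc ‖star z * (z - v) + star (z - v) * v‖ ≤ ‖star z * (z - v)‖ + ‖star (z - v) * v‖ :=
          norm_add_le _ _
      _ ≤ ‖star z‖ * ‖z - v‖ + ‖star (z - v)‖ * ‖v‖ := add_le_add (norm_mul_le _ _) (norm_mul_le _ _)
      _ ≤ (1 + γ) * γ + γ * 1 := by
          rw [norm_star, norm_star]
          refine add_le_add (mul_le_mul hzn hzv (norm_nonneg _) (by linarith))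
            (mul_le_mul hzv hvn (norm_nonneg _) hγ0)
      _ ≤ 3 / 4 := by nlinarith
  obtain ⟨c, s, hc, hs, hcs, hsc, hss, hsn, hcomm⟩ :=
    exists_isqrt hasa (κ := 3 / 4) (by norm_num) h1
  have hcN : c ∈ N := by
    refine mem_of_comm fun t ht => ?_
    exact (hcomm t (ht _ haN).symm).symm
  refine ⟨z * c, mul_mem hzN hcN, ?_, by rw [← mul_assoc, hqz]⟩
  have hap : a * (1 - p) = 1 - p := by
    rw [ha, add_mul]
    have h3 : star z * z * (1 - p) = 0 := by rw [mul_sub, mul_one, mul_assoc, hzp, sub_self]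
    have h4 : (1 - p) * (1 - p) = 1 - p := by
      rw [sub_mul, mul_sub, mul_sub, hpp.2]
      noncomm_ring
    rw [h3, h4, zero_add]
  have hpa : (1 - p) * a = 1 - p := by
    rw [ha, mul_add]
    have h3 : (1 - p) * (star z * z) = 0 := by
      have : p * star z = star z := by
        have := congrArg star hzp
        rw [star_mul, hpp.1] at this
        exact this
      have h5 : p * (star z * z) = star z * z := by
        calc p * (star z * z) = p * star z * z := (mul_assoc _ _ _).symm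
          _ = star z * z := by rw [this]
      rw [sub_mul, one_mul, h5, sub_self]
    have h4 : (1 - p) * (1 - p) = 1 - p := by
      rw [sub_mul, mul_sub, mul_sub, hpp.2]
      noncomm_ring
    rw [h3, h4, zero_add]
  have hc1 : c * (1 - p) = (1 - p) * c := hcomm _ (by rw [hap, hpa])
  have hcac : c * a * c = 1 := by
    rw [← hss]
    calc c * (s * s) * c = (c * s) * (s * c) := by noncomm_ring
      _ = 1 := by rw [hcs, hsc, mul_one]
  have hc2 : c * (1 - p) * c = 1 - p := by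
    calc c * (1 - p) * c = (1 - p) * c * c := by rw [hc1]
      _ = (1 - p) * a * c * c := by rw [hpa]
      _ = (1 - p) * (s * (s * c) * c) := by rw [← hss]; noncomm_ring
      _ = 1 - p := by rw [hsc, mul_one, hsc, mul_one]
  rw [star_mul, hc]
  calc c * star z * (z * c) = c * (a - (1 - p)) * c := by rw [ha]; noncomm_ring
    _ = c * a * c - c * (1 - p) * c := by noncomm_ring
    _ = p := by rw [hcac, hc2]; abel

end Run7.h989.CC
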