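import Mathlib
import Pool.Agent.Run7.h989.CC.Pol

/-!
Approximate unitary representations of commutative groups of exponent two in a von Neumann algebra
are near representations.
-/

open scoped ComplexOrder InnerProductSpace ComplexConjugate Topology
open Finset Filter

noncomputable section

namespace Run7.h989.CC

open H710R2.DP H759R2.Kad

variable {H : Type} [NormedAddCommGroup H] [InnerProductSpace ℂ H] [CompleteSpace H]
variable {G : Type} [SymG G]

/-- Unitary valued function in `N` with defect at most `ε`. -/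
def Good (N : VonNeumannAlgebra H) (ε : ℝ) (v : G → (H →L[ℂ] H)) : Prop :=
  (∀ g, v g ∈ N ∧ IsU (v g)) ∧ ∀ g h, ‖v (g * h) - v g * v h‖ ≤ ε

theorem Bdd.mulr {f : G → (H →L[ℂ] H)} (hf : Bdd f) (x : H →L[ℂ] H) :
    Bdd (fun h => f h * x) := by
  obtain ⟨d, hd⟩ := hf
  exact ⟨d * ‖x‖, fun h => (norm_mul_le _ _).trans
    (mul_le_mul_of_nonneg_right (hd h) (norm_nonneg _))⟩

theorem Bdd.mull {f : G → (H →L[ℂ] H)} (hf : Bdd f) (x : H →L[ℂ] H) :
    Bdd (fun h => x * f h) := by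
  obtain ⟨d, hd⟩ := hf
  exact ⟨‖x‖ * d, fun h => (norm_mul_le _ _).trans
    (mul_le_mul_of_nonneg_left (hd h) (norm_nonneg _))⟩

theorem Bdd.add {f g : G → (H →L[ℂ] H)} (hf : Bdd f) (hg : Bdd g) :
    Bdd (fun h => f h + g h) := by
  obtain ⟨d, hd⟩ := hf
  obtain ⟨e, he⟩ := hg
  exact ⟨d + e, fun h => (norm_add_le _ _).trans (add_le_add (hd h) (he h))⟩

theorem Bdd.const (x : H →L[ℂ] H) : Bdd (fun _ : G => x) := ⟨‖x‖, fun _ => le_rfl⟩

theorem Bdd.star {f : G → (H →L[ℂ] H)} (hf : Bdd f) : Bdd (fun h => star (f h)) := by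
  obtain ⟨d, hd⟩ := hf
  exact ⟨d, fun h => by rw [norm_star]; exact hd h⟩

theorem Bdd.mul {f g : G → (H →L[ℂ] H)} (hf : Bdd f) (hg : Bdd g) :
    Bdd (fun h => f h * g h) := by
  obtain ⟨d, hd⟩ := hf
  obtain ⟨e, he⟩ := hg
  exact ⟨d * e, fun h => (norm_mul_le _ _).trans (mul_le_mul (hd h) (he h) (norm_nonneg _)
    ((norm_nonneg _).trans (hd h)))⟩

section step

variable {N : VonNeumannAlgebra H} {ε : ℝ} {v : G → (H →L[ℂ] H)}

/-- The correction before taking polar parts. -/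
def Wv (v : G → (H →L[ℂ] H)) (g : G) : H →L[ℂ] H := Av fun h => v (g * h) * star (v h)

theorem isU_b (hv : Good N ε v) (g h : G) : IsU (v (g * h) * star (v h)) :=
  (hv.1 _).2.mul (hv.1 _).2.star

theorem bdd_b (hv : Good N ε v) (g : G) : Bdd (fun h => v (g * h) * star (v h)) :=
  ⟨1, fun h => (isU_b hv g h).norm_le⟩

theorem b_near (hv : Good N ε v) (g h : G) : ‖v (g * h) * star (v h) - v g‖ ≤ ε := by
  have h1 : v (g * h) * star (v h) - v g = (v (g * h) - v g * v h) * star (v h) := by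
    rw [sub_mul, mul_assoc (v g), (hv.1 h).2.2, mul_one]
  rw [h1]
  have hε0 : 0 ≤ ε := (norm_nonneg _).trans (hv.2 1 1)
  calc ‖(v (g * h) - v g * v h) * star (v h)‖ ≤ ‖v (g * h) - v g * v h‖ * ‖star (v h)‖ :=
        norm_mul_le _ _
    _ ≤ ε * 1 := mul_le_mul (hv.2 g h) (hv.1 h).2.star.norm_le (norm_nonneg _) hε0
    _ = ε := mul_one ε

theorem W_mem (hv : Good N ε v) (g : G) : Wv v g ∈ N :=
  av_mem (bdd_b hv g) fun h => mul_mem (hv.1 _).1 (star_mem (hv.1 _).1)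

theorem W_norm (hv : Good N ε v) (g : G) : ‖Wv v g‖ ≤ 1 :=
  norm_av_le fun h => (isU_b hv g h).norm_le

theorem W_near (hv : Good N ε v) (g : G) : ‖Wv v g - v g‖ ≤ ε := by
  have h1 : Wv v g - v g = Av fun h => v (g * h) * star (v h) - v g := by
    rw [av_sub (bdd_b hv g) (Bdd.const _), av_const]
    rfl
  rw [h1]
  exact norm_av_le fun h => b_near hv g h

theorem a_near (hv : Good N ε v) (g h : G) :
    ‖v (g * h) * star (v h) - Wv v g‖ ≤ 2 * ε := by
  calc ‖v (g * h) * star (v h) - Wv v g‖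
      = ‖(v (g * h) * star (v h) - v g) - (Wv v g - v g)‖ := by rw [sub_sub_sub_cancel_right]
    _ ≤ ‖v (g * h) * star (v h) - v g‖ + ‖Wv v g - v g‖ := norm_sub_le _ _
    _ ≤ 2 * ε := by linarith [b_near hv g h, W_near hv g]

theorem W_unit (hv : Good N ε v) (g : G) : ‖star (Wv v g) * Wv v g - 1‖ ≤ 4 * ε ^ 2 := by
  have hε0 : 0 ≤ ε := (norm_nonneg _).trans (hv.2 1 1)
  have hbb := bdd_b hv g
  have h1 : (fun h => star (v (g * h) * star (v h) - Wv v g) *
      (v (g * h) * star (v h) - Wv v g)) = fun h =>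
      ((1 : H →L[ℂ] H) + star (Wv v g) * Wv v g) - (star (v (g * h) * star (v h)) * Wv v g +
        star (Wv v g) * (v (g * h) * star (v h))) := by
    funext h
    have h2 := (isU_b hv g h).1
    generalize v (g * h) * star (v h) = b at h2 ⊢
    rw [star_sub, sub_mul, mul_sub, mul_sub, h2]
    abel
  have h2 : Av (fun h => star (v (g * h) * star (v h) - Wv v g) *
      (v (g * h) * star (v h) - Wv v g)) = 1 - star (Wv v g) * Wv v g := by
    rw [h1, av_sub (Bdd.const _) ((hbb.star.mulr _).add (hbb.mull _)), av_const,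
      av_add (hbb.star.mulr _) (hbb.mull _), av_mul_right _ hbb.star,
      av_mul_left _ hbb, av_star hbb]
    have h3 : (Av fun h => v (g * h) * star (v h)) = Wv v g := rfl
    rw [h3]
    abel
  rw [norm_sub_rev, ← h2]
  refine norm_av_le fun h => ?_
  rw [CStarRing.norm_star_mul_self]
  have h3 := a_near hv g h
  calc ‖v (g * h) * star (v h) - Wv v g‖ * ‖v (g * h) * star (v h) - Wv v g‖
      ≤ (2 * ε) * (2 * ε) := mul_le_mul h3 h3 (norm_nonneg _) (by linarith)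
    _ = 4 * ε ^ 2 := by ring

theorem av_key {A B : G → (H →L[ℂ] H)} (hA : Bdd A) (hB : Bdd B) (h0 : Av A = 0)
    (x : H →L[ℂ] H) : Av (fun h => A h * B h) = Av (fun h => A h * (B h - x)) := by
  have h4 : (fun h => A h * (B h - x)) = fun h => A h * B h - A h * x := by
    funext h
    rw [mul_sub]
  rw [h4, av_sub (hA.mul hB) (hA.mulr _), av_mul_right _ hA, h0, zero_mul, sub_zero]

theorem W_mul1a (hv : Good N ε v) (g k : G) :
    Bdd (fun h => v (g * (k * h)) * star (v (k * h))) :=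
  ⟨1, fun h => (isU_b hv g (k * h)).norm_le⟩

theorem W_mul1b (hv : Good N ε v) (g k : G) :
    Av (fun h => v (g * (k * h)) * star (v (k * h))) = Wv v g := by
  have h := av_inv k (f := fun h => v (g * h) * star (v h)) (bdd_b hv g)
  exact h

theorem W_mul1 (hv : Good N ε v) (g k : G) :
    Av (fun h => v (g * (k * h)) * star (v (k * h)) - Wv v g) = 0 := by
  have h2 := av_sub (W_mul1a hv g k) (Bdd.const (Wv v g))
  exact h2.trans (by rw [W_mul1b hv g k, av_const, sub_self])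

theorem W_mul2a (hv : Good N ε v) (g k h : G) :
    (v (g * (k * h)) * star (v (k * h)) - Wv v g) * (v (k * h) * star (v h)) =
      v ((g * k) * h) * star (v h) - Wv v g * (v (k * h) * star (v h)) := by
  rw [sub_mul]
  congr 1
  calc v (g * (k * h)) * star (v (k * h)) * (v (k * h) * star (v h))
      = v (g * (k * h)) * (star (v (k * h)) * v (k * h)) * star (v h) := by noncomm_ring
    _ = v (g * k * h) * star (v h) := by rw [(hv.1 _).2.1, mul_one, mul_assoc g k h]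

theorem W_mul2 (hv : Good N ε v) (g k : G) :
    Av (fun h => (v (g * (k * h)) * star (v (k * h)) - Wv v g) *
      (v (k * h) * star (v h))) = Wv v (g * k) - Wv v g * Wv v k := by
  have h1 : (fun h => (v (g * (k * h)) * star (v (k * h)) - Wv v g) *
      (v (k * h) * star (v h))) = fun h => v ((g * k) * h) * star (v h) -
        Wv v g * (v (k * h) * star (v h)) := funext fun h => W_mul2a hv g k h
  have h2 := av_sub (bdd_b hv (g * k)) ((bdd_b hv k).mull (Wv v g))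
  have h3 := av_mul_left (Wv v g) (bdd_b hv k)
  exact (congrArg Av h1).trans (h2.trans (congrArg (fun z => Wv v (g * k) - z) h3))

theorem W_mul3 (hv : Good N ε v) (g k : G) :
    Wv v (g * k) - Wv v g * Wv v k =
      Av (fun h => (v (g * (k * h)) * star (v (k * h)) - Wv v g) *
        (v (k * h) * star (v h) - v k)) := by
  have haBd : Bdd (fun h => v (g * (k * h)) * star (v (k * h)) - Wv v g) :=
    ⟨2 * ε, fun h => a_near hv g (k * h)⟩
  exact (W_mul2 hv g k).symm.trans (av_key haBd (bdd_b hv k) (W_mul1 hv g k) (v k))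

theorem W_mul (hv : Good N ε v) (g k : G) : ‖Wv v (g * k) - Wv v g * Wv v k‖ ≤ 2 * ε ^ 2 := by
  have hε0 : 0 ≤ ε := (norm_nonneg _).trans (hv.2 1 1)
  rw [W_mul3 hv g k]
  refine norm_av_le fun h => ?_
  refine (norm_mul_le _ _).trans ?_
  calc ‖v (g * (k * h)) * star (v (k * h)) - Wv v g‖ * ‖v (k * h) * star (v h) - v k‖
      ≤ (2 * ε) * ε := mul_le_mul (a_near hv g (k * h)) (b_near hv k h) (norm_nonneg _)
        (by linarith)
    _ = 2 * ε ^ 2 := by ring

theorem W_polar (hε : ε ≤ 1 / 56) (hv : Good N ε v) (g : G) :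
    ∃ u ∈ N, IsU u ∧ ‖u - Wv v g‖ ≤ 4 * ε ^ 2 := by
  have hε0 : 0 ≤ ε := (norm_nonneg _).trans (hv.2 1 1)
  obtain ⟨u, c, hu, huc, hun, hcomm⟩ := exists_polar (x := Wv v g) (u := v g) (hv.1 g).2
    (by linarith [W_near hv g]) (κ := 4 * ε ^ 2) (by nlinarith) (W_unit hv g)
  refine ⟨u, ?_, hu, hun⟩
  rw [huc]
  refine mul_mem (W_mem hv g) (mem_of_comm fun t ht => ?_)
  exact (hcomm t (ht _ (mul_mem (star_mem (W_mem hv g)) (W_mem hv g))).symm).symm

end step

theorem newton_step {N : VonNeumannAlgebra H} {ε : ℝ} (hε : ε ≤ 1 / 56)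
    {v : G → (H →L[ℂ] H)} (hv : Good N ε v) :
    ∃ v' : G → (H →L[ℂ] H), Good N (ε / 4) v' ∧ ∀ g, ‖v' g - v g‖ ≤ 2 * ε := by
  have hε0 : 0 ≤ ε := (norm_nonneg _).trans (hv.2 1 1)
  choose v' hv'N hv'U hv'n using fun g => W_polar hε hv g
  have he2 : 14 * ε ^ 2 ≤ ε / 4 := by nlinarith
  refine ⟨v', ⟨fun g => ⟨hv'N g, hv'U g⟩, fun g k => ?_⟩, fun g => ?_⟩
  · have h1 : v' (g * k) - v' g * v' k = (v' (g * k) - Wv v (g * k)) +
        (Wv v (g * k) - Wv v g * Wv v k)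
        - ((v' g - Wv v g) * Wv v k + v' g * (v' k - Wv v k)) := by
      rw [sub_mul, mul_sub]
      abel
    rw [h1]
    have e1 : ‖(v' g - Wv v g) * Wv v k‖ ≤ 4 * ε ^ 2 * 1 :=
      (norm_mul_le _ _).trans (mul_le_mul (hv'n g) (W_norm hv k) (norm_nonneg _) (by positivity))
    have e2 : ‖v' g * (v' k - Wv v k)‖ ≤ 1 * (4 * ε ^ 2) :=
      (norm_mul_le _ _).trans (mul_le_mul (hv'U g).norm_le (hv'n k) (norm_nonneg _) zero_le_one)
    calc ‖(v' (g * k) - Wv v (g * k)) + (Wv v (g * k) - Wv v g * Wv v k)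
        - ((v' g - Wv v g) * Wv v k + v' g * (v' k - Wv v k))‖
        ≤ (‖v' (g * k) - Wv v (g * k)‖ + ‖Wv v (g * k) - Wv v g * Wv v k‖) +
          (‖(v' g - Wv v g) * Wv v k‖ + ‖v' g * (v' k - Wv v k)‖) :=
          (norm_sub_le _ _).trans (add_le_add (norm_add_le _ _) (norm_add_le _ _))
      _ ≤ (4 * ε ^ 2 + 2 * ε ^ 2) + (4 * ε ^ 2 * 1 + 1 * (4 * ε ^ 2)) :=
          add_le_add (add_le_add (hv'n _) (W_mul hv g k)) (add_le_add e1 e2)
      _ ≤ ε / 4 := by linarith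
  · calc ‖v' g - v g‖ = ‖(v' g - Wv v g) + (Wv v g - v g)‖ := by rw [sub_add_sub_cancel]
      _ ≤ ‖v' g - Wv v g‖ + ‖Wv v g - v g‖ := norm_add_le _ _
      _ ≤ 2 * ε := by nlinarith [hv'n g, W_near hv g]

theorem newton_step' {N : VonNeumannAlgebra H} {ε : ℝ} (hε : ε ≤ 1 / 56) (hε0 : 0 ≤ ε) (n : ℕ)
    {v : G → (H →L[ℂ] H)} (hv : Good N (ε / 4 ^ n) v) :
    ∃ v' : G → (H →L[ℂ] H), Good N (ε / 4 ^ (n + 1)) v' ∧
      ∀ g, ‖v' g - v g‖ ≤ 2 * (ε / 4 ^ n) := by
  have h1 : ε / 4 ^ n ≤ 1 / 56 := by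
    have : (1 : ℝ) ≤ 4 ^ n := one_le_pow₀ (by norm_num)
    calc ε / 4 ^ n ≤ ε / 1 := div_le_div_of_nonneg_left hε0 one_pos this
      _ ≤ 1 / 56 := by simpa using hε
  obtain ⟨v', h2, h3⟩ := newton_step h1 hv
  refine ⟨v', ?_, h3⟩
  have h4 : ε / 4 ^ n / 4 = ε / 4 ^ (n + 1) := by rw [div_div, pow_succ]
  rwa [h4] at h2

/-- The sequence of corrections. -/
def nseq (N : VonNeumannAlgebra H) {ε : ℝ} (hε : ε ≤ 1 / 56) (hε0 : 0 ≤ ε)
    {v : G → (H →L[ℂ] H)} (hv : Good N ε v) :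
    (n : ℕ) → {u : G → (H →L[ℂ] H) // Good N (ε / 4 ^ n) u}
  | 0 => ⟨v, by simpa using hv⟩
  | n + 1 => ⟨(newton_step' hε hε0 n (nseq N hε hε0 hv n).2).choose,
      (newton_step' hε hε0 n (nseq N hε hε0 hv n).2).choose_spec.1⟩

theorem nseq_dist (N : VonNeumannAlgebra H) {ε : ℝ} (hε : ε ≤ 1 / 56) (hε0 : 0 ≤ ε)
    {v : G → (H →L[ℂ] H)} (hv : Good N ε v) (n : ℕ) (g : G) :
    ‖(nseq N hε hε0 hv (n + 1)).1 g - (nseq N hε hε0 hv n).1 g‖ ≤ 2 * (ε / 4 ^ n) :=
  (newton_step' hε hε0 n (nseq N hε hε0 hv n).2).choose_spec.2 g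

/-- Approximate representations are near representations. -/
theorem newton {N : VonNeumannAlgebra H} {ε : ℝ} (hε : ε ≤ 1 / 56)
    {v : G → (H →L[ℂ] H)} (hv : Good N ε v) :
    ∃ π : G → (H →L[ℂ] H), Good N 0 π ∧ ∀ g, ‖π g - v g‖ ≤ 3 * ε := by
  have hε0 : 0 ≤ ε := (norm_nonneg _).trans (hv.2 1 1)
  set s := nseq N hε hε0 hv with hs
  have hd : ∀ g n, dist ((s n).1 g) ((s (n + 1)).1 g) ≤ 2 * ε * (1 / 4) ^ n := by
    intro g n
    rw [dist_eq_norm, norm_sub_rev]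
    refine (nseq_dist N hε hε0 hv n g).trans (le_of_eq ?_)
    rw [one_div, inv_pow]
    ring
  have hcau : ∀ g, CauchySeq fun n => (s n).1 g := fun g =>
    cauchySeq_of_le_geometric (1 / 4) (2 * ε) (by norm_num) (hd g)
  have hlim : ∀ g, ∃ x, Tendsto (fun n => (s n).1 g) atTop (𝓝 x) := fun g =>
    cauchySeq_tendsto_of_complete (hcau g)
  choose π hπ using hlim
  have hstar : ∀ g, Tendsto (fun n => star ((s n).1 g)) atTop (𝓝 (star (π g))) := fun g =>
    (continuous_star.tendsto _).comp (hπ g)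
  refine ⟨π, ⟨fun g => ⟨?_, ?_, ?_⟩, fun g h => ?_⟩, fun g => ?_⟩
  · have h1 : IsClosed (N.toStarSubalgebra : Set (H →L[ℂ] H)) := vn_isClosed N
    exact h1.mem_of_tendsto (hπ g) (Eventually.of_forall fun n => ((s n).2.1 g).1)
  · have h1 := (hstar g).mul (hπ g)
    refine tendsto_nhds_unique h1 ?_
    simp only [((s _).2.1 g).2.1]
    exact tendsto_const_nhds
  · have h1 := (hπ g).mul (hstar g)
    refine tendsto_nhds_unique h1 ?_
    simp only [((s _).2.1 g).2.2]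
    exact tendsto_const_nhds
  · have h1 := ((hπ (g * h)).sub ((hπ g).mul (hπ h))).norm
    refine le_of_tendsto_of_tendsto' h1 ?_ (fun n => (s n).2.2 g h)
    have h2 : Tendsto (fun n : ℕ => ε * (1 / 4 : ℝ) ^ n) atTop (𝓝 (ε * 0)) :=
      (tendsto_pow_atTop_nhds_zero_of_lt_one (by norm_num) (by norm_num)).const_mul ε
    rw [mul_zero] at h2
    refine h2.congr fun n => ?_
    rw [one_div, inv_pow]
    rfl
  · have h1 := dist_le_of_le_geometric_of_tendsto₀ (1 / 4) (2 * ε) (by norm_num) (hd g) (hπ g)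
    have h2 : (s 0).1 g = v g := rfl
    rw [h2, dist_comm, dist_eq_norm] at h1
    refine h1.trans ?_
    have h3 : 2 * ε / (1 - 1 / 4) = 8 / 3 * ε := by ring
    rw [h3]
    linarith

end Run7.h989.CC
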