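import Mathlib
import Pool.Agent.Run7.h989.CC.Newton

/-!
Commutative groups of symmetries near a von Neumann algebra are unitarily conjugate to subgroups.
-/

open scoped ComplexOrder InnerProductSpace ComplexConjugate Topology
open Finset Filter

noncomputable section

namespace Run7.h989.CC

open H710R2.DP H759R2.Kad

variable {H : Type} [NormedAddCommGroup H] [InnerProductSpace ℂ H] [CompleteSpace H]

/-- A commutative group of self-adjoint unitaries. -/
structure IsSymGrp (S : Set (H →L[ℂ] H)) : Prop where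
  one : (1 : H →L[ℂ] H) ∈ S
  mul : ∀ g ∈ S, ∀ h ∈ S, g * h ∈ S
  sa : ∀ g ∈ S, star g = g
  sq : ∀ g ∈ S, g * g = 1
  comm : ∀ g ∈ S, ∀ h ∈ S, g * h = h * g

/-- The group structure. -/
def symG {S : Set (H →L[ℂ] H)} (hS : IsSymGrp S) : SymG S where
  mul g h := ⟨g.1 * h.1, hS.mul _ g.2 _ h.2⟩
  mul_assoc a b c := Subtype.ext (mul_assoc a.1 b.1 c.1)
  one := ⟨1, hS.one⟩
  one_mul a := Subtype.ext (one_mul a.1)
  mul_one a := Subtype.ext (mul_one a.1)
  inv a := a
  inv_mul_cancel a := Subtype.ext (hS.sq a.1 a.2)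
  mul_comm a b := Subtype.ext (hS.comm a.1 a.2 b.1 b.2)
  sq a := Subtype.ext (hS.sq a.1 a.2)

theorem IsSymGrp.isU {S : Set (H →L[ℂ] H)} (hS : IsSymGrp S) {g : H →L[ℂ] H} (hg : g ∈ S) :
    IsU g := by
  refine ⟨?_, ?_⟩
  · rw [hS.sa g hg, hS.sq g hg]
  · rw [hS.sa g hg, hS.sq g hg]

theorem comm_star {N : VonNeumannAlgebra H} {t : H →L[ℂ] H} (ht : ∀ x ∈ N, t * x = x * t) :
    ∀ x ∈ N, star t * x = x * star t := by
  intro x hx
  have h := congrArg star (ht (star x) (star_mem hx))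
  rw [star_mul, star_mul, star_star] at h
  exact h.symm

theorem pert {N : VonNeumannAlgebra H} {S : Set (H →L[ℂ] H)} (hS : IsSymGrp S) {γ : ℝ}
    (hγ : γ ≤ 1 / 700) (near : ∀ g ∈ S, ∃ y ∈ N, ‖g - y‖ ≤ γ) :
    ∃ u : H →L[ℂ] H, IsU u ∧ ‖u - 1‖ ≤ 130 * γ ∧ (∀ g ∈ S, u * g * star u ∈ N) ∧
      ∀ t : H →L[ℂ] H, (∀ x ∈ N, t * x = x * t) → (∀ g ∈ S, t * g = g * t) → t * u = u * t := by
  letI := symG hS
  have hmul : ∀ g h : S, ((g * h : S) : H →L[ℂ] H) = g.1 * h.1 := fun _ _ => rfl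
  obtain ⟨y0, hy0, hy0'⟩ := near 1 hS.one
  have hγ0 : 0 ≤ γ := (norm_nonneg _).trans hy0'
  have hex : ∀ g : S, ∃ v ∈ N, IsU v ∧ ‖(g : H →L[ℂ] H) - v‖ ≤ 4 * γ := by
    intro g
    obtain ⟨y, hy, hy'⟩ := near g.1 g.2
    exact exists_unitary (hS.isU g.2) hy (by linarith) hy'
  choose v hvN hvU hvn using hex
  have hgood : Good N (12 * γ) v := by
    refine ⟨fun g => ⟨hvN g, hvU g⟩, fun g h => ?_⟩
    have h1 : v (g * h) - v g * v h = -(((g * h : S) : H →L[ℂ] H) - v (g * h)) +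
        ((g.1 - v g) * h.1 + v g * (h.1 - v h)) := by
      rw [hmul, sub_mul, mul_sub]
      abel
    rw [h1]
    have e1 : ‖(g.1 - v g) * h.1‖ ≤ 4 * γ * 1 :=
      (norm_mul_le _ _).trans (mul_le_mul (hvn g) (hS.isU h.2).norm_le (norm_nonneg _)
        (by linarith))
    have e2 : ‖v g * (h.1 - v h)‖ ≤ 1 * (4 * γ) :=
      (norm_mul_le _ _).trans (mul_le_mul (hvU g).norm_le (hvn h) (norm_nonneg _) zero_le_one)
    have e3 := hvn (g * h)
    rw [← norm_neg] at e3
    calc _ ≤ ‖-(((g * h : S) : H →L[ℂ] H) - v (g * h))‖ +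
          (‖(g.1 - v g) * h.1‖ + ‖v g * (h.1 - v h)‖) :=
          (norm_add_le _ _).trans (add_le_add le_rfl (norm_add_le _ _))
      _ ≤ 12 * γ := by linarith
  obtain ⟨π, hπ, hπn⟩ := newton (ε := 12 * γ) (by linarith) hgood
  have hπm : ∀ g h, π (g * h) = π g * π h := by
    intro g h
    have := hπ.2 g h
    rw [norm_le_zero_iff, sub_eq_zero] at this
    exact this
  have hπg : ∀ g : S, ‖π g * g.1 - 1‖ ≤ 40 * γ := by
    intro g
    have h1 : π g * g.1 - 1 = (π g - g.1) * g.1 := by rw [sub_mul, hS.sq g.1 g.2]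
    have h2 : ‖π g - g.1‖ ≤ 40 * γ := by
      calc ‖π g - g.1‖ = ‖(π g - v g) - (g.1 - v g)‖ := by rw [sub_sub_sub_cancel_right]
        _ ≤ ‖π g - v g‖ + ‖g.1 - v g‖ := norm_sub_le _ _
        _ ≤ 40 * γ := by linarith [hπn g, hvn g]
    rw [h1]
    calc ‖(π g - g.1) * g.1‖ ≤ ‖π g - g.1‖ * ‖g.1‖ := norm_mul_le _ _
      _ ≤ 40 * γ * 1 := mul_le_mul h2 (hS.isU g.2).norm_le (norm_nonneg _) (by linarith)
      _ = 40 * γ := mul_one _
  have hbd : Bdd (fun g : S => π g * g.1) := ⟨1, fun g => ((hπ.1 g).2.mul (hS.isU g.2)).norm_le⟩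
  set s : H →L[ℂ] H := Av fun g : S => π g * g.1 with hs
  have hs1 : ‖s - 1‖ ≤ 40 * γ := by
    have h1 : s - 1 = Av fun g : S => π g * g.1 - 1 := by
      rw [av_sub hbd (Bdd.const _), av_const]
    rw [h1]
    exact norm_av_le hπg
  have hint : ∀ k : S, π k * s = s * k.1 := by
    intro k
    have h1 : π k * s = Av fun g : S => π k * (π g * g.1) := (av_mul_left _ hbd).symm
    have h2 : s * k.1 = Av fun g : S => π g * g.1 * k.1 := (av_mul_right _ hbd).symm
    have h3 := av_inv k (hbd.mulr k.1)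
    have h4 : (fun g : S => π (k * g) * (k * g : S).1 * k.1) = fun g : S => π k * (π g * g.1) := by
      funext g
      rw [hπm, hmul, hS.comm k.1 k.2 g.1 g.2]
      calc π k * π g * (g.1 * k.1) * k.1 = π k * (π g * (g.1 * (k.1 * k.1))) := by noncomm_ring
        _ = π k * (π g * g.1) := by rw [hS.sq k.1 k.2, mul_one]
    rw [h1, h2, ← h3, ← h4]
  have hss : ∀ k : S, star s * s * k.1 = k.1 * (star s * s) := by
    intro k
    have h1 := congrArg star (hint k)
    rw [star_mul, star_mul, hS.sa k.1 k.2] at h1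
    have h2 : star s * π k = k.1 * star s := by
      have h3 : star s = k.1 * star s * π k := by
        rw [← h1, mul_assoc, (hπ.1 k).2.1, mul_one]
      conv_rhs => rw [h3]
      rw [← mul_assoc, ← mul_assoc, hS.sq k.1 k.2, one_mul]
    calc star s * s * k.1 = star s * (s * k.1) := mul_assoc _ _ _
      _ = star s * (π k * s) := by rw [hint]
      _ = (star s * π k) * s := (mul_assoc _ _ _).symm
      _ = k.1 * (star s * s) := by rw [h2, mul_assoc]
  have hss1 : ‖star s * s - 1‖ ≤ 90 * γ := by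
    have h1 : star s * s - 1 = star (s - 1) * s + (s - 1) := by
      rw [star_sub, star_one, sub_mul, one_mul]
      abel
    have h2 : ‖s‖ ≤ 1 + 40 * γ := by
      calc ‖s‖ = ‖(s - 1) + 1‖ := by rw [sub_add_cancel]
        _ ≤ ‖s - 1‖ + ‖(1 : H →L[ℂ] H)‖ := norm_add_le _ _
        _ ≤ 1 + 40 * γ := by linarith [norm_one_le (H := H)]
    rw [h1]
    calc ‖star (s - 1) * s + (s - 1)‖ ≤ ‖star (s - 1)‖ * ‖s‖ + ‖s - 1‖ :=
          (norm_add_le _ _).trans (add_le_add (norm_mul_le _ _) le_rfl)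
      _ ≤ 40 * γ * (1 + 40 * γ) + 40 * γ := by
          rw [norm_star]
          exact add_le_add (mul_le_mul hs1 h2 (norm_nonneg _) (by linarith)) hs1
      _ ≤ 90 * γ := by nlinarith
  obtain ⟨u, c, hu, huc, hun, hcomm⟩ := exists_polar (x := s) (u := 1)
    ⟨by rw [star_one, one_mul], by rw [star_one, one_mul]⟩ (by linarith) (κ := 90 * γ)
    (by linarith) hss1
  refine ⟨u, hu, ?_, fun g hg => ?_, fun t ht1 ht2 => ?_⟩
  · calc ‖u - 1‖ = ‖(u - s) + (s - 1)‖ := by rw [sub_add_sub_cancel]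
      _ ≤ ‖u - s‖ + ‖s - 1‖ := norm_add_le _ _
      _ ≤ 130 * γ := by linarith
  · have h1 : u * g = π ⟨g, hg⟩ * u := by
      rw [huc, mul_assoc, hcomm g (hss ⟨g, hg⟩), ← mul_assoc, ← mul_assoc, hint ⟨g, hg⟩]
    rw [h1, mul_assoc, hu.2, mul_one]
    exact (hπ.1 _).1
  · have key : ∀ t : H →L[ℂ] H, (∀ x ∈ N, t * x = x * t) → (∀ g ∈ S, t * g = g * t) →
        t * s = s * t := by
      intro t ht1 ht2
      refine av_comm hbd fun g => ?_
      rw [← mul_assoc, ht1 _ (hπ.1 g).1, mul_assoc, ht2 g.1 g.2, mul_assoc]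
    have h1 := key t ht1 ht2
    have h2 : t * star s = star s * t := by
      have h3 := key (star t) (comm_star ht1) (fun g hg => by
        have h := congrArg star (ht2 g hg)
        rw [star_mul, star_mul, hS.sa g hg] at h
        exact h.symm)
      have h4 := congrArg star h3
      rw [star_mul, star_mul, star_star] at h4
      exact h4.symm
    have h3 : c * t = t * c := hcomm t (by
      rw [mul_assoc, ← h1, ← mul_assoc, ← h2, mul_assoc])
    rw [huc, ← mul_assoc, h1, mul_assoc, ← h3, mul_assoc]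

end Run7.h989.CC
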