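import Mathlib
import Pool.Agent.Run7.h989.CC.Pert
import Pool.Agent.H710R2.DP.Final

/-!
Maximal abelian subalgebras, averages over their symmetries, normal functionals.
-/

open scoped ComplexOrder InnerProductSpace ComplexConjugate Topology
open Finset Filter

noncomputable section

namespace Run7.h989.CC

open H710R2.DP H759R2.Kad

variable {H : Type} [NormedAddCommGroup H] [InnerProductSpace ℂ H] [CompleteSpace H]

/-- The von Neumann algebra of the elements of `M` that commute with `S`. -/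
def relc (M : VonNeumannAlgebra H) (S : Set (H →L[ℂ] H)) : VonNeumannAlgebra H where
  toStarSubalgebra := StarSubalgebra.centralizer ℂ
    (Set.centralizer (M : Set (H →L[ℂ] H)) ∪ S)
  centralizer_centralizer' := by
    change Set.centralizer (Set.centralizer (StarSubalgebra.centralizer ℂ
      (Set.centralizer (M : Set (H →L[ℂ] H)) ∪ S) : Set (H →L[ℂ] H))) = _
    rw [StarSubalgebra.coe_centralizer]
    rw [Set.centralizer_centralizer_centralizer]
    rfl

theorem mem_relc {M : VonNeumannAlgebra H} {S : Set (H →L[ℂ] H)}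
    (st : ∀ s ∈ S, star s ∈ S) {x : H →L[ℂ] H} :
    x ∈ relc M S ↔ x ∈ M ∧ ∀ s ∈ S, s * x = x * s := by
  have h1 : x ∈ relc M S ↔ x ∈ StarSubalgebra.centralizer ℂ
    (Set.centralizer (M : Set (H →L[ℂ] H)) ∪ S) := Iff.rfl
  rw [h1, StarSubalgebra.mem_centralizer_iff]
  constructor
  · intro h
    refine ⟨?_, fun s hs => ?_⟩
    · have : x ∈ Set.centralizer (Set.centralizer (M : Set (H →L[ℂ] H))) := by
        intro g hg
        exact (h g (Or.inl hg)).1
      rw [VonNeumannAlgebra.centralizer_centralizer] at this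
      exact this
    · exact (h s (Or.inr hs)).1
  · rintro ⟨h2, h3⟩ g hg
    rcases hg with hg | hg
    · refine ⟨?_, ?_⟩
      · exact (hg x h2).symm
      · have := hg (star x) (star_mem (S := VonNeumannAlgebra H) h2)
        have h4 := congrArg star this
        simpa [star_mul] using h4
    · exact ⟨h3 g hg, h3 _ (st g hg)⟩

/-- Maximal abelian subalgebras containing a given commuting set. -/
theorem exists_masa (M : VonNeumannAlgebra H) (D : Set (H →L[ℂ] H)) (hDM : ∀ d ∈ D, d ∈ M)
    (hDs : ∀ d ∈ D, star d = d) (hDc : ∀ d ∈ D, ∀ e ∈ D, d * e = e * d) :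
    ∃ A : VonNeumannAlgebra H, (∀ d ∈ D, d ∈ A) ∧ (∀ a ∈ A, a ∈ M) ∧
      (∀ a ∈ A, ∀ b ∈ A, a * b = b * a) ∧ ∀ x ∈ M, (∀ a ∈ A, x * a = a * x) → x ∈ A := by
  have hz := zorn_subset_nonempty {S : Set (H →L[ℂ] H) | (∀ s ∈ S, s ∈ M) ∧
    (∀ s ∈ S, star s ∈ S) ∧ ∀ s ∈ S, ∀ t ∈ S, s * t = t * s} ?_ D ?_
  · obtain ⟨S, hDS, hmax⟩ := hz
    obtain ⟨hSM, hSs, hSc⟩ := hmax.prop
    have hself : ∀ x ∈ M, star x = x → (∀ s ∈ S, x * s = s * x) → x ∈ S := by
      intro x hxM hxs hx
      have h1 : insert x S ⊆ S := by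
        refine hmax.le_of_ge ⟨?_, ?_, ?_⟩ (Set.subset_insert _ _)
        · rintro s (rfl | hs)
          · exact hxM
          · exact hSM s hs
        · rintro s (rfl | hs)
          · exact Or.inl hxs
          · exact Or.inr (hSs s hs)
        · rintro s (rfl | hs) t (rfl | ht)
          · rfl
          · exact hx t ht
          · exact (hx s hs).symm
          · exact hSc s hs t ht
      exact h1 (Set.mem_insert _ _)
    have hall : ∀ x ∈ M, (∀ s ∈ S, x * s = s * x) → x ∈ S := by
      intro x hxM hx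
      have hxs : ∀ s ∈ S, star x * s = s * star x := by
        intro s hs
        have h := congrArg star (hx (star s) (hSs s hs))
        rw [star_mul, star_mul, star_star] at h
        exact h.symm
      have h1 : x + star x ∈ S := by
        refine hself _ (add_mem hxM (star_mem hxM)) ?_ fun s hs => ?_
        · rw [star_add, star_star, add_comm]
        · rw [add_mul, mul_add, hx s hs, hxs s hs]
      have h2 : Complex.I • (x - star x) ∈ S := by
        refine hself _ ?_ ?_ fun s hs => ?_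
        · exact SMulMemClass.smul_mem (S := StarSubalgebra ℂ (H →L[ℂ] H))
            (s := M.toStarSubalgebra) _ (sub_mem hxM (star_mem hxM))
        · rw [star_smul, star_sub, star_star]
          simp only [RCLike.star_def, Complex.conj_I, neg_smul]
          rw [← smul_neg, neg_sub]
        · rw [smul_mul_assoc, mul_smul_comm, sub_mul, mul_sub, hx s hs, hxs s hs]
      have h3 := hSc _ h1 _ h2
      have h4 : x * star x = star x * x := by
        rw [mul_smul_comm, smul_mul_assoc] at h3
        have h5 := smul_right_injective (H →L[ℂ] H) Complex.I_ne_zero h3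
        have h6 : (x + star x) * (x - star x) - (x - star x) * (x + star x) =
            (2 : ℂ) • (star x * x - x * star x) := by
          rw [two_smul]
          noncomm_ring
        rw [h5, sub_self] at h6
        have h7 : star x * x - x * star x = 0 := by
          have := (smul_eq_zero.1 h6.symm)
          rcases this with h | h
          · norm_num at h
          · exact h
        exact (sub_eq_zero.1 h7).symm
      have h5 : insert x (insert (star x) S) ⊆ S := by
        refine hmax.le_of_ge ⟨?_, ?_, ?_⟩ ?_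
        · rintro s (rfl | rfl | hs)
          · exact hxM
          · exact star_mem hxM
          · exact hSM s hs
        · rintro s (rfl | rfl | hs)
          · exact Or.inr (Or.inl rfl)
          · exact Or.inl (star_star _)
          · exact Or.inr (Or.inr (hSs s hs))
        · rintro s (rfl | rfl | hs) t (rfl | rfl | ht)
          · rfl
          · exact h4
          · exact hx t ht
          · exact h4.symm
          · rfl
          · exact hxs t ht
          · exact (hx s hs).symm
          · exact (hxs s hs).symm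
          · exact hSc s hs t ht
        · exact fun s hs => Or.inr (Or.inr hs)
      exact h5 (Set.mem_insert _ _)
    have hmem : ∀ x, x ∈ relc M S ↔ x ∈ S := by
      intro x
      rw [mem_relc hSs]
      constructor
      · rintro ⟨h1, h2⟩
        exact hall x h1 fun s hs => (h2 s hs).symm
      · intro hx
        exact ⟨hSM x hx, fun s hs => hSc s hs x hx⟩
    refine ⟨relc M S, fun d hd => (hmem d).2 (hDS hd), fun a ha => hSM a ((hmem a).1 ha),
      fun a ha b hb => hSc a ((hmem a).1 ha) b ((hmem b).1 hb), fun x hx hx' => ?_⟩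
    exact (hmem x).2 (hall x hx fun s hs => hx' s ((hmem s).2 hs))
  · intro c hc hch hne
    refine ⟨⋃₀ c, ⟨?_, ?_, ?_⟩, fun s hs => Set.subset_sUnion_of_mem hs⟩
    · rintro s ⟨T, hT, hs⟩
      exact (hc hT).1 s hs
    · rintro s ⟨T, hT, hs⟩
      exact ⟨T, hT, (hc hT).2.1 s hs⟩
    · rintro s ⟨T, hT, hs⟩ t ⟨T', hT', ht⟩
      rcases hch.total hT hT' with h | h
      · exact (hc hT').2.2 s (h hs) t ht
      · exact (hc hT).2.2 s hs t (h ht)
  · exact ⟨hDM, fun d hd => by rw [hDs d hd]; exact hd, hDc⟩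

/-- The symmetries of `A`. -/
def syms (A : VonNeumannAlgebra H) : Set (H →L[ℂ] H) := {g | g ∈ A ∧ star g = g ∧ g * g = 1}

theorem isSymGrp_syms {A : VonNeumannAlgebra H} (hA : ∀ a ∈ A, ∀ b ∈ A, a * b = b * a) :
    IsSymGrp (syms A) where
  one := ⟨one_mem A, star_one _, one_mul 1⟩
  mul g hg h hh := by
    refine ⟨mul_mem hg.1 hh.1, ?_, ?_⟩
    · rw [star_mul, hg.2.1, hh.2.1, hA h hh.1 g hg.1]
    · calc g * h * (g * h) = g * (h * g) * h := by noncomm_ring
        _ = (g * g) * (h * h) := by rw [hA h hh.1 g hg.1]; noncomm_ring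
        _ = 1 := by rw [hg.2.2, hh.2.2, mul_one]
  sa g hg := hg.2.1
  sq g hg := hg.2.2
  comm g hg h hh := hA g hg.1 h hh.1

theorem fin_span : Z_span := dp_span fin_bin

/-- What commutes with the symmetries commutes with `A`. -/
theorem comm_of_syms {A : VonNeumannAlgebra H} (hA : ∀ a ∈ A, ∀ b ∈ A, a * b = b * a)
    {t : H →L[ℂ] H} (ht : ∀ g ∈ syms A, t * g = g * t) : ∀ a ∈ A, t * a = a * t := by
  intro a ha
  have hcen : IsCen A a := ⟨ha, fun b hb => hA a ha b hb⟩
  have hp : ∀ p, IsCP A p → t * p = p * t := by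
    intro p hp
    have h1 : (1 - (2 : ℂ) • p) ∈ syms A := by
      refine ⟨sub_mem (one_mem A) (SMulMemClass.smul_mem (S := StarSubalgebra ℂ (H →L[ℂ] H))
            (s := A.toStarSubalgebra) _ hp.2.1), ?_, ?_⟩
      · rw [star_sub, star_one, star_smul, hp.1.1]
        simp
      · have h2 : (1 - (2 : ℂ) • p) * (1 - (2 : ℂ) • p) = 1 - (4 : ℂ) • p + (4 : ℂ) • (p * p) := by
          rw [sub_mul, mul_sub, mul_sub, one_mul, mul_one, one_mul, smul_mul_assoc, mul_smul_comm,
            smul_smul]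
          have : (4 : ℂ) • p = (2 : ℂ) • p + (2 : ℂ) • p := by rw [← add_smul]; norm_num
          rw [this]
          norm_num
          abel
        rw [h2, hp.1.2, sub_add_cancel]
    have h3 := ht _ h1
    rw [mul_sub, sub_mul, mul_one, one_mul, mul_smul_comm, smul_mul_assoc, sub_right_inj] at h3
    exact smul_right_injective (H →L[ℂ] H) (two_ne_zero) h3
  have key : ∀ ε : ℝ, 0 < ε → ‖t * a - a * t‖ ≤ (2 * ‖t‖) * ε := by
    intro ε hε
    obtain ⟨n, c, p, hpc, hn⟩ := fin_span H A a hcen ε hε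
    have h1 : t * a - a * t = t * (a - ∑ k, c k • p k) - (a - ∑ k, c k • p k) * t := by
      have h2 : t * (∑ k, c k • p k) = (∑ k, c k • p k) * t := by
        rw [Finset.mul_sum, Finset.sum_mul]
        refine Finset.sum_congr rfl fun k _ => ?_
        rw [mul_smul_comm, smul_mul_assoc, hp _ (hpc k)]
      rw [mul_sub, sub_mul, h2]
      abel
    rw [h1]
    calc ‖t * (a - ∑ k, c k • p k) - (a - ∑ k, c k • p k) * t‖
        ≤ ‖t‖ * ‖a - ∑ k, c k • p k‖ + ‖a - ∑ k, c k • p k‖ * ‖t‖ :=
          (norm_sub_le _ _).trans (add_le_add (norm_mul_le _ _) (norm_mul_le _ _))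
      _ ≤ ‖t‖ * ε + ε * ‖t‖ := by gcongr
      _ = (2 * ‖t‖) * ε := by ring
  have h0 : ‖t * a - a * t‖ ≤ 0 := by
    refine le_of_forall_pos_le_add fun ε hε => ?_
    have h1 := key (ε / (2 * ‖t‖ + 1)) (by positivity)
    have h2 : (2 * ‖t‖) * (ε / (2 * ‖t‖ + 1)) ≤ ε := by
      rw [mul_div_assoc', div_le_iff₀ (by positivity)]
      nlinarith [norm_nonneg t]
    linarith
  exact sub_eq_zero.1 (norm_le_zero_iff.1 h0)

section Ex

variable {A : VonNeumannAlgebra H} (hA : ∀ a ∈ A, ∀ b ∈ A, a * b = b * a)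

/-- The average over the symmetries of `A`. -/
def Ex (y : H →L[ℂ] H) : H →L[ℂ] H :=
  letI := symG (isSymGrp_syms hA)
  Av fun g : syms A => g.1 * y * g.1

include hA in
theorem ex_bdd (y : H →L[ℂ] H) : Bdd (fun g : syms A => g.1 * y * g.1) := by
  refine ⟨‖y‖, fun g => ?_⟩
  have hg := ((isSymGrp_syms hA).isU g.2).norm_le
  calc ‖g.1 * y * g.1‖ ≤ ‖g.1‖ * ‖y‖ * ‖g.1‖ :=
        (norm_mul_le _ _).trans (mul_le_mul_of_nonneg_right (norm_mul_le _ _) (norm_nonneg _))
    _ ≤ 1 * ‖y‖ * 1 := by gcongr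
    _ = ‖y‖ := by ring

theorem ex_norm (y : H →L[ℂ] H) : ‖Ex hA y‖ ≤ ‖y‖ := by
  let _ := symG (isSymGrp_syms hA)
  refine norm_av_le fun g => ?_
  have hg := ((isSymGrp_syms hA).isU g.2).norm_le
  calc ‖g.1 * y * g.1‖ ≤ ‖g.1‖ * ‖y‖ * ‖g.1‖ :=
        (norm_mul_le _ _).trans (mul_le_mul_of_nonneg_right (norm_mul_le _ _) (norm_nonneg _))
    _ ≤ 1 * ‖y‖ * 1 := by gcongr
    _ = ‖y‖ := by ring

theorem ex_comm (y : H →L[ℂ] H) : ∀ a ∈ A, Ex hA y * a = a * Ex hA y := by
  letI := symG (isSymGrp_syms hA)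
  refine comm_of_syms hA fun k hk => ?_
  have hb := ex_bdd hA y
  have h1 : Ex hA y * k = Av fun g : syms A => g.1 * y * g.1 * k := (av_mul_right _ hb).symm
  have h2 : k * Ex hA y = Av fun g : syms A => k * (g.1 * y * g.1) := (av_mul_left _ hb).symm
  have h3 := av_inv (⟨k, hk⟩ : syms A) (hb.mulr k)
  have h4 : (fun g : syms A => ((⟨k, hk⟩ * g : syms A)).1 * y * ((⟨k, hk⟩ * g : syms A)).1 * k) =
      fun g : syms A => k * (g.1 * y * g.1) := by
    funext g
    change k * g.1 * y * (k * g.1) * k = _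
    rw [hA k hk.1 g.1 g.2.1]
    calc g.1 * k * y * (g.1 * k) * k = g.1 * k * y * (g.1 * (k * k)) := by noncomm_ring
      _ = k * (g.1 * y * g.1) := by
          rw [hk.2.2, mul_one, hA g.1 g.2.1 k hk.1]
          noncomm_ring
  rw [h1, h2, ← h3, ← h4]

theorem ex_fix {y : H →L[ℂ] H} (hy : ∀ a ∈ A, y * a = a * y) : Ex hA y = y := by
  letI := symG (isSymGrp_syms hA)
  have h1 : (fun g : syms A => g.1 * y * g.1) = fun _ => y := by
    funext g
    rw [← hy g.1 g.2.1, mul_assoc, g.2.2.2, mul_one]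
  have : Ex hA y = Av fun g : syms A => g.1 * y * g.1 := rfl
  rw [this, h1, av_const]

theorem ex_mem {N : VonNeumannAlgebra H} (hAN : ∀ a ∈ A, a ∈ N) {y : H →L[ℂ] H} (hy : y ∈ N) :
    Ex hA y ∈ N := by
  letI := symG (isSymGrp_syms hA)
  exact av_mem (ex_bdd hA y) fun g => mul_mem (mul_mem (hAN _ g.2.1) hy) (hAN _ g.2.1)

theorem ex_mul {y d : H →L[ℂ] H} (hd : ∀ a ∈ A, d * a = a * d) :
    Ex hA (y * d) = Ex hA y * d := by
  letI := symG (isSymGrp_syms hA)
  have h1 : (fun g : syms A => g.1 * (y * d) * g.1) = fun g : syms A => g.1 * y * g.1 * d := by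
    funext g
    calc g.1 * (y * d) * g.1 = g.1 * y * (d * g.1) := by noncomm_ring
      _ = g.1 * y * g.1 * d := by rw [hd g.1 g.2.1]; noncomm_ring
  have h2 : Ex hA (y * d) = Av fun g : syms A => g.1 * (y * d) * g.1 := rfl
  rw [h2, h1]
  exact av_mul_right _ (ex_bdd hA y)

theorem ex_sub (y z : H →L[ℂ] H) : Ex hA (y - z) = Ex hA y - Ex hA z := by
  letI := symG (isSymGrp_syms hA)
  have h1 : (fun g : syms A => g.1 * (y - z) * g.1) =
      fun g : syms A => g.1 * y * g.1 - g.1 * z * g.1 := by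
    funext g
    rw [mul_sub, sub_mul]
  have h2 : Ex hA (y - z) = Av fun g : syms A => g.1 * (y - z) * g.1 := rfl
  rw [h2, h1]
  exact av_sub (ex_bdd hA y) (ex_bdd hA z)

end Ex

end Run7.h989.CC
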