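import Mathlib
import Pool.Agent.Run7.h989.CC.Masa

/-!
Normal traces, comparison of projections and equality of the traces of close factors.
-/

open scoped ComplexOrder InnerProductSpace ComplexConjugate Topology
open Finset Filter

noncomputable section

namespace Run7.h989.CC

open H710R2.DP H759R2.Kad

variable {H : Type} [NormedAddCommGroup H] [InnerProductSpace ℂ H] [CompleteSpace H]

/-- The normal functional of a square summable sequence of vectors. -/
def om (ζ : ℕ → H) (x : H →L[ℂ] H) : ℂ := ∑' k, ⟪ζ k, x (ζ k)⟫_ℂ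

section om

variable {ζ : ℕ → H} (hζ : Summable fun k => ‖ζ k‖ ^ 2)

theorem om_bound (ζ : ℕ → H) (x : H →L[ℂ] H) (k : ℕ) :
    ‖⟪ζ k, x (ζ k)⟫_ℂ‖ ≤ ‖x‖ * ‖ζ k‖ ^ 2 := by
  calc ‖⟪ζ k, x (ζ k)⟫_ℂ‖ ≤ ‖ζ k‖ * ‖x (ζ k)‖ := norm_inner_le_norm _ _
    _ ≤ ‖ζ k‖ * (‖x‖ * ‖ζ k‖) := by
        gcongr
        exact x.le_opNorm _
    _ = ‖x‖ * ‖ζ k‖ ^ 2 := by ring

include hζ

theorem om_summable (x : H →L[ℂ] H) : Summable fun k => ⟪ζ k, x (ζ k)⟫_ℂ :=
  Summable.of_norm_bounded (hζ.mul_left ‖x‖) fun k => om_bound ζ x k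

theorem om_add (x y : H →L[ℂ] H) : om ζ (x + y) = om ζ x + om ζ y := by
  rw [om, om, om, ← (om_summable hζ x).tsum_add (om_summable hζ y)]
  simp [inner_add_right]

theorem om_sub (x y : H →L[ℂ] H) : om ζ (x - y) = om ζ x - om ζ y := by
  rw [om, om, om, ← (om_summable hζ x).tsum_sub (om_summable hζ y)]
  simp [inner_sub_right]

omit hζ in
theorem om_smul (c : ℂ) (x : H →L[ℂ] H) : om ζ (c • x) = c * om ζ x := by
  rw [om, om, ← tsum_mul_left]
  simp [inner_smul_right]

theorem om_sum {ι : Type*} (s : Finset ι) (f : ι → H →L[ℂ] H) :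
    om ζ (∑ i ∈ s, f i) = ∑ i ∈ s, om ζ (f i) := by
  classical
  induction s using Finset.induction_on with
  | empty => simp [om]
  | insert i s hi ih => rw [Finset.sum_insert hi, Finset.sum_insert hi, om_add hζ, ih]

theorem om_norm_le (x : H →L[ℂ] H) : ‖om ζ x‖ ≤ ‖x‖ * ∑' k, ‖ζ k‖ ^ 2 := by
  rw [← tsum_mul_left]
  exact tsum_of_norm_bounded (hζ.mul_left ‖x‖).hasSum fun k => om_bound ζ x k

theorem om_star_mul (x : H →L[ℂ] H) :
    om ζ (star x * x) = ((∑' k, ‖x (ζ k)‖ ^ 2 : ℝ) : ℂ) := by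
  rw [om, Complex.ofReal_tsum]
  refine tsum_congr fun k => ?_
  rw [mul_apply_eq_comp, ContinuousLinearMap.star_eq_adjoint,
    ContinuousLinearMap.adjoint_inner_right, inner_self_eq_norm_sq_to_K]
  norm_cast

theorem om_nonneg (x : H →L[ℂ] H) : 0 ≤ (om ζ (star x * x)).re := by
  rw [om_star_mul hζ, Complex.ofReal_re]
  exact tsum_nonneg fun k => by positivity

theorem om_pr_nonneg {p : H →L[ℂ] H} (hp : IsPr p) : 0 ≤ (om ζ p).re := by
  have h := om_nonneg hζ p
  rwa [hp.1, hp.2] at h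

theorem om_pr_im {p : H →L[ℂ] H} (hp : IsPr p) : (om ζ p).im = 0 := by
  have h := om_star_mul hζ p
  rw [hp.1, hp.2] at h
  rw [h, Complex.ofReal_im]

theorem om_av {G : Type} [SymG G] {f : G → (H →L[ℂ] H)} (hf : Bdd f) {c : ℂ}
    (h : ∀ g, om ζ (f g) = c) : om ζ (Av f) = c := by
  have h1 : ∀ s, om ζ (avs f s) = c := by
    intro s
    have hc : ((cl s).card : ℂ) ≠ 0 := by exact_mod_cast (card_cl_pos s).ne'
    rw [avs, om_smul, om_sum hζ, Finset.sum_congr rfl fun g _ => h g, Finset.sum_const,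
      nsmul_eq_mul, ← mul_assoc, inv_mul_cancel₀ hc, one_mul]
  obtain ⟨d, hd⟩ := hf
  have h2 : Tendsto (fun s => ∑' k, ⟪ζ k, avs f s (ζ k)⟫_ℂ) (uf G)
      (𝓝 (∑' k, ⟪ζ k, Av f (ζ k)⟫_ℂ)) := by
    refine tendsto_tsum_of_dominated_convergence (bound := fun k => d * ‖ζ k‖ ^ 2)
      (hζ.mul_left d) (fun k => av_tendsto ⟨d, hd⟩ _ _) (Eventually.of_forall fun s k => ?_)
    exact (om_bound ζ _ k).trans (mul_le_mul_of_nonneg_right (norm_avs_le hd s) (by positivity))
  have h3 : (fun s => ∑' k, ⟪ζ k, avs f s (ζ k)⟫_ℂ) = fun _ : Finset G => c := funext h1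
  rw [h3] at h2
  exact (tendsto_nhds_unique h2 tendsto_const_nhds)

end om

/-- A faithful normal tracial state of `M`. -/
structure NTr (M : VonNeumannAlgebra H) (ζ : ℕ → H) : Prop where
  sum : Summable fun k => ‖ζ k‖ ^ 2
  one : om ζ 1 = 1
  comm : ∀ x ∈ M, ∀ y ∈ M, om ζ (x * y) = om ζ (y * x)
  faithful : ∀ x ∈ M, om ζ (star x * x) = 0 → x = 0

section NTr

variable {M : VonNeumannAlgebra H} {ζ : ℕ → H} (h : NTr M ζ)
include h

theorem NTr.le_one {p : H →L[ℂ] H} (hp : IsPr p) : (om ζ p).re ≤ 1 := by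
  have h1 : IsPr (1 - p) := by
    refine ⟨by rw [star_sub, star_one, hp.1], ?_⟩
    rw [sub_mul, mul_sub, mul_sub, hp.2]
    noncomm_ring
  have h2 := om_pr_nonneg h.sum h1
  rw [om_sub h.sum, h.one, Complex.sub_re, Complex.one_re] at h2
  linarith

theorem NTr.equiv {v : H →L[ℂ] H} (hv : v ∈ M) : om ζ (v * star v) = om ζ (star v * v) :=
  h.comm _ hv _ (star_mem hv)

/-- Subequivalent projections have smaller trace. -/
theorem NTr.le_of_sub {p q w : H →L[ℂ] H} (hw : w ∈ M) (hq : IsPr q)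
    (hwp : star w * w = p) (hp : IsPr p) (hqw : q * w = w) : (om ζ p).re ≤ (om ζ q).re := by
  have hwp' : w * p = w := by
    have h1 : star (w * p - w) * (w * p - w) = 0 := by
      have h2 : star (w * p - w) * (w * p - w) = p * (star w * w) * p - p * (star w * w)
          - (star w * w) * p + star w * w := by
        rw [star_sub, star_mul, hp.1]
        noncomm_ring
      rw [h2, hwp, hp.2, hp.2]
      noncomm_ring
    exact sub_eq_zero.1 ((CStarRing.star_mul_self_eq_zero_iff _).1 h1)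
  have h1 : IsPr (q - w * star w) := by
    have h3 : q * (w * star w) = w * star w := by rw [← mul_assoc, hqw]
    have h4 : (w * star w) * q = w * star w := by
      have := congrArg star h3
      rwa [star_mul, star_mul, star_star, hq.1] at this
    have h5 : (w * star w) * (w * star w) = w * star w := by
      calc (w * star w) * (w * star w) = w * (star w * w) * star w := by noncomm_ring
        _ = w * star w := by rw [hwp, hwp']
    refine ⟨by rw [star_sub, star_mul, star_star, hq.1], ?_⟩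
    rw [sub_mul, mul_sub, mul_sub, hq.2, h3, h4, h5]
    abel
  have h2 := om_pr_nonneg h.sum h1
  rw [om_sub h.sum, h.equiv hw, hwp, Complex.sub_re] at h2
  linarith

end NTr

/-- Comparability of projections in a factor with a trace. -/
theorem comp_of_le {M : VonNeumannAlgebra H} {ζ : ℕ → H} (h : NTr M ζ) (hf : IsFac M)
    {p q : H →L[ℂ] H} (hp : p ∈ M) (hq : q ∈ M) (hpp : IsPr p) (hqq : IsPr q)
    (hle : (om ζ p).re ≤ (om ζ q).re) : ∃ v ∈ M, star v * v = p ∧ q * v = v := by
  have hcomp : F_comp.{0} := prove5_comp prove5_join prove5_polar prove5_chain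
  obtain ⟨v, hv, h1 | ⟨h1, h2⟩⟩ := hcomp H M hf p hp q hq hpp hqq
  · exact ⟨v, hv, h1⟩
  · have hvv : IsPr (star v * v) := by
      refine ⟨by rw [star_mul, star_star], ?_⟩
      have h3 : q * v = v := by
        have h4 : star (q * v - v) * (q * v - v) = star v * (q * q) * v - star v * q * v
            - star v * q * v + star v * v := by
          rw [star_sub, star_mul, hqq.1]
          noncomm_ring
        have h5 : star v * q * v = star v * (v * star v) * v := by rw [h1]
        -- use `(v v*)² = v v*`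
        have h6 : (q * v - v) * star (q * v - v) = 0 := by
          rw [star_sub, star_mul, hqq.1]
          have : (q * v - v) * (star v * q - star v) = q * (v * star v) * q - q * (v * star v)
              - (v * star v) * q + v * star v := by noncomm_ring
          rw [this, h1, hqq.2, hqq.2]
          noncomm_ring
        exact sub_eq_zero.1 ((CStarRing.mul_star_self_eq_zero_iff _).1 h6)
      calc star v * v * (star v * v) = star v * ((v * star v) * v) := by noncomm_ring
        _ = star v * v := by rw [h1, h3]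
    have hqv : q * v = v := by
      have h6 : (q * v - v) * star (q * v - v) = 0 := by
        rw [star_sub, star_mul, hqq.1]
        have : (q * v - v) * (star v * q - star v) = q * (v * star v) * q - q * (v * star v)
            - (v * star v) * q + v * star v := by noncomm_ring
        rw [this, h1, hqq.2, hqq.2]
        noncomm_ring
      exact sub_eq_zero.1 ((CStarRing.mul_star_self_eq_zero_iff _).1 h6)
    have h3 : star v * v * p = star v * v := by rw [mul_assoc, h2]
    have h4 : p * (star v * v) = star v * v := by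
      have := congrArg star h3
      rwa [star_mul, star_mul, star_star, hpp.1] at this
    have h5 : IsPr (p - star v * v) := by
      refine ⟨by rw [star_sub, star_mul, star_star, hpp.1], ?_⟩
      rw [sub_mul, mul_sub, mul_sub, hpp.2, h3, h4, hvv.2]
      abel
    have h6 : om ζ (p - star v * v) = 0 := by
      have h7 := om_pr_nonneg h.sum h5
      have h8 : (om ζ (p - star v * v)).re ≤ 0 := by
        rw [om_sub h.sum, ← h.equiv hv, h1, Complex.sub_re]
        linarith
      apply Complex.ext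
      · exact le_antisymm h8 h7
      · exact om_pr_im h.sum h5
    have h7 : p - star v * v = 0 := by
      refine h.faithful _ (sub_mem hp (mul_mem (star_mem hv) hv)) ?_
      rw [h5.1, h5.2, h6]
    exact ⟨v, hv, (sub_eq_zero.1 h7).symm, hqv⟩

theorem fin_half : V_half := dp_Vhalf (dp_Vab dp_Vsupp prove5_polar fin_bin) prove5_chain

/-- No abelian projections. -/
theorem noAb {M : VonNeumannAlgebra H} (hf : IsFac M)
    (hmin : ∀ p ∈ M, IsPr p → p ≠ 0 → ∃ q ∈ M, IsPr q ∧ p * q = q ∧ q ≠ 0 ∧ q ≠ p)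
    (r : H →L[ℂ] H) : NoAb M r := by
  intro e he hee _ hab
  by_contra hne
  obtain ⟨q, hq, hqq, heq, hq0, hqe⟩ := hmin e he hee hne
  have hqe' : q * e = q := by
    have := congrArg star heq
    rwa [star_mul, hee.1, hqq.1] at this
  obtain ⟨z, ⟨hzM, hzc⟩, hz⟩ := hab q hq (1 / 4) (by norm_num)
  obtain ⟨c, rfl⟩ := hf z hzM hzc
  rw [heq, hqe', smul_mul_assoc, one_mul] at hz
  have h1 : ‖(1 - c : ℂ)‖ ≤ 1 / 4 := by
    have h2 : (q - c • e) * q = (1 - c) • q := by
      rw [sub_mul, smul_mul_assoc, hqq.2, heq, sub_smul, one_smul]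
    have h3 : ‖(1 - c : ℂ)‖ * ‖q‖ ≤ 1 / 4 * ‖q‖ := by
      rw [← norm_smul, ← h2]
      exact (norm_mul_le _ _).trans (mul_le_mul_of_nonneg_right hz (norm_nonneg _))
    exact le_of_mul_le_mul_right h3 (norm_pos_iff.2 hq0)
  have h2 : ‖c‖ ≤ 1 / 4 := by
    have h2 : (q - c • e) * (e - q) = -(c • (e - q)) := by
      rw [sub_mul, mul_sub, hqq.2, hqe', sub_self, smul_mul_assoc, mul_sub, hee.2, heq, zero_sub]
    have hne' : e - q ≠ 0 := fun h => hqe (sub_eq_zero.1 h).symm
    have h3 : ‖c‖ * ‖e - q‖ ≤ 1 / 4 * ‖e - q‖ := by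
      rw [← norm_smul, ← norm_neg, ← h2]
      exact (norm_mul_le _ _).trans (mul_le_mul_of_nonneg_right hz (norm_nonneg _))
    exact le_of_mul_le_mul_right h3 (norm_pos_iff.2 hne')
  have h3 : (1 : ℝ) ≤ 1 / 4 + 1 / 4 := by
    calc (1 : ℝ) = ‖(1 - c : ℂ) + c‖ := by rw [sub_add_cancel, norm_one]
      _ ≤ ‖(1 - c : ℂ)‖ + ‖c‖ := norm_add_le _ _
      _ ≤ 1 / 4 + 1 / 4 := add_le_add h1 h2
  norm_num at h3

/-- Splitting of a projection. -/
theorem split {M : VonNeumannAlgebra H} {q : H →L[ℂ] H} (hq : q ∈ M) (hqq : IsPr q)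
    (hab : NoAb M q) : ∃ v ∈ M, v * v = 0 ∧ star v * v + v * star v = q ∧
      IsPr (star v * v) ∧ v * (star v * v) = v ∧ q * v = v := by
  obtain ⟨v, hv, h1, h2⟩ := fin_half H M q hq hqq hab
  have hsv : star v * star v = 0 := by rw [← star_mul, h1, star_zero]
  set P := star v * v with hP
  set Q := v * star v with hQ
  have hPQ : P * Q = 0 := by
    calc P * Q = star v * (v * v) * star v := by rw [hP, hQ]; noncomm_ring
      _ = 0 := by rw [h1]; simp
  have hQP : Q * P = 0 := by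
    calc Q * P = v * (star v * star v) * v := by rw [hP, hQ]; noncomm_ring
      _ = 0 := by rw [hsv]; simp
  have hPs : star P = P := by rw [hP, star_mul, star_star]
  have h3 : P * P + Q * Q = P + Q := by
    have h4 := hqq.2
    rw [← h2, add_mul, mul_add, mul_add, hPQ, hQP] at h4
    simpa using h4
  have h4 : P * P * P = P * P := by
    have h5 := congrArg (fun x => P * x) h3
    simp only [mul_add] at h5
    have h6 : P * (Q * Q) = 0 := by rw [← mul_assoc, hPQ, zero_mul]
    rw [h6, hPQ, add_zero, add_zero, ← mul_assoc] at h5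
    exact h5
  have h5 : P * P = P := by
    have h6 : star (P * P - P) * (P * P - P) = 0 := by
      rw [star_sub, star_mul, hPs]
      have : (P * P - P) * (P * P - P) = P * P * P * P - P * P * P - (P * P * P - P * P) := by
        noncomm_ring
      rw [this, h4, h4]
      simp
    exact sub_eq_zero.1 ((CStarRing.star_mul_self_eq_zero_iff _).1 h6)
  have hPP : IsPr P := ⟨hPs, h5⟩
  have hvP : v * P = v := by
    have h6 : star (v * P - v) * (v * P - v) = 0 := by
      have h7 : star (v * P - v) * (v * P - v) = P * (star v * v) * P - P * (star v * v)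
          - (star v * v) * P + star v * v := by
        rw [star_sub, star_mul, hPs]
        noncomm_ring
      rw [h7, ← hP, h5, h5]
      simp
    exact sub_eq_zero.1 ((CStarRing.star_mul_self_eq_zero_iff _).1 h6)
  refine ⟨v, hv, h1, h2, hPP, hvP, ?_⟩
  rw [← h2, add_mul]
  have h6 : P * v = 0 := by rw [hP, mul_assoc, h1, mul_zero]
  have h7 : Q * v = v := by
    calc Q * v = v * (star v * v) := by rw [hQ]; noncomm_ring
      _ = v := by rw [← hP, hvP]
  rw [h6, h7, zero_add]

/-- A partition of the unit of `M` into `2 ^ k` equivalent projections. -/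
structure Lvl (M : VonNeumannAlgebra H) (k : ℕ) where
  P : H →L[ℂ] H
  W : ℕ → (H →L[ℂ] H)
  PM : P ∈ M
  PP : IsPr P
  WM : ∀ l < 2 ^ k, W l ∈ M
  WW : ∀ l < 2 ^ k, star (W l) * W l = P
  orth : ∀ l < 2 ^ k, ∀ m < 2 ^ k, l ≠ m → star (W l) * W m = 0
  sum : ∑ l ∈ range (2 ^ k), W l * star (W l) = 1

/-- The projections. -/
def Lvl.D {M : VonNeumannAlgebra H} {k : ℕ} (L : Lvl M k) (l : ℕ) : H →L[ℂ] H :=
  L.W l * star (L.W l)

theorem Lvl.WP {M : VonNeumannAlgebra H} {k : ℕ} (L : Lvl M k) {l : ℕ} (hl : l < 2 ^ k) :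
    L.W l * L.P = L.W l := by
  have h1 : star (L.W l * L.P - L.W l) * (L.W l * L.P - L.W l) = 0 := by
    have h2 : star (L.W l * L.P - L.W l) * (L.W l * L.P - L.W l) =
        L.P * (star (L.W l) * L.W l) * L.P - L.P * (star (L.W l) * L.W l)
        - (star (L.W l) * L.W l) * L.P + star (L.W l) * L.W l := by
      rw [star_sub, star_mul, L.PP.1]
      noncomm_ring
    rw [h2, L.WW l hl, L.PP.2, L.PP.2]
    noncomm_ring
  exact sub_eq_zero.1 ((CStarRing.star_mul_self_eq_zero_iff _).1 h1)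

theorem sum_range_two_mul' {β : Type*} [AddCommMonoid β] (n : ℕ) (f : ℕ → β) :
    ∑ l ∈ range (2 * n), f l = ∑ l ∈ range n, (f (2 * l) + f (2 * l + 1)) := by
  induction n with
  | zero => simp
  | succ n ih => rw [Finset.sum_range_succ, ← ih, mul_add, Finset.sum_range_succ,
      Finset.sum_range_succ, add_assoc]

theorem Lvl.next {M : VonNeumannAlgebra H} (hab : ∀ r, NoAb M r) {k : ℕ} (L : Lvl M k) :
    ∃ L' : Lvl M (k + 1), ∀ l < 2 ^ k, L.D l = L'.D (2 * l) + L'.D (2 * l + 1) := by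
  obtain ⟨v, hv, hvv, hsum, hPP, hvP, hPv⟩ := split L.PM L.PP (hab L.P)
  set P' := star v * v with hP'
  have hP'M : P' ∈ M := mul_mem (star_mem hv) hv
  have hPP' : L.P * P' = P' := by
    rw [← hsum, add_mul, hPP.2]
    have : v * star v * P' = 0 := by
      have hsv : star v * star v = 0 := by rw [← star_mul, hvv, star_zero]
      calc v * star v * P' = v * (star v * star v) * v := by rw [hP']; noncomm_ring
        _ = 0 := by rw [hsv]; simp
    rw [this, add_zero]
  have hP'v : P' * v = 0 := by rw [hP', mul_assoc, hvv, mul_zero]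
  have hsvP' : star v * P' = 0 := by
    have := congrArg star hP'v
    rwa [star_mul, hPP.1, star_zero] at this
  have hdiv : ∀ l, l < 2 ^ (k + 1) → l / 2 < 2 ^ k := by
    intro l hl
    rw [pow_succ] at hl
    omega
  let W' : ℕ → (H →L[ℂ] H) := fun l => L.W (l / 2) * (if l % 2 = 0 then P' else v)
  have hWe : ∀ l, W' (2 * l) = L.W l * P' := by
    intro l
    simp only [W']
    rw [show 2 * l / 2 = l by omega, show 2 * l % 2 = 0 by omega, if_pos rfl]
  have hWo : ∀ l, W' (2 * l + 1) = L.W l * v := by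
    intro l
    simp only [W']
    rw [show (2 * l + 1) / 2 = l by omega, show (2 * l + 1) % 2 = 1 by omega, if_neg (by norm_num)]
  have hcase : ∀ l, l < 2 ^ (k + 1) → ∃ m < 2 ^ k, l = 2 * m ∨ l = 2 * m + 1 := by
    intro l hl
    exact ⟨l / 2, hdiv l hl, by omega⟩
  have hD : ∀ l < 2 ^ k, L.W l * star (L.W l) =
      W' (2 * l) * star (W' (2 * l)) + W' (2 * l + 1) * star (W' (2 * l + 1)) := by
    intro l hl
    rw [hWe, hWo, star_mul (L.W l) P', star_mul (L.W l) v, hPP.1]
    calc L.W l * star (L.W l) = L.W l * L.P * star (L.W l) := by rw [L.WP hl]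
      _ = L.W l * (P' + v * star v) * star (L.W l) := by rw [hsum]
      _ = L.W l * (P' * P' + v * star v) * star (L.W l) := by rw [hPP.2]
      _ = _ := by noncomm_ring
  refine ⟨⟨P', W', hP'M, hPP, ?_, ?_, ?_, ?_⟩, hD⟩
  · intro l hl
    refine mul_mem (L.WM _ (hdiv l hl)) ?_
    split
    · exact hP'M
    · exact hv
  · intro l hl
    obtain ⟨m, hm, rfl | rfl⟩ := hcase l hl
    · rw [hWe, star_mul, hPP.1]
      calc P' * star (L.W m) * (L.W m * P') = P' * (star (L.W m) * L.W m) * P' := by noncomm_ring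
        _ = P' := by rw [L.WW m hm, mul_assoc, hPP', hPP.2]
    · rw [hWo, star_mul]
      calc star v * star (L.W m) * (L.W m * v) = star v * (star (L.W m) * L.W m) * v := by
            noncomm_ring
        _ = P' := by rw [L.WW m hm, mul_assoc, hPv]
  · intro l hl l' hl' hne
    obtain ⟨m, hm, rfl | rfl⟩ := hcase l hl <;> obtain ⟨m', hm', rfl | rfl⟩ := hcase l' hl'
    · rw [hWe, hWe, star_mul]
      calc star P' * star (L.W m) * (L.W m' * P') = star P' * (star (L.W m) * L.W m') * P' := by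
            noncomm_ring
        _ = 0 := by rw [L.orth m hm m' hm' (by omega)]; simp
    · rw [hWe, hWo, star_mul]
      rcases eq_or_ne m m' with rfl | hmm
      · calc star P' * star (L.W m) * (L.W m * v) = star P' * (star (L.W m) * L.W m) * v := by
              noncomm_ring
          _ = 0 := by rw [L.WW m hm, mul_assoc, hPv, hPP.1, hP'v]
      · calc star P' * star (L.W m) * (L.W m' * v) = star P' * (star (L.W m) * L.W m') * v := by
              noncomm_ring
          _ = 0 := by rw [L.orth m hm m' hm' hmm]; simp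
    · rw [hWe, hWo, star_mul]
      rcases eq_or_ne m m' with rfl | hmm
      · calc star v * star (L.W m) * (L.W m * P') = star v * (star (L.W m) * L.W m) * P' := by
              noncomm_ring
          _ = 0 := by rw [L.WW m hm, mul_assoc, hPP', hsvP']
      · calc star v * star (L.W m) * (L.W m' * P') = star v * (star (L.W m) * L.W m') * P' := by
              noncomm_ring
          _ = 0 := by rw [L.orth m hm m' hm' hmm]; simp
    · rw [hWo, hWo, star_mul]
      calc star v * star (L.W m) * (L.W m' * v) = star v * (star (L.W m) * L.W m') * v := by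
            noncomm_ring
        _ = 0 := by rw [L.orth m hm m' hm' (by omega)]; simp
  · rw [pow_succ, mul_comm, sum_range_two_mul', ← L.sum]
    refine Finset.sum_congr rfl fun l hl => ?_
    exact (hD l (Finset.mem_range.1 hl)).symm

/-- The first level. -/
def lvl0 (M : VonNeumannAlgebra H) : Lvl M 0 where
  P := 1
  W _ := 1
  PM := one_mem M
  PP := ⟨star_one _, one_mul 1⟩
  WM _ _ := one_mem M
  WW _ _ := by simp
  orth l hl m hm hne := by omega
  sum := by simp

/-- All levels. -/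
def lvls {M : VonNeumannAlgebra H} (hab : ∀ r, NoAb M r) : (k : ℕ) → Lvl M k
  | 0 => lvl0 M
  | k + 1 => (lvls hab k).next hab |>.choose

theorem lvls_next {M : VonNeumannAlgebra H} (hab : ∀ r, NoAb M r) (k : ℕ) {l : ℕ}
    (hl : l < 2 ^ k) : (lvls hab k).D l =
      (lvls hab (k + 1)).D (2 * l) + (lvls hab (k + 1)).D (2 * l + 1) :=
  ((lvls hab k).next hab).choose_spec l hl

section D

variable {M : VonNeumannAlgebra H} {k : ℕ} (L : Lvl M k)

theorem Lvl.D_mem {l : ℕ} (hl : l < 2 ^ k) : L.D l ∈ M := mul_mem (L.WM l hl) (star_mem (L.WM l hl))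

theorem Lvl.D_star (l : ℕ) : star (L.D l) = L.D l := by rw [Lvl.D, star_mul, star_star]

theorem Lvl.D_mul {l m : ℕ} (hl : l < 2 ^ k) (hm : m < 2 ^ k) :
    L.D l * L.D m = if l = m then L.D l else 0 := by
  rw [Lvl.D, Lvl.D]
  split_ifs with h
  · subst h
    calc L.W l * star (L.W l) * (L.W l * star (L.W l)) = L.W l * (star (L.W l) * L.W l) *
          star (L.W l) := by noncomm_ring
      _ = L.W l * star (L.W l) := by rw [L.WW l hl, L.WP hl]
  · calc L.W l * star (L.W l) * (L.W m * star (L.W m)) = L.W l * (star (L.W l) * L.W m) *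
          star (L.W m) := by noncomm_ring
      _ = 0 := by rw [L.orth l hl m hm h]; simp

theorem Lvl.D_pr {l : ℕ} (hl : l < 2 ^ k) : IsPr (L.D l) :=
  ⟨L.D_star l, by rw [L.D_mul hl hl, if_pos rfl]⟩

theorem Lvl.S_pr {j : ℕ} (hj : j ≤ 2 ^ k) : IsPr (∑ l ∈ range j, L.D l) := by
  refine ⟨by rw [star_sum]; exact Finset.sum_congr rfl fun l _ => L.D_star l, ?_⟩
  rw [Finset.sum_mul]
  refine Finset.sum_congr rfl fun l hl => ?_
  have hl' := Finset.mem_range.1 hl
  rw [Finset.mul_sum, Finset.sum_eq_single l]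
  · rw [L.D_mul (by omega) (by omega), if_pos rfl]
  · intro m hm hne
    have hm' := Finset.mem_range.1 hm
    rw [L.D_mul (by omega) (by omega), if_neg hne.symm]
  · intro h
    exact absurd hl h

end D

theorem lvls_expand {M : VonNeumannAlgebra H} (hab : ∀ r, NoAb M r) (k : ℕ) {l : ℕ}
    (hl : l < 2 ^ k) (j : ℕ) : ∃ T : Finset ℕ, (∀ m ∈ T, m < 2 ^ (k + j)) ∧
      (lvls hab k).D l = ∑ m ∈ T, (lvls hab (k + j)).D m := by
  induction j with
  | zero => exact ⟨{l}, by simpa using hl, by simp⟩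
  | succ j ih =>
    obtain ⟨T, hT, hT'⟩ := ih
    refine ⟨T.image (fun m => 2 * m) ∪ T.image (fun m => 2 * m + 1), ?_, ?_⟩
    · intro m hm
      rw [Finset.mem_union, Finset.mem_image, Finset.mem_image] at hm
      rcases hm with ⟨n, hn, rfl⟩ | ⟨n, hn, rfl⟩
      · have := hT n hn
        rw [← add_assoc, pow_succ]
        omega
      · have := hT n hn
        rw [← add_assoc, pow_succ]
        omega
    · rw [hT', Finset.sum_union, Finset.sum_image, Finset.sum_image, ← Finset.sum_add_distrib]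
      · exact Finset.sum_congr rfl fun m hm => lvls_next hab (k + j) (hT m hm)
      · intro a _ b _ hab'
        simp only at hab'
        omega
      · intro a _ b _ hab'
        simp only at hab'
        omega
      · rw [Finset.disjoint_left]
        intro m hm hm'
        rw [Finset.mem_image] at hm hm'
        obtain ⟨a, _, rfl⟩ := hm
        obtain ⟨b, _, hb⟩ := hm'
        omega

theorem lvls_comm {M : VonNeumannAlgebra H} (hab : ∀ r, NoAb M r) (k k' : ℕ) {l m : ℕ}
    (hl : l < 2 ^ k) (hm : m < 2 ^ k') :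
    (lvls hab k).D l * (lvls hab k').D m = (lvls hab k').D m * (lvls hab k).D l := by
  have key : ∀ (k j : ℕ) (l m : ℕ), l < 2 ^ k → m < 2 ^ (k + j) →
      (lvls hab k).D l * (lvls hab (k + j)).D m = (lvls hab (k + j)).D m * (lvls hab k).D l := by
    intro k j l m hl hm
    obtain ⟨T, hT, hT'⟩ := lvls_expand hab k hl j
    rw [hT', Finset.sum_mul, Finset.mul_sum]
    refine Finset.sum_congr rfl fun n hn => ?_
    rw [(lvls hab (k + j)).D_mul (hT n hn) hm, (lvls hab (k + j)).D_mul hm (hT n hn)]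
    by_cases h : n = m
    · subst h
      simp
    · rw [if_neg h, if_neg (Ne.symm h)]
  rcases le_total k k' with h | h
  · obtain ⟨j, rfl⟩ := Nat.exists_eq_add_of_le h
    exact key k j l m hl hm
  · obtain ⟨j, rfl⟩ := Nat.exists_eq_add_of_le h
    exact (key k' j m l hm hl).symm

/-- The trace of the pieces. -/
theorem om_D {M : VonNeumannAlgebra H} {ζ : ℕ → H} (h : NTr M ζ) {k : ℕ} (L : Lvl M k) {l : ℕ}
    (hl : l < 2 ^ k) : om ζ (L.D l) = (1 / 2 ^ k : ℝ) := by
  have h1 : ∀ l < 2 ^ k, om ζ (L.D l) = om ζ L.P := by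
    intro l hl
    rw [Lvl.D, h.equiv (L.WM l hl), L.WW l hl]
  have h2 : om ζ (∑ l ∈ range (2 ^ k), L.D l) = 1 := by
    have : ∑ l ∈ range (2 ^ k), L.D l = 1 := L.sum
    rw [this, h.one]
  rw [om_sum h.sum, Finset.sum_congr rfl fun l hl => h1 l (Finset.mem_range.1 hl),
    Finset.sum_const, card_range, nsmul_eq_mul] at h2
  rw [h1 l hl]
  have h3 : ((2 ^ k : ℕ) : ℂ) ≠ 0 := by positivity
  have h4 : om ζ L.P = 1 / ((2 ^ k : ℕ) : ℂ) := by
    rw [eq_div_iff h3, mul_comm]
    exact h2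
  rw [h4]
  push_cast
  rfl

/-- One sided closeness. -/
def Near (M N : VonNeumannAlgebra H) (γ : ℝ) : Prop :=
  ∀ x ∈ M, ‖x‖ ≤ 1 → ∃ y ∈ N, ‖x - y‖ ≤ γ

theorem norm_le_one_of_star_mul {v p : H →L[ℂ] H} (h : star v * v = p) (hp : IsPr p) :
    ‖v‖ ≤ 1 := by
  have hpn : ‖p‖ ≤ 1 := by
    have h1 : ‖p‖ * ‖p‖ = ‖p‖ := by rw [← CStarRing.norm_star_mul_self, hp.1, hp.2]
    nlinarith [norm_nonneg p]
  have h1 : ‖v‖ * ‖v‖ ≤ 1 := by
    rw [← CStarRing.norm_star_mul_self, h]
    exact hpn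
  nlinarith [norm_nonneg v]

/-- Subequivalence passes to close algebras. -/
theorem sub_transfer {M N : VonNeumannAlgebra H} {γ : ℝ} (hγ : γ ≤ 1 / 4) (hnear : Near M N γ)
    {ζ : ℕ → H} (hN : NTr N ζ) {p q v : H →L[ℂ] H} (hp : p ∈ N) (hq : q ∈ N) (hpp : IsPr p)
    (hqq : IsPr q) (hv : v ∈ M) (hvp : star v * v = p) (hqv : q * v = v) :
    (om ζ p).re ≤ (om ζ q).re := by
  obtain ⟨y, hy, hyv⟩ := hnear v hv (norm_le_one_of_star_mul hvp hpp)
  obtain ⟨w, hw, hwp, hqw⟩ := exists_pi hp hq hpp hqq hvp hqv hy hγ hyv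
  exact hN.le_of_sub hw hqq hwp hpp hqw

/-- Traces agree on common projections, one inequality. -/
theorem trace_ge {M N : VonNeumannAlgebra H} {γ : ℝ} (hγ : γ ≤ 1 / 4) (hnear : Near M N γ)
    {ζ ζ' : ℕ → H} (hM : NTr M ζ) (hN : NTr N ζ') (hf : IsFac M) (hab : ∀ r, NoAb M r)
    (hD : ∀ k, ∀ l < 2 ^ k, (lvls hab k).D l ∈ N) {p : H →L[ℂ] H} (hpM : p ∈ M) (hpN : p ∈ N)
    (hp : IsPr p) : (om ζ p).re ≤ (om ζ' p).re := by
  have hDN : ∀ k, ∀ l < 2 ^ k, (om ζ' ((lvls hab k).D l)).re = 1 / 2 ^ k := by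
    intro k
    set L := lvls hab k
    have hle : ∀ l < 2 ^ k, ∀ m < 2 ^ k, (om ζ' (L.D l)).re ≤ (om ζ' (L.D m)).re := by
      intro l hl m hm
      refine sub_transfer hγ hnear hN (hD k l hl) (hD k m hm) (L.D_pr hl) (L.D_pr hm)
        (v := L.W m * star (L.W l)) (mul_mem (L.WM m hm) (star_mem (L.WM l hl))) ?_ ?_
      · rw [star_mul, star_star]
        calc L.W l * star (L.W m) * (L.W m * star (L.W l)) = L.W l * (star (L.W m) * L.W m) *
              star (L.W l) := by noncomm_ring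
          _ = L.D l := by rw [L.WW m hm, L.WP hl]; rfl
      · rw [Lvl.D]
        calc L.W m * star (L.W m) * (L.W m * star (L.W l)) = L.W m * (star (L.W m) * L.W m) *
              star (L.W l) := by noncomm_ring
          _ = L.W m * star (L.W l) := by rw [L.WW m hm, L.WP hm]
    have hsum : ∑ l ∈ range (2 ^ k), (om ζ' (L.D l)).re = 1 := by
      have h1 : om ζ' (∑ l ∈ range (2 ^ k), L.D l) = 1 := by
        have : ∑ l ∈ range (2 ^ k), L.D l = 1 := L.sum
        rw [this, hN.one]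
      rw [om_sum hN.sum] at h1
      have h2 := congrArg Complex.re h1
      rw [Complex.re_sum, Complex.one_re] at h2
      exact h2
    intro l hl
    have h1 : ∀ m ∈ range (2 ^ k), (om ζ' (L.D m)).re = (om ζ' (L.D l)).re := by
      intro m hm
      have hm' := Finset.mem_range.1 hm
      exact le_antisymm (hle m hm' l hl) (hle l hl m hm')
    rw [Finset.sum_congr rfl h1, Finset.sum_const, card_range, nsmul_eq_mul] at hsum
    have h3 : ((2 ^ k : ℕ) : ℝ) ≠ 0 := by positivity
    rw [eq_div_iff (by positivity), mul_comm]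
    have h4 : ((2 ^ k : ℕ) : ℝ) = 2 ^ k := by push_cast; rfl
    rw [← h4]
    exact hsum
  refine le_of_forall_pos_le_add fun ε hε => ?_
  obtain ⟨k, hk⟩ := exists_pow_lt_of_lt_one hε (by norm_num : (1 / 2 : ℝ) < 1)
  set L := lvls hab k
  set t := (om ζ p).re with ht
  have ht0 : 0 ≤ t := om_pr_nonneg hM.sum hp
  have ht1 : t ≤ 1 := hM.le_one hp
  set j := ⌊(2 : ℝ) ^ k * t⌋₊ with hj
  have hj1 : (j : ℝ) ≤ 2 ^ k * t := Nat.floor_le (by positivity)
  have hj2 : 2 ^ k * t < j + 1 := Nat.lt_floor_add_one _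
  have hjk : j ≤ 2 ^ k := by
    have : (j : ℝ) ≤ 2 ^ k := hj1.trans (by nlinarith [pow_pos (by norm_num : (0 : ℝ) < 2) k])
    exact_mod_cast this
  have hS : ∀ {ξ : ℕ → H}, (Summable fun k => ‖ξ k‖ ^ 2) →
      (∀ l < 2 ^ k, (om ξ (L.D l)).re = 1 / 2 ^ k) →
      (om ξ (∑ l ∈ range j, L.D l)).re = j / 2 ^ k := by
    intro ξ hξ hh
    rw [om_sum hξ, Complex.re_sum, Finset.sum_congr rfl fun l hl => hh l
      ((Finset.mem_range.1 hl).trans_le hjk), Finset.sum_const, card_range, nsmul_eq_mul]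
    ring
  have hSM : (∑ l ∈ range j, L.D l) ∈ M :=
    sum_mem fun l hl => L.D_mem ((Finset.mem_range.1 hl).trans_le hjk)
  have hSN : (∑ l ∈ range j, L.D l) ∈ N :=
    sum_mem fun l hl => hD k l ((Finset.mem_range.1 hl).trans_le hjk)
  have h1 : (om ζ (∑ l ∈ range j, L.D l)).re ≤ (om ζ p).re := by
    rw [hS hM.sum fun l hl => by rw [om_D hM L hl, Complex.ofReal_re], div_le_iff₀ (by positivity)]
    linarith
  obtain ⟨v, hv, hv1, hv2⟩ := comp_of_le hM hf hSM hpM (L.S_pr hjk) hp h1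
  have h2 := sub_transfer hγ hnear hN hSN hpN (L.S_pr hjk) hp hv hv1 hv2
  rw [hS hN.sum (hDN k)] at h2
  have h3 : t ≤ j / 2 ^ k + (1 / 2) ^ k := by
    rw [one_div, inv_pow, ← one_div, ← add_div, le_div_iff₀ (by positivity)]
    linarith
  linarith

theorem isPr_one_sub {p : H →L[ℂ] H} (hp : IsPr p) : IsPr (1 - p) := by
  refine ⟨by rw [star_sub, star_one, hp.1], ?_⟩
  rw [sub_mul, mul_sub, mul_sub, hp.2]
  noncomm_ring

/-- Traces agree on common projections. -/
theorem trace_eq {M N : VonNeumannAlgebra H} {γ : ℝ} (hγ : γ ≤ 1 / 4) (hnear : Near M N γ)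
    {ζ ζ' : ℕ → H} (hM : NTr M ζ) (hN : NTr N ζ') (hf : IsFac M) (hab : ∀ r, NoAb M r)
    (hD : ∀ k, ∀ l < 2 ^ k, (lvls hab k).D l ∈ N) {p : H →L[ℂ] H} (hpM : p ∈ M) (hpN : p ∈ N)
    (hp : IsPr p) : om ζ p = om ζ' p := by
  have h1 := trace_ge hγ hnear hM hN hf hab hD hpM hpN hp
  have h2 := trace_ge hγ hnear hM hN hf hab hD (sub_mem (one_mem M) hpM)
    (sub_mem (one_mem N) hpN) (isPr_one_sub hp)
  rw [om_sub hM.sum, om_sub hN.sum, hM.one, hN.one, Complex.sub_re, Complex.sub_re] at h2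
  apply Complex.ext
  · linarith
  · rw [om_pr_im hM.sum hp, om_pr_im hN.sum hp]

/-- Traces agree on common abelian subalgebras. -/
theorem trace_eq_abelian {M N A : VonNeumannAlgebra H} {γ : ℝ} (hγ : γ ≤ 1 / 4)
    (hnear : Near M N γ) {ζ ζ' : ℕ → H} (hM : NTr M ζ) (hN : NTr N ζ') (hf : IsFac M)
    (hab : ∀ r, NoAb M r) (hD : ∀ k, ∀ l < 2 ^ k, (lvls hab k).D l ∈ A)
    (hA : ∀ a ∈ A, ∀ b ∈ A, a * b = b * a) (hAM : ∀ a ∈ A, a ∈ M) (hAN : ∀ a ∈ A, a ∈ N)
    {a : H →L[ℂ] H} (ha : a ∈ A) : om ζ a = om ζ' a := by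
  have hcen : IsCen A a := ⟨ha, fun b hb => hA a ha b hb⟩
  set C := (∑' k, ‖ζ k‖ ^ 2) + ∑' k, ‖ζ' k‖ ^ 2 with hC
  have hC0 : 0 ≤ C := add_nonneg (tsum_nonneg fun k => by positivity)
    (tsum_nonneg fun k => by positivity)
  have key : ∀ ε : ℝ, 0 < ε → ‖om ζ a - om ζ' a‖ ≤ ε * C := by
    intro ε hε
    obtain ⟨n, c, p, hpc, hn⟩ := fin_span H A a hcen ε hε
    have h1 : om ζ (∑ k, c k • p k) = om ζ' (∑ k, c k • p k) := by
      rw [om_sum hM.sum, om_sum hN.sum]
      refine Finset.sum_congr rfl fun k _ => ?_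
      rw [om_smul, om_smul, trace_eq hγ hnear hM hN hf hab (fun k l hl => hAN _ (hD k l hl))
        (hAM _ (hpc k).2.1) (hAN _ (hpc k).2.1) (hpc k).1]
    have h2 : om ζ a - om ζ' a = om ζ (a - ∑ k, c k • p k) - om ζ' (a - ∑ k, c k • p k) := by
      rw [om_sub hM.sum, om_sub hN.sum, h1]
      abel
    rw [h2]
    calc ‖om ζ (a - ∑ k, c k • p k) - om ζ' (a - ∑ k, c k • p k)‖
        ≤ ‖a - ∑ k, c k • p k‖ * (∑' k, ‖ζ k‖ ^ 2) +
          ‖a - ∑ k, c k • p k‖ * (∑' k, ‖ζ' k‖ ^ 2) :=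
          (norm_sub_le _ _).trans (add_le_add (om_norm_le hM.sum _) (om_norm_le hN.sum _))
      _ = ‖a - ∑ k, c k • p k‖ * C := by rw [hC]; ring
      _ ≤ ε * C := mul_le_mul_of_nonneg_right hn hC0
  have h0 : ‖om ζ a - om ζ' a‖ ≤ 0 := by
    refine le_of_forall_pos_le_add fun ε hε => ?_
    have h1 := key (ε / (C + 1)) (by positivity)
    have h2 : (ε / (C + 1)) * C ≤ ε := by
      rw [div_mul_eq_mul_div, div_le_iff₀ (by positivity)]
      nlinarith
    linarith
  exact sub_eq_zero.1 (norm_le_zero_iff.1 h0)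

end Run7.h989.CC
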