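import Mathlib
import Pool.Agent.Run7.h989.CC.Tr
import Pool.Agent.Run7.h989.CC.Doug

/-!
Orthogonal systems of trace vectors and symmetries of the commutant.
-/

open scoped ComplexOrder InnerProductSpace ComplexConjugate Topology
open Finset Filter

noncomputable section

namespace Run7.h989.CC

open H710R2.DP H759R2.Kad

variable {H : Type} [NormedAddCommGroup H] [InnerProductSpace ℂ H] [CompleteSpace H]

/-- An orthogonal system of trace vectors: `⟨ξ j, x ξ i⟩ = δ τ (x p i)`. -/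
structure Fam (M : VonNeumannAlgebra H) (ζ : ℕ → H) {n : ℕ} (ξ : Fin n → H)
    (p : Fin n → (H →L[ℂ] H)) : Prop where
  mem : ∀ i, p i ∈ M
  pr : ∀ i, IsPr (p i)
  inner : ∀ i j, ∀ x ∈ M, ⟪ξ j, x (ξ i)⟫_ℂ = if i = j then om ζ (x * p i) else 0

theorem inner_adj (x : H →L[ℂ] H) (ξ η : H) : ⟪x ξ, η⟫_ℂ = ⟪ξ, (star x) η⟫_ℂ := by
  rw [ContinuousLinearMap.star_eq_adjoint, ContinuousLinearMap.adjoint_inner_right]

/-- The sum of the `x i ξ i`. -/
def ra (M : VonNeumannAlgebra H) {n : ℕ} (ξ : Fin n → H) :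
    (Fin n → M.toStarSubalgebra) →ₗ[ℂ] H where
  toFun x := ∑ i, (x i : H →L[ℂ] H) (ξ i)
  map_add' x y := by
    simp [Finset.sum_add_distrib]
  map_smul' c x := by
    simp [Finset.smul_sum]

theorem ra_apply {M : VonNeumannAlgebra H} {n : ℕ} (ξ : Fin n → H)
    (x : Fin n → M.toStarSubalgebra) : ra M ξ x = ∑ i, (x i : H →L[ℂ] H) (ξ i) := rfl

theorem Fam.inner_ra {M : VonNeumannAlgebra H} {ζ : ℕ → H} {n : ℕ} {ξ : Fin n → H}
    {p : Fin n → (H →L[ℂ] H)} (h : Fam M ζ ξ p) (x y : Fin n → M.toStarSubalgebra) :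
    ⟪ra M ξ x, ra M ξ y⟫_ℂ = ∑ i, om ζ (star (x i : H →L[ℂ] H) * (y i : H →L[ℂ] H) * p i) := by
  rw [ra_apply, ra_apply, sum_inner]
  refine Finset.sum_congr rfl fun j _ => ?_
  rw [inner_sum, Finset.sum_eq_single j]
  · rw [inner_adj, ← mul_apply_eq_comp, h.inner j j _ (mul_mem (star_mem (x j).2) (y j).2),
      if_pos rfl]
  · intro i _ hij
    rw [inner_adj, ← mul_apply_eq_comp, h.inner i j _ (mul_mem (star_mem (x j).2) (y i).2),
      if_neg hij]
  · simp

/-- The symmetries of the commutant attached to a system. -/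
def SB (M A : VonNeumannAlgebra H) {n : ℕ} (ξ : Fin n → H) : Set (H →L[ℂ] H) :=
  {g | (∀ x ∈ M, g * x = x * g) ∧ star g = g ∧ g * g = 1 ∧
    (∀ i, ∃ u ∈ syms A, g (ξ i) = u (ξ i)) ∧ ∀ η, (∀ x, ⟪ra M ξ x, η⟫_ℂ = 0) → g η = η}

theorem SB_ra {M A : VonNeumannAlgebra H} {n : ℕ} {ξ : Fin n → H} {g : H →L[ℂ] H}
    (hg : ∀ x ∈ M, g * x = x * g) (x : Fin n → M.toStarSubalgebra) :
    g (ra M ξ x) = ∑ i, (x i : H →L[ℂ] H) (g (ξ i)) := by
  rw [ra_apply, map_sum]
  refine Finset.sum_congr rfl fun i _ => ?_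
  rw [← mul_apply_eq_comp, hg _ (x i).2, mul_apply_eq_comp]

theorem SB_comm {M A : VonNeumannAlgebra H} (hAM : ∀ a ∈ A, a ∈ M)
    (hA : ∀ a ∈ A, ∀ b ∈ A, a * b = b * a) {n : ℕ} {ξ : Fin n → H} :
    ∀ g ∈ SB M A ξ, ∀ h ∈ SB M A ξ, g * h = h * g := by
  rintro g ⟨g1, g2, g3, g4, g5⟩ h ⟨h1, h2, h3, h4, h5⟩
  have hM : ∀ x ∈ M, (g * h) * x = x * (g * h) := by
    intro x hx
    rw [mul_assoc, h1 x hx, ← mul_assoc, g1 x hx, mul_assoc]
  have hM' : ∀ x ∈ M, (h * g) * x = x * (h * g) := by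
    intro x hx
    rw [mul_assoc, g1 x hx, ← mul_assoc, h1 x hx, mul_assoc]
  rw [← sub_eq_zero]
  refine ext_range (ra M ξ) _ (fun x => ?_) (fun η hη => ?_)
  · rw [sub_apply, SB_ra (A := A) hM x, SB_ra (A := A) hM' x, ← Finset.sum_sub_distrib]
    refine Finset.sum_eq_zero fun i _ => ?_
    obtain ⟨u, hu, hgu⟩ := g4 i
    obtain ⟨w, hw, hhw⟩ := h4 i
    rw [← map_sub]
    have h6 : (g * h) (ξ i) - (h * g) (ξ i) = 0 := by
      rw [mul_apply_eq_comp, mul_apply_eq_comp, hhw, hgu, ← mul_apply_eq_comp g w,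
        ← mul_apply_eq_comp h u, g1 w (hAM w hw.1), h1 u (hAM u hu.1), mul_apply_eq_comp,
        mul_apply_eq_comp, hgu, hhw, ← mul_apply_eq_comp, ← mul_apply_eq_comp,
        hA w hw.1 u hu.1, sub_self]
    rw [h6, map_zero]
  · rw [sub_apply, mul_apply_eq_comp, mul_apply_eq_comp, h5 η hη, g5 η hη, h5 η hη, sub_self]

theorem SB_grp {M A : VonNeumannAlgebra H} (hAM : ∀ a ∈ A, a ∈ M)
    (hA : ∀ a ∈ A, ∀ b ∈ A, a * b = b * a) {n : ℕ} {ξ : Fin n → H} :
    IsSymGrp (SB M A ξ) where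
  one := by
    refine ⟨fun x _ => by rw [one_mul, mul_one], star_one _, one_mul 1, fun i => ?_, fun η _ => rfl⟩
    exact ⟨1, (isSymGrp_syms hA).one, rfl⟩
  mul g hg h hh := by
    have hc := SB_comm hAM hA g hg h hh
    obtain ⟨g1, g2, g3, g4, g5⟩ := hg
    obtain ⟨h1, h2, h3, h4, h5⟩ := hh
    refine ⟨fun x hx => ?_, ?_, ?_, fun i => ?_, fun η hη => ?_⟩
    · rw [mul_assoc, h1 x hx, ← mul_assoc, g1 x hx, mul_assoc]
    · rw [star_mul, g2, h2, hc]
    · calc g * h * (g * h) = g * (h * g) * h := by noncomm_ring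
        _ = (g * g) * (h * h) := by rw [← hc]; noncomm_ring
        _ = 1 := by rw [g3, h3, mul_one]
    · obtain ⟨u, hu, hgu⟩ := g4 i
      obtain ⟨w, hw, hhw⟩ := h4 i
      refine ⟨w * u, (isSymGrp_syms hA).mul w hw u hu, ?_⟩
      rw [mul_apply_eq_comp, hhw, ← mul_apply_eq_comp, g1 w (hAM w hw.1), mul_apply_eq_comp, hgu,
        mul_apply_eq_comp]
    · rw [mul_apply_eq_comp, h5 η hη, g5 η hη]
  sa g hg := hg.2.1
  sq g hg := hg.2.2.1
  comm := SB_comm hAM hA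

/-- Existence of the symmetries. -/
theorem exists_sym {M A : VonNeumannAlgebra H} {ζ : ℕ → H} (hζ : NTr M ζ)
    (hAM : ∀ a ∈ A, a ∈ M) (hA : ∀ a ∈ A, ∀ b ∈ A, a * b = b * a) {n : ℕ} {ξ : Fin n → H}
    {d : Fin n → (H →L[ℂ] H)} (h : Fam M ζ ξ d) (hd : ∀ i, d i ∈ A)
    (u : Fin n → (H →L[ℂ] H)) (hu : ∀ i, u i ∈ syms A) :
    ∃ g ∈ SB M A ξ, ∀ i, g (ξ i) = u i (ξ i) := by
  have huM : ∀ i, u i ∈ M := fun i => hAM _ (hu i).1
  -- the transformed family
  have h' : Fam M ζ (fun i => u i (ξ i)) d := by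
    refine ⟨h.mem, h.pr, fun i j x hx => ?_⟩
    have h1 : ⟪u j (ξ j), x (u i (ξ i))⟫_ℂ = ⟪ξ j, (u j * x * u i) (ξ i)⟫_ℂ := by
      rw [inner_adj, (hu j).2.1]
      rfl
    rw [h1, h.inner i j _ (mul_mem (mul_mem (huM j) hx) (huM i))]
    split_ifs with hij
    · subst hij
      have h2 : u i * x * u i * d i = u i * (x * d i * u i) := by
        have : u i * d i = d i * u i := hA _ (hu i).1 _ (hd i)
        calc u i * x * u i * d i = u i * (x * (u i * d i)) := by noncomm_ring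
          _ = _ := by rw [this]; noncomm_ring
      rw [h2, hζ.comm _ (huM i) _ (mul_mem (mul_mem hx (h.mem i)) (huM i)), mul_assoc,
        (hu i).2.2, mul_one]
    · rfl
  let S : Submodule ℂ H := (LinearMap.range (ra M ξ))ᗮ
  let b0 : (Fin n → M.toStarSubalgebra) →ₗ[ℂ] H := ra M fun i => u i (ξ i)
  -- `b0 x = a (x u)`
  let mu : (Fin n → M.toStarSubalgebra) → (Fin n → M.toStarSubalgebra) :=
    fun x i => x i * ⟨u i, huM i⟩
  have hmu : ∀ x, b0 x = ra M ξ (mu x) := by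
    intro x
    rfl
  have hmumu : ∀ x, mu (mu x) = x := by
    intro x
    funext i
    have h1 : (⟨u i, huM i⟩ : M.toStarSubalgebra) * ⟨u i, huM i⟩ = 1 := Subtype.ext (hu i).2.2
    change x i * ⟨u i, huM i⟩ * ⟨u i, huM i⟩ = x i
    rw [mul_assoc, h1, mul_one]
  let a : (Fin n → M.toStarSubalgebra) × S →ₗ[ℂ] H := (ra M ξ).coprod S.subtype
  let b : (Fin n → M.toStarSubalgebra) × S →ₗ[ℂ] H := b0.coprod S.subtype
  have ha : ∀ x (s : S), a (x, s) = ra M ξ x + s := fun x s => rfl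
  have hb : ∀ x (s : S), b (x, s) = b0 x + s := fun x s => rfl
  have hort : ∀ x (s : S), ⟪ra M ξ x, (s : H)⟫_ℂ = 0 := by
    intro x s
    exact (Submodule.mem_orthogonal _ _).1 s.2 _ (LinearMap.mem_range_self _ x)
  have hnorm : ∀ x (s : S), ‖ra M ξ x + s‖ * ‖ra M ξ x + s‖ =
      ‖ra M ξ x‖ * ‖ra M ξ x‖ + ‖(s : H)‖ * ‖(s : H)‖ := fun x s =>
    norm_add_sq_eq_norm_sq_add_norm_sq_of_inner_eq_zero _ _ (hort x s)
  have hnb : ∀ x, ‖b0 x‖ = ‖ra M ξ x‖ := by
    intro x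
    have h1 : ⟪b0 x, b0 x⟫_ℂ = ⟪ra M ξ x, ra M ξ x⟫_ℂ := by
      rw [h'.inner_ra, h.inner_ra]
    rw [inner_self_eq_norm_sq_to_K, inner_self_eq_norm_sq_to_K] at h1
    have h2 : ‖b0 x‖ ^ 2 = ‖ra M ξ x‖ ^ 2 := by exact_mod_cast h1
    exact (pow_left_inj₀ (norm_nonneg _) (norm_nonneg _) two_ne_zero).1 h2
  have hab : ∀ x, ‖b x‖ ≤ ‖a x‖ := by
    rintro ⟨x, s⟩
    rw [ha, hb, hmu]
    have h1 := hnorm x s
    have h2 := hnorm (mu x) s
    rw [← hmu, hnb] at h2
    rw [← h1] at h2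
    rw [← hmu]
    exact le_of_eq ((mul_self_inj (norm_nonneg _) (norm_nonneg _)).1 h2)
  obtain ⟨g, hg1, hg2, -⟩ := douglas a b hab
  have hcomp : ∀ η, (∀ x, ⟪a x, η⟫_ℂ = 0) → η = 0 := by
    intro η hη
    have h1 : η ∈ S := by
      rw [Submodule.mem_orthogonal]
      rintro _ ⟨x, rfl⟩
      have := hη (x, 0)
      rwa [ha, Submodule.coe_zero, add_zero] at this
    have h2 := hη (0, ⟨η, h1⟩)
    rw [ha, map_zero, zero_add] at h2
    exact inner_self_eq_zero.1 h2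
  have hext : ∀ t : H →L[ℂ] H, (∀ x, t (a x) = 0) → t = 0 := fun t ht =>
    ext_range a t ht fun η hη => by rw [hcomp η hη, map_zero]
  have hga : ∀ x (s : S), g (ra M ξ x + s) = ra M ξ (mu x) + s := by
    intro x s
    have := hg1 (x, s)
    rwa [ha, hb, hmu] at this
  have hsq : g * g = 1 := by
    rw [← sub_eq_zero]
    refine hext _ ?_
    rintro ⟨x, s⟩
    rw [sub_apply, mul_apply_eq_comp, ha, hga, hga, hmumu]
    simp
  have hiso : ∀ y, ‖g y‖ = ‖y‖ := by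
    intro y
    refine le_antisymm (hg2 y) ?_
    have h1 : g (g y) = y := by
      rw [← mul_apply_eq_comp, hsq]
      rfl
    calc ‖y‖ = ‖g (g y)‖ := by rw [h1]
      _ ≤ ‖g y‖ := hg2 _
  have hsa : star g = g := by
    have h1 : star g * g = 1 := by
      rw [ContinuousLinearMap.star_eq_adjoint]
      exact (ContinuousLinearMap.norm_map_iff_adjoint_comp_self g).1 hiso
    calc star g = star g * (g * g) := by rw [hsq, mul_one]
      _ = g := by rw [← mul_assoc, h1, one_mul]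
  refine ⟨g, ⟨fun y hy => ?_, hsa, hsq, fun i => ?_, fun η hη => ?_⟩, fun i => ?_⟩
  · rw [← sub_eq_zero]
    refine hext _ ?_
    rintro ⟨x, s⟩
    let yx : Fin n → M.toStarSubalgebra := fun i => ⟨y, hy⟩ * x i
    have h1 : y (ra M ξ x) = ra M ξ yx := by
      rw [ra_apply, ra_apply, map_sum]
      rfl
    have h2 : y (ra M ξ (mu x)) = ra M ξ (mu yx) := by
      rw [ra_apply, ra_apply, map_sum]
      rfl
    have hys : y (s : H) ∈ S := by
      rw [Submodule.mem_orthogonal]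
      rintro _ ⟨z, rfl⟩
      have h3 : ⟪ra M ξ z, y (s : H)⟫_ℂ = ⟪(star y) (ra M ξ z), (s : H)⟫_ℂ := by
        rw [inner_adj, star_star]
      let yz : Fin n → M.toStarSubalgebra := fun i => ⟨star y, star_mem hy⟩ * z i
      have h4 : (star y) (ra M ξ z) = ra M ξ yz := by
        rw [ra_apply, ra_apply, map_sum]
        rfl
      rw [h3, h4]
      exact hort yz s
    have e1 : y (ra M ξ x + s) = ra M ξ yx + y s := by rw [map_add, h1]
    have e2 : y (ra M ξ (mu x) + s) = ra M ξ (mu yx) + y s := by rw [map_add, h2]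
    have h5 := hga yx ⟨y s, hys⟩
    simp only at h5
    rw [sub_apply, mul_apply_eq_comp, mul_apply_eq_comp, ha, hga, e1, e2, h5, sub_self]
  · refine ⟨u i, hu i, ?_⟩
    have h1 : ra M ξ (Pi.single i 1) = ξ i := by
      rw [ra_apply, Finset.sum_eq_single i]
      · simp
      · intro j _ hj
        rw [Pi.single_eq_of_ne hj]
        simp
      · simp
    have h2 : ra M ξ (mu (Pi.single i 1)) = u i (ξ i) := by
      rw [ra_apply, Finset.sum_eq_single i]
      · change ((Pi.single i 1 : Fin n → M.toStarSubalgebra) i * ⟨u i, huM i⟩ :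
          M.toStarSubalgebra).1 (ξ i) = _
        rw [Pi.single_eq_same, one_mul]
      · intro j _ hj
        change ((Pi.single i 1 : Fin n → M.toStarSubalgebra) j * ⟨u j, huM j⟩ :
          M.toStarSubalgebra).1 (ξ j) = _
        rw [Pi.single_eq_of_ne hj, zero_mul]
        rfl
      · simp
    have h3 := hga (Pi.single i 1) 0
    rwa [h1, h2, Submodule.coe_zero, add_zero, add_zero] at h3
  · have h1 : η ∈ S := by
      rw [Submodule.mem_orthogonal]
      rintro _ ⟨x, rfl⟩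
      exact hη x
    have h2 := hga 0 ⟨η, h1⟩
    have h3 : mu 0 = 0 := by
      funext i
      exact zero_mul _
    rwa [h3, map_zero, zero_add] at h2
  · have h1 : ra M ξ (Pi.single i 1) = ξ i := by
      rw [ra_apply, Finset.sum_eq_single i]
      · simp
      · intro j _ hj
        rw [Pi.single_eq_of_ne hj]
        simp
      · simp
    have h2 : ra M ξ (mu (Pi.single i 1)) = u i (ξ i) := by
      rw [ra_apply, Finset.sum_eq_single i]
      · change ((Pi.single i 1 : Fin n → M.toStarSubalgebra) i * ⟨u i, huM i⟩ :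
          M.toStarSubalgebra).1 (ξ i) = _
        rw [Pi.single_eq_same, one_mul]
      · intro j _ hj
        change ((Pi.single i 1 : Fin n → M.toStarSubalgebra) j * ⟨u j, huM j⟩ :
          M.toStarSubalgebra).1 (ξ j) = _
        rw [Pi.single_eq_of_ne hj, zero_mul]
        rfl
      · simp
    have h3 := hga (Pi.single i 1) 0
    rwa [h1, h2, Submodule.coe_zero, add_zero, add_zero] at h3

end Run7.h989.CC
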