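import Mathlib
import Pool.Agent.Run7.h989.CC.Vec
import Pool.Agent.H759R2.Kad.Assemble4

/-!
Operators that almost commute with a II_1 factor are near its commutant; conjugated algebras.
-/

open scoped ComplexOrder InnerProductSpace ComplexConjugate Topology
open Finset Filter

noncomputable section

namespace Run7.h989.CC

open H710R2.DP H759R2.Kad

variable {H : Type} [NormedAddCommGroup H] [InnerProductSpace ℂ H] [CompleteSpace H]

/-- The constant of the derivation theorem. -/
def CD : ℝ := 216 * 2 ^ 23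

/-- Operators that almost commute with a II_1 factor are near its commutant. -/
theorem comm_near {N : VonNeumannAlgebra H} {τ : N.toStarSubalgebra →ₗ[ℂ] ℂ} (hN : IsII1 N τ)
    {y : H →L[ℂ] H} {γ : ℝ} (hγ : 0 ≤ γ) (h : ∀ x ∈ N, ‖x‖ ≤ 1 → ‖y * x - x * y‖ ≤ γ) :
    ∃ z : H →L[ℂ] H, (∀ x ∈ N, z * x = x * z) ∧ ‖y - z‖ ≤ CD * γ := by
  let π : N.toStarSubalgebra →⋆ₐ[ℂ] (H →L[ℂ] H) := N.toStarSubalgebra.subtype
  have hπ : ∀ a, π a = (a : H →L[ℂ] H) := fun a => rfl
  let D : N.toStarSubalgebra →ₗ[ℂ] (H →L[ℂ] H) :=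
    { toFun := fun a => y * (a : H →L[ℂ] H) - (a : H →L[ℂ] H) * y
      map_add' := fun a b => by
        change y * ((a : H →L[ℂ] H) + b) - ((a : H →L[ℂ] H) + b) * y = _
        rw [mul_add, add_mul]
        abel
      map_smul' := fun c a => by
        change y * (c • (a : H →L[ℂ] H)) - (c • (a : H →L[ℂ] H)) * y = c • _
        rw [mul_smul_comm, smul_mul_assoc, smul_sub] }
  have hD : ∀ a, D a = y * (a : H →L[ℂ] H) - (a : H →L[ℂ] H) * y := fun a => rfl
  have hleib : ∀ a b, D (a * b) = π a * D b + D a * π b := by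
    intro a b
    rw [hD, hD, hD, hπ, hπ]
    change y * ((a : H →L[ℂ] H) * b) - ((a : H →L[ℂ] H) * b) * y = _
    noncomm_ring
  have hb : ∀ a, ‖D a‖ ≤ γ * ‖a‖ := by
    intro a
    rcases eq_or_ne a 0 with rfl | ha
    · rw [map_zero, norm_zero, norm_zero, mul_zero]
    · have hpos : 0 < ‖a‖ := norm_pos_iff.2 ha
      have h1 : ‖((‖a‖⁻¹ : ℝ) : ℂ) • (a : H →L[ℂ] H)‖ ≤ 1 := by
        rw [norm_smul, Complex.norm_real, norm_inv, norm_norm]
        exact (inv_mul_cancel₀ hpos.ne').le
      have h2 := h (((‖a‖⁻¹ : ℝ) : ℂ) • (a : H →L[ℂ] H))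
        (SMulMemClass.smul_mem (S := StarSubalgebra ℂ (H →L[ℂ] H))
            (s := N.toStarSubalgebra) _ a.2) h1
      rw [mul_smul_comm, smul_mul_assoc, ← smul_sub, norm_smul, Complex.norm_real, norm_inv,
        norm_norm] at h2
      rw [hD]
      rwa [inv_mul_le_iff₀ hpos, mul_comm] at h2
  obtain ⟨T, hT, hT'⟩ := class_inner N.toStarSubalgebra (final_class H N τ hN) H π D hleib γ hγ hb
  refine ⟨y - T, fun x hx => ?_, ?_⟩
  · have h1 := hT' ⟨x, hx⟩
    rw [hD, hπ] at h1
    simp only at h1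
    rw [sub_mul, mul_sub]
    rw [sub_eq_sub_iff_add_eq_add] at h1 ⊢
    rw [h1]
    abel
  · rw [sub_sub_cancel]
    exact hT

/-- The conjugation by a unitary. -/
def conjHom (u : H →L[ℂ] H) (hu : IsU u) : (H →L[ℂ] H) →⋆ₐ[ℂ] (H →L[ℂ] H) where
  toFun x := u * x * star u
  map_one' := by rw [mul_one, hu.2]
  map_mul' x y := by
    calc u * (x * y) * star u = u * x * (1 * y) * star u := by noncomm_ring
      _ = u * x * star u * (u * y * star u) := by rw [← hu.1]; noncomm_ring
  map_zero' := by rw [mul_zero, zero_mul]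
  map_add' x y := by rw [mul_add, add_mul]
  commutes' c := by
    rw [Algebra.algebraMap_eq_smul_one, mul_smul_comm, mul_one, smul_mul_assoc, hu.2]
  map_star' x := by
    rw [star_mul, star_mul, star_star, mul_assoc]

/-- The algebra of all `x` with `u x u* ∈ N`. -/
def conjV (u : H →L[ℂ] H) (hu : IsU u) (N : VonNeumannAlgebra H) : VonNeumannAlgebra H where
  toStarSubalgebra := N.toStarSubalgebra.comap (conjHom u hu)
  centralizer_centralizer' := by
    refine Set.Subset.antisymm ?_ Set.subset_centralizer_centralizer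
    intro x hx
    change u * x * star u ∈ N
    refine mem_of_comm fun t ht => ?_
    have h1 : star u * t * u ∈ Set.centralizer
        ((N.toStarSubalgebra.comap (conjHom u hu)).carrier : Set (H →L[ℂ] H)) := by
      intro y hy
      have hy' : u * y * star u ∈ N := hy
      have h2 := ht _ hy'
      calc y * (star u * t * u) = (star u * u) * y * (star u * t * u) := by rw [hu.1, one_mul]
        _ = star u * ((u * y * star u) * t) * u := by noncomm_ring
        _ = star u * (t * (u * y * star u)) * u := by rw [h2]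
        _ = star u * t * u * y * (star u * u) := by noncomm_ring
        _ = star u * t * u * y := by rw [hu.1, mul_one]
    have h3 := hx _ h1
    calc t * (u * x * star u) = (u * star u) * t * (u * x * star u) := by rw [hu.2, one_mul]
      _ = u * ((star u * t * u) * x) * star u := by noncomm_ring
      _ = u * (x * (star u * t * u)) * star u := by rw [h3]
      _ = u * x * star u * t * (u * star u) := by noncomm_ring
      _ = u * x * star u * t := by rw [hu.2, mul_one]

theorem mem_conjV {u : H →L[ℂ] H} {hu : IsU u} {N : VonNeumannAlgebra H} {x : H →L[ℂ] H} :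
    x ∈ conjV u hu N ↔ u * x * star u ∈ N := Iff.rfl

theorem conj_inv {u : H →L[ℂ] H} (hu : IsU u) (y : H →L[ℂ] H) :
    u * (star u * y * u) * star u = y := by
  calc u * (star u * y * u) * star u = (u * star u) * y * (u * star u) := by noncomm_ring
    _ = y := by rw [hu.2, one_mul, mul_one]

theorem conj_inv' {u : H →L[ℂ] H} (hu : IsU u) (y : H →L[ℂ] H) :
    star u * (u * y * star u) * u = y := by
  calc star u * (u * y * star u) * u = (star u * u) * y * (star u * u) := by noncomm_ring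
    _ = y := by rw [hu.1, one_mul, mul_one]

theorem star_mem_conjV {u : H →L[ℂ] H} {hu : IsU u} {N : VonNeumannAlgebra H} {y : H →L[ℂ] H}
    (hy : y ∈ N) : star u * y * u ∈ conjV u hu N := by
  rw [mem_conjV, conj_inv hu]
  exact hy

theorem om_conj (u : H →L[ℂ] H) (ζ : ℕ → H) (x : H →L[ℂ] H) :
    om (fun k => star u (ζ k)) x = om ζ (u * x * star u) := by
  rw [om, om]
  refine tsum_congr fun k => ?_
  rw [inner_adj, star_star]
  rfl

theorem NTr.conj {u : H →L[ℂ] H} (hu : IsU u) {N : VonNeumannAlgebra H} {ζ : ℕ → H}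
    (h : NTr N ζ) : NTr (conjV u hu N) fun k => star u (ζ k) := by
  have hm : ∀ x y : H →L[ℂ] H, u * (x * y) * star u = (u * x * star u) * (u * y * star u) := by
    intro x y
    calc u * (x * y) * star u = u * x * (1 * y) * star u := by noncomm_ring
      _ = u * x * star u * (u * y * star u) := by rw [← hu.1]; noncomm_ring
  refine ⟨?_, ?_, fun x hx y hy => ?_, fun x hx h0 => ?_⟩
  · refine Summable.of_nonneg_of_le (fun k => by positivity) (fun k => ?_) h.sum
    have h1 : ‖star u (ζ k)‖ ≤ ‖ζ k‖ := by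
      calc ‖star u (ζ k)‖ ≤ ‖star u‖ * ‖ζ k‖ := (star u).le_opNorm _
        _ ≤ 1 * ‖ζ k‖ := mul_le_mul_of_nonneg_right hu.star.norm_le (norm_nonneg _)
        _ = ‖ζ k‖ := one_mul _
    gcongr
  · rw [om_conj, mul_one, hu.2, h.one]
  · have hx' : u * x * star u ∈ N := hx
    have hy' : u * y * star u ∈ N := hy
    rw [om_conj, om_conj, hm, hm, h.comm _ hx' _ hy']
  · rw [om_conj, hm] at h0
    have h1 : u * star x * star u = star (u * x * star u) := by
      rw [star_mul, star_mul, star_star, mul_assoc]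
    rw [h1] at h0
    have hx' : u * x * star u ∈ N := hx
    have h2 := h.faithful _ hx' h0
    rw [← conj_inv' hu x, h2, mul_zero, zero_mul]

/-- Distance of the conjugates. -/
theorem conj_near {u : H →L[ℂ] H} (hu : IsU u) {ε : ℝ} (h : ‖u - 1‖ ≤ ε) (y : H →L[ℂ] H) :
    ‖y - star u * y * u‖ ≤ 2 * ε * ‖y‖ := by
  have h1 : y - star u * y * u = star u * ((u - 1) * y - y * (u - 1)) := by
    calc y - star u * y * u = (star u * u) * y - star u * y * u := by rw [hu.1, one_mul]
      _ = star u * ((u - 1) * y - y * (u - 1)) := by noncomm_ring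
  rw [h1]
  calc ‖star u * ((u - 1) * y - y * (u - 1))‖ ≤ ‖star u‖ * ‖(u - 1) * y - y * (u - 1)‖ :=
        norm_mul_le _ _
    _ ≤ 1 * (‖u - 1‖ * ‖y‖ + ‖y‖ * ‖u - 1‖) := by
        refine mul_le_mul hu.star.norm_le ?_ (norm_nonneg _) zero_le_one
        exact (norm_sub_le _ _).trans (add_le_add (norm_mul_le _ _) (norm_mul_le _ _))
    _ = 2 * ‖u - 1‖ * ‖y‖ := by ring
    _ ≤ 2 * ε * ‖y‖ := by gcongr

theorem near_conj {u : H →L[ℂ] H} (hu : IsU u) {ε : ℝ} (h : ‖u - 1‖ ≤ ε)
    {M N : VonNeumannAlgebra H} {γ : ℝ} (hn : Near M N γ) :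
    Near M (conjV u hu N) (γ + 2 * ε * (1 + γ)) := by
  intro x hx hx1
  obtain ⟨y, hy, hxy⟩ := hn x hx hx1
  have hε : 0 ≤ ε := (norm_nonneg _).trans h
  refine ⟨star u * y * u, star_mem_conjV hy, ?_⟩
  have hyn : ‖y‖ ≤ 1 + γ := by
    calc ‖y‖ = ‖x - (x - y)‖ := by rw [sub_sub_cancel]
      _ ≤ ‖x‖ + ‖x - y‖ := norm_sub_le _ _
      _ ≤ 1 + γ := add_le_add hx1 hxy
  calc ‖x - star u * y * u‖ = ‖(x - y) + (y - star u * y * u)‖ := by rw [sub_add_sub_cancel]
    _ ≤ ‖x - y‖ + ‖y - star u * y * u‖ := norm_add_le _ _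
    _ ≤ γ + 2 * ε * (1 + γ) := by
        refine add_le_add hxy ((conj_near hu h y).trans ?_)
        gcongr

theorem conj_near_left {u : H →L[ℂ] H} (hu : IsU u) {ε : ℝ} (h : ‖u - 1‖ ≤ ε)
    {M N : VonNeumannAlgebra H} {γ : ℝ} (hn : Near N M γ) :
    Near (conjV u hu N) M (γ + 2 * ε) := by
  intro x hx hx1
  have hε : 0 ≤ ε := (norm_nonneg _).trans h
  have hn1 : ‖u * x * star u‖ ≤ 1 := by
    calc ‖u * x * star u‖ ≤ ‖u‖ * ‖x‖ * ‖star u‖ :=
          (norm_mul_le _ _).trans (mul_le_mul_of_nonneg_right (norm_mul_le _ _) (norm_nonneg _))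
      _ ≤ 1 * 1 * 1 := by
          gcongr
          · exact hu.norm_le
          · exact hu.star.norm_le
      _ = 1 := by norm_num
  obtain ⟨m, hm, hxm⟩ := hn _ hx hn1
  refine ⟨m, hm, ?_⟩
  have h1 := conj_near hu h (u * x * star u)
  rw [conj_inv' hu] at h1
  calc ‖x - m‖ = ‖(u * x * star u - m) - (u * x * star u - x)‖ := by rw [sub_sub_sub_cancel_left]
    _ ≤ ‖u * x * star u - m‖ + ‖u * x * star u - x‖ := norm_sub_le _ _
    _ ≤ γ + 2 * ε * 1 := by
        refine add_le_add hxm (h1.trans ?_)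
        gcongr
    _ = γ + 2 * ε := by ring

end Run7.h989.CC
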