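import Mathlib
import Pool.Agent.Run7.h989.CC.Comm

/-!
Orthogonal systems of trace vectors pass to close II_1 factors.
-/

open scoped ComplexOrder InnerProductSpace ComplexConjugate Topology
open Finset Filter

noncomputable section

namespace Run7.h989.CC

open H710R2.DP H759R2.Kad

variable {H : Type} [NormedAddCommGroup H] [InnerProductSpace ℂ H] [CompleteSpace H]

theorem Near.nonneg {M N : VonNeumannAlgebra H} {γ : ℝ} (h : Near M N γ) : 0 ≤ γ := by
  obtain ⟨y, _, hy⟩ := h 0 (zero_mem M) (by rw [norm_zero]; exact zero_le_one)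
  exact (norm_nonneg _).trans hy

/-- A maximal abelian subalgebra of `M` contained in a close algebra `N` is maximal abelian in
`N`. -/
theorem relcomm_sub {M N A : VonNeumannAlgebra H} (hA : ∀ a ∈ A, ∀ b ∈ A, a * b = b * a)
    (hAM : ∀ a ∈ A, a ∈ M) (hAN : ∀ a ∈ A, a ∈ N)
    (hmax : ∀ x ∈ M, (∀ a ∈ A, x * a = a * x) → x ∈ A) {γ : ℝ} (hγ : γ < 1)
    (hn : Near N M γ) {z : H →L[ℂ] H} (hz : z ∈ N) (hzA : ∀ a ∈ A, z * a = a * z) : z ∈ A := by
  have hγ0 := hn.nonneg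
  have hcl : IsClosed (A.toStarSubalgebra : Set (H →L[ℂ] H)) := vn_isClosed A
  have key : ∀ z ∈ N, (∀ a ∈ A, z * a = a * z) → ∃ a ∈ A, ‖z - a‖ ≤ γ * ‖z‖ := by
    intro z hz hzA
    rcases eq_or_ne z 0 with rfl | hz0
    · exact ⟨0, zero_mem A, by simp⟩
    · have hpos : 0 < ‖z‖ := norm_pos_iff.2 hz0
      set z' : H →L[ℂ] H := ((‖z‖⁻¹ : ℝ) : ℂ) • z with hz'
      have h1 : ‖z'‖ ≤ 1 := by
        rw [hz', norm_smul, Complex.norm_real, norm_inv, norm_norm]
        exact (inv_mul_cancel₀ hpos.ne').le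
      have hz'N : z' ∈ N := SMulMemClass.smul_mem (S := StarSubalgebra ℂ (H →L[ℂ] H))
            (s := N.toStarSubalgebra) _ hz
      have hz'A : ∀ a ∈ A, z' * a = a * z' := by
        intro a ha
        rw [hz', smul_mul_assoc, mul_smul_comm, hzA a ha]
      obtain ⟨m, hm, hzm⟩ := hn z' hz'N h1
      have h2 : Ex hA m ∈ A := hmax _ (ex_mem hA hAM hm) (ex_comm hA m)
      have h3 : ‖z' - Ex hA m‖ ≤ γ := by
        have h4 : z' - Ex hA m = Ex hA (z' - m) := by rw [ex_sub, ex_fix hA hz'A]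
        rw [h4]
        exact (ex_norm hA _).trans hzm
      refine ⟨(‖z‖ : ℂ) • Ex hA m, SMulMemClass.smul_mem (S := StarSubalgebra ℂ (H →L[ℂ] H))
            (s := A.toStarSubalgebra) _ h2, ?_⟩
      have h4 : z - (‖z‖ : ℂ) • Ex hA m = (‖z‖ : ℂ) • (z' - Ex hA m) := by
        rw [smul_sub, hz', smul_smul]
        congr 1
        rw [← Complex.ofReal_mul, mul_inv_cancel₀ hpos.ne', Complex.ofReal_one, one_smul]
      rw [h4, norm_smul, Complex.norm_real, norm_norm, mul_comm]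
      exact mul_le_mul_of_nonneg_right h3 (norm_nonneg _)
  by_contra hzn
  have hne : (A.toStarSubalgebra : Set (H →L[ℂ] H)).Nonempty := ⟨0, zero_mem A⟩
  have hr : 0 < Metric.infDist z (A.toStarSubalgebra : Set (H →L[ℂ] H)) :=
    (hcl.notMem_iff_infDist_pos hne).1 hzn
  set r := Metric.infDist z (A.toStarSubalgebra : Set (H →L[ℂ] H)) with hr'
  obtain ⟨a, ha, hza⟩ := (Metric.infDist_lt_iff hne).1 (show r < r + (1 - γ) * r by nlinarith)
  have haA : a ∈ A := ha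
  obtain ⟨a', ha', hza'⟩ := key (z - a) (sub_mem hz (hAN a haA)) fun b hb => by
    rw [sub_mul, mul_sub, hzA b hb, hA a haA b hb]
  have h1 : r ≤ dist z (a + a') := Metric.infDist_le_dist_of_mem (add_mem haA ha')
  rw [dist_eq_norm] at h1 hza
  have h2 : z - (a + a') = z - a - a' := by abel
  rw [h2] at h1
  have h3 : ‖z - a‖ * γ ≤ (r + (1 - γ) * r) * γ := mul_le_mul_of_nonneg_right hza.le hγ0
  have h4 : r * (1 - γ) ^ 2 ≤ 0 := by nlinarith
  have h5 : 0 < 1 - γ := by linarith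
  have h6 : 0 < r * (1 - γ) ^ 2 := by positivity
  linarith

/-- Reduction to dyadic projections in the partitions. -/
theorem fam_reduce {M : VonNeumannAlgebra H} {ζ : ℕ → H} (hζ : NTr M ζ) (hf : IsFac M)
    (hab : ∀ r, NoAb M r) {n : ℕ} {ξ : Fin n → H} {p : Fin n → (H →L[ℂ] H)}
    (h : Fam M ζ ξ p) (k : ℕ) :
    ∃ (ξ' : Fin n → H) (j : Fin n → ℕ), (∀ i, j i ≤ 2 ^ k) ∧
      Fam M ζ ξ' (fun i => ∑ l ∈ range (j i), (lvls hab k).D l) ∧
      ∀ i, (om ζ (p i)).re ≤ (om ζ (∑ l ∈ range (j i), (lvls hab k).D l)).re + 1 / 2 ^ k := by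
  set L := lvls hab k
  have hpos : (0 : ℝ) < 2 ^ k := by positivity
  let j : Fin n → ℕ := fun i => ⌊(2 : ℝ) ^ k * (om ζ (p i)).re⌋₊
  have h0 : ∀ i, 0 ≤ (om ζ (p i)).re := fun i => om_pr_nonneg hζ.sum (h.pr i)
  have h1 : ∀ i, (om ζ (p i)).re ≤ 1 := fun i => hζ.le_one (h.pr i)
  have hj1 : ∀ i, (j i : ℝ) ≤ 2 ^ k * (om ζ (p i)).re := fun i =>
    Nat.floor_le (mul_nonneg hpos.le (h0 i))
  have hj2 : ∀ i, 2 ^ k * (om ζ (p i)).re < j i + 1 := fun i => Nat.lt_floor_add_one _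
  have hjk : ∀ i, j i ≤ 2 ^ k := by
    intro i
    have : (j i : ℝ) ≤ 2 ^ k := (hj1 i).trans (by nlinarith [h1 i])
    exact_mod_cast this
  have hS : ∀ i, (om ζ (∑ l ∈ range (j i), L.D l)).re = j i / 2 ^ k := by
    intro i
    rw [om_sum hζ.sum, Complex.re_sum]
    have h2 : ∀ l ∈ range (j i), (om ζ (L.D l)).re = 1 / 2 ^ k := by
      intro l hl
      rw [om_D hζ L ((Finset.mem_range.1 hl).trans_le (hjk i)), Complex.ofReal_re]
    rw [Finset.sum_congr rfl h2, Finset.sum_const, card_range, nsmul_eq_mul]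
    ring
  have hSM : ∀ i, (∑ l ∈ range (j i), L.D l) ∈ M := fun i =>
    sum_mem fun l hl => L.D_mem ((Finset.mem_range.1 hl).trans_le (hjk i))
  have hv : ∀ i, ∃ v ∈ M, star v * v = ∑ l ∈ range (j i), L.D l ∧ p i * v = v := by
    intro i
    refine comp_of_le hζ hf (hSM i) (h.mem i) (L.S_pr (hjk i)) (h.pr i) ?_
    rw [hS i, div_le_iff₀ hpos]
    linarith [hj1 i]
  choose v hvM hv1 hv2 using hv
  refine ⟨fun i => (star (v i)) (ξ i), j, hjk, ⟨hSM, fun i => L.S_pr (hjk i), ?_⟩, ?_⟩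
  · intro i i' x hx
    have h2 : ⟪(star (v i')) (ξ i'), x ((star (v i)) (ξ i))⟫_ℂ =
        ⟪ξ i', (v i' * x * star (v i)) (ξ i)⟫_ℂ := by
      rw [inner_adj, star_star]
      rfl
    rw [h2, h.inner i i' _ (mul_mem (mul_mem (hvM i') hx) (star_mem (hvM i)))]
    split_ifs with hii
    · subst hii
      have h3 : star (v i) * p i = star (v i) := by
        have := congrArg star (hv2 i)
        rwa [star_mul, (h.pr i).1] at this
      have h4 : v i * x * star (v i) * p i = v i * (x * star (v i)) := by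
        rw [mul_assoc, h3, mul_assoc]
      rw [h4, hζ.comm _ (hvM i) _ (mul_mem hx (star_mem (hvM i))), mul_assoc, hv1 i]
    · rfl
  · intro i
    rw [hS i, ← add_div, le_div_iff₀ hpos]
    linarith [hj2 i]

theorem neg_one_mem_syms {A : VonNeumannAlgebra H} : (-1 : H →L[ℂ] H) ∈ syms A := by
  refine ⟨neg_mem (one_mem A), ?_, ?_⟩
  · rw [star_neg, star_one]
  · rw [neg_mul_neg, one_mul]

theorem CD_ge : 1 ≤ CD := by norm_num [CD]

/-- Systems pass to close factors. -/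
theorem transfer {M N : VonNeumannAlgebra H} {ζ ζ' : ℕ → H} (hM : NTr M ζ) (hf : IsFac M)
    (hab : ∀ r, NoAb M r) {τ : N.toStarSubalgebra →ₗ[ℂ] ℂ} (hN1 : IsII1 N τ) (hN : NTr N ζ')
    {δ : ℝ} (hδ : CD * δ ≤ 1 / 10 ^ 7) (hMN : Near M N δ) (hNM : Near N M δ)
    {n : ℕ} {ξ : Fin n → H} {p : Fin n → (H →L[ℂ] H)} (h : Fam M ζ ξ p) (k : ℕ) :
    ∃ (η : Fin n → H) (q : Fin n → (H →L[ℂ] H)), Fam N ζ' η q ∧
      ∑ i, (om ζ (p i)).re ≤ ∑ i, (om ζ' (q i)).re + n / 2 ^ k := by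
  have hδ0 : 0 ≤ δ := hMN.nonneg
  have hδ1 : δ ≤ 1 / 10 ^ 7 := by nlinarith [CD_ge]
  obtain ⟨ξ', j, hjk, hfam, hle⟩ := fam_reduce hM hf hab h k
  set d : Fin n → (H →L[ℂ] H) := fun i => ∑ l ∈ range (j i), (lvls hab k).D l with hd
  -- a maximal abelian subalgebra containing the partitions
  obtain ⟨A, hDA, hAM, hA, hmax⟩ := exists_masa M
    {x | ∃ k l, l < 2 ^ k ∧ x = (lvls hab k).D l}
    (by rintro _ ⟨k, l, hl, rfl⟩; exact (lvls hab k).D_mem hl)
    (by rintro _ ⟨k, l, hl, rfl⟩; exact (lvls hab k).D_star l)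
    (by rintro _ ⟨k, l, hl, rfl⟩ _ ⟨k', l', hl', rfl⟩; exact lvls_comm hab k k' hl hl')
  have hDA' : ∀ k, ∀ l < 2 ^ k, (lvls hab k).D l ∈ A := fun k l hl => hDA _ ⟨k, l, hl, rfl⟩
  have hdA : ∀ i, d i ∈ A := fun i =>
    sum_mem fun l hl => hDA' k l ((Finset.mem_range.1 hl).trans_le (hjk i))
  -- first conjugation
  obtain ⟨u₁, hu₁, hu₁n, hu₁N, -⟩ := pert (N := N) (isSymGrp_syms hA) (γ := δ)
    (by linarith) (fun g hg => hMN g (hAM g hg.1) ((isSymGrp_syms hA).isU hg).norm_le)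
  set N₁ := conjV u₁ hu₁ N with hN₁
  have hAN₁ : ∀ a ∈ A, a ∈ N₁ := by
    intro a ha
    rw [hN₁, mem_conjV]
    refine mem_of_comm fun t ht => ?_
    have h1 : ∀ g ∈ syms A, (star u₁ * t * u₁) * g = g * (star u₁ * t * u₁) := by
      intro g hg
      have h2 := ht _ (hu₁N g hg)
      calc star u₁ * t * u₁ * g = star u₁ * t * u₁ * g * (star u₁ * u₁) := by
            rw [hu₁.1, mul_one]
        _ = star u₁ * (t * (u₁ * g * star u₁)) * u₁ := by noncomm_ring
        _ = star u₁ * (u₁ * g * star u₁ * t) * u₁ := by rw [h2]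
        _ = (star u₁ * u₁) * g * (star u₁ * t * u₁) := by noncomm_ring
        _ = g * (star u₁ * t * u₁) := by rw [hu₁.1, one_mul]
    have h3 := comm_of_syms hA h1 a ha
    calc t * (u₁ * a * star u₁) = (u₁ * star u₁) * t * (u₁ * a * star u₁) := by
          rw [hu₁.2, one_mul]
      _ = u₁ * ((star u₁ * t * u₁) * a) * star u₁ := by noncomm_ring
      _ = u₁ * (a * (star u₁ * t * u₁)) * star u₁ := by rw [h3]
      _ = u₁ * a * star u₁ * t * (u₁ * star u₁) := by noncomm_ring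
      _ = u₁ * a * star u₁ * t := by rw [hu₁.2, mul_one]
  have hMN₁ := near_conj hu₁ hu₁n hMN
  have hN₁M := conj_near_left hu₁ hu₁n hNM
  -- second conjugation
  have hSBg : IsSymGrp (SB M A ξ') := SB_grp hAM hA
  have hSBnear : ∀ g ∈ SB M A ξ', ∃ y ∈ N₁.commutant, ‖g - y‖ ≤ 3 / 10 ^ 5 := by
    intro g hg
    have hgn := (hSBg.isU hg).norm_le
    obtain ⟨z, hz, hgz⟩ := comm_near hN1 (y := g) (γ := 2 * δ) (by linarith) (by
      intro x hx hx1
      obtain ⟨m, hm, hxm⟩ := hNM x hx hx1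
      have h1 : g * x - x * g = g * (x - m) - (x - m) * g := by
        rw [mul_sub, sub_mul, hg.1 m hm]
        abel
      rw [h1]
      calc ‖g * (x - m) - (x - m) * g‖ ≤ ‖g‖ * ‖x - m‖ + ‖x - m‖ * ‖g‖ :=
            (norm_sub_le _ _).trans (add_le_add (norm_mul_le _ _) (norm_mul_le _ _))
        _ ≤ 1 * δ + δ * 1 := by gcongr
        _ = 2 * δ := by ring)
    refine ⟨star u₁ * z * u₁, ?_, ?_⟩
    · rw [VonNeumannAlgebra.mem_commutant_iff]
      intro x hx
      have hx' : u₁ * x * star u₁ ∈ N := hx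
      have h2 := hz _ hx'
      calc x * (star u₁ * z * u₁) = (star u₁ * u₁) * x * (star u₁ * z * u₁) := by
            rw [hu₁.1, one_mul]
        _ = star u₁ * ((u₁ * x * star u₁) * z) * u₁ := by noncomm_ring
        _ = star u₁ * (z * (u₁ * x * star u₁)) * u₁ := by rw [h2]
        _ = star u₁ * z * u₁ * x * (star u₁ * u₁) := by noncomm_ring
        _ = star u₁ * z * u₁ * x := by rw [hu₁.1, mul_one]
    · have h3 : ‖g - z‖ ≤ 2 / 10 ^ 7 := hgz.trans (by linarith)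
      have hzn : ‖z‖ ≤ 2 := by
        calc ‖z‖ = ‖g - (g - z)‖ := by rw [sub_sub_cancel]
          _ ≤ ‖g‖ + ‖g - z‖ := norm_sub_le _ _
          _ ≤ 2 := by linarith
      have h4 := conj_near hu₁ hu₁n z
      have h5 : 2 * (130 * δ) * ‖z‖ ≤ 2 * (130 * δ) * (1 + 2 / 10 ^ 7) := by
        have hzn' : ‖z‖ ≤ 1 + 2 / 10 ^ 7 := by
          calc ‖z‖ = ‖g - (g - z)‖ := by rw [sub_sub_cancel]
            _ ≤ ‖g‖ + ‖g - z‖ := norm_sub_le _ _
            _ ≤ 1 + 2 / 10 ^ 7 := by linarith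
        gcongr
      calc ‖g - star u₁ * z * u₁‖ = ‖(g - z) + (z - star u₁ * z * u₁)‖ := by
            rw [sub_add_sub_cancel]
        _ ≤ ‖g - z‖ + ‖z - star u₁ * z * u₁‖ := norm_add_le _ _
        _ ≤ 3 / 10 ^ 5 := by linarith
  obtain ⟨u₂, hu₂, hu₂n, hu₂N, hu₂c⟩ := pert (N := N₁.commutant) hSBg (γ := 3 / 10 ^ 5)
    (by norm_num) hSBnear
  set N₂ := conjV u₂ hu₂ N₁ with hN₂
  have hAu₂ : ∀ a ∈ A, a * u₂ = u₂ * a := by
    intro a ha
    refine hu₂c a (fun x hx => ?_) (fun g hg => ?_)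
    · exact (VonNeumannAlgebra.mem_commutant_iff.1 hx) a (hAN₁ a ha)
    · exact (hg.1 a (hAM a ha)).symm
  have hAN₂ : ∀ a ∈ A, a ∈ N₂ := by
    intro a ha
    rw [hN₂, mem_conjV, ← hAu₂ a ha, mul_assoc, hu₂.2, mul_one]
    exact hAN₁ a ha
  have hSBN₂ : ∀ g ∈ SB M A ξ', ∀ x ∈ N₂, g * x = x * g := by
    intro g hg x hx
    have hx' : u₂ * x * star u₂ ∈ N₁ := hx
    have h2 := (VonNeumannAlgebra.mem_commutant_iff.1 (hu₂N g hg)) _ hx'
    calc g * x = (star u₂ * u₂) * g * (star u₂ * u₂) * x * (star u₂ * u₂) := by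
          rw [hu₂.1]; simp
      _ = star u₂ * ((u₂ * g * star u₂) * (u₂ * x * star u₂)) * u₂ := by noncomm_ring
      _ = star u₂ * ((u₂ * x * star u₂) * (u₂ * g * star u₂)) * u₂ := by rw [h2]
      _ = (star u₂ * u₂) * x * (star u₂ * u₂) * g * (star u₂ * u₂) := by noncomm_ring
      _ = x * g := by rw [hu₂.1]; simp
  have hMN₂ := near_conj hu₂ hu₂n hMN₁
  have hN₂M := conj_near_left hu₂ hu₂n hN₁M
  set γ₂ := (δ + 2 * (130 * δ) * (1 + δ)) + 2 * (130 * (3 / 10 ^ 5)) *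
    (1 + (δ + 2 * (130 * δ) * (1 + δ))) with hγ₂
  have hγ₂1 : γ₂ ≤ 1 / 4 := by
    rw [hγ₂]
    nlinarith
  have hγ₃1 : (δ + 2 * (130 * δ)) + 2 * (130 * (3 / 10 ^ 5)) < 1 := by
    linarith
  -- traces
  have hT₁ : NTr N₁ fun k => star u₁ (ζ' k) := hN.conj hu₁
  have hT₂ : NTr N₂ fun k => star u₂ (star u₁ (ζ' k)) := hT₁.conj hu₂
  set ζ₂ : ℕ → H := fun k => star u₂ (star u₁ (ζ' k)) with hζ₂
  have htr : ∀ a ∈ A, om ζ a = om ζ₂ a := fun a ha =>
    trace_eq_abelian hγ₂1 hMN₂ hM hT₂ hf hab hDA' hA hAM hAN₂ ha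
  -- the system is a system for `N₂`
  have hfam₂ : Fam N₂ ζ₂ ξ' d := by
    refine ⟨fun i => hAN₂ _ (hdA i), hfam.pr, fun i i' x hx => ?_⟩
    split_ifs with hii
    · subst hii
      -- invariance
      have hinv : ∀ u ∈ syms A, ⟪ξ' i, (u * x * u) (ξ' i)⟫_ℂ = ⟪ξ' i, x (ξ' i)⟫_ℂ := by
        intro u hu
        obtain ⟨g, hg, hgu⟩ := exists_sym hM hAM hA hfam hdA (fun _ => u) fun _ => hu
        have h1 : ⟪ξ' i, (u * x * u) (ξ' i)⟫_ℂ = ⟪u (ξ' i), x (u (ξ' i))⟫_ℂ := by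
          rw [inner_adj u, hu.2.1]
          rfl
        rw [h1, ← hgu i, inner_adj g, hg.2.1]
        have h2 : g (x (g (ξ' i))) = x (ξ' i) := by
          have h3 : g * x * g = x := by
            rw [hSBN₂ g hg x hx, mul_assoc, hg.2.2.1, mul_one]
          calc g (x (g (ξ' i))) = (g * x * g) (ξ' i) := rfl
            _ = x (ξ' i) := by rw [h3]
        rw [h2]
      have h1 : ⟪ξ' i, (Ex hA x) (ξ' i)⟫_ℂ = ⟪ξ' i, x (ξ' i)⟫_ℂ := by
        let _ := symG (isSymGrp_syms hA)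
        have h2 := av_tendsto (ex_bdd hA x) (ξ' i) (ξ' i)
        have h3 : ∀ s : Finset (syms A), ⟪ξ' i, avs (fun g : syms A => g.1 * x * g.1) s (ξ' i)⟫_ℂ =
            ⟪ξ' i, x (ξ' i)⟫_ℂ := by
          intro s
          have hc : ((cl s).card : ℂ) ≠ 0 := by exact_mod_cast (card_cl_pos s).ne'
          rw [avs, smul_apply, _root_.sum_apply, inner_smul_right, inner_sum,
            Finset.sum_congr rfl fun g _ => hinv g.1 g.2, Finset.sum_const, nsmul_eq_mul,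
            ← mul_assoc, inv_mul_cancel₀ hc, one_mul]
        simp only [h3] at h2
        exact (tendsto_nhds_unique h2 tendsto_const_nhds)
      have hExN : Ex hA x ∈ N₂ := ex_mem hA hAN₂ hx
      have hExA : Ex hA x ∈ A :=
        relcomm_sub hA hAM hAN₂ hmax hγ₃1 hN₂M hExN (ex_comm hA x)
      have h4 := hfam.inner i i (Ex hA x) (hAM _ hExA)
      rw [if_pos rfl] at h4
      rw [← h1, h4]
      change om ζ (Ex hA x * d i) = om ζ₂ (x * d i)
      rw [htr _ (mul_mem hExA (hdA i)), ← ex_mul hA (fun a ha => hA _ (hdA i) a ha)]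
      let _ := symG (isSymGrp_syms hA)
      refine om_av hT₂.sum (ex_bdd hA (x * d i)) fun g => ?_
      have h5 := hT₂.comm _ (mul_mem (hAN₂ _ g.2.1) (mul_mem hx (hAN₂ _ (hdA i)))) _
        (hAN₂ _ g.2.1)
      rw [h5, ← mul_assoc, g.2.2.2, one_mul]
    · obtain ⟨g, hg, hgu⟩ := exists_sym hM hAM hA hfam hdA (fun l => if l = i then -1 else 1)
        (fun l => by
          split_ifs
          · exact neg_one_mem_syms
          · exact (isSymGrp_syms hA).one)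
      have h1 : g (ξ' i) = -ξ' i := by
        rw [hgu i, if_pos rfl]
        simp
      have h2 : g (ξ' i') = ξ' i' := by
        rw [hgu i', if_neg (Ne.symm hii)]
        rfl
      have h3 : ⟪ξ' i', x (ξ' i)⟫_ℂ = -⟪ξ' i', x (ξ' i)⟫_ℂ := by
        calc ⟪ξ' i', x (ξ' i)⟫_ℂ = ⟪g (ξ' i'), x (ξ' i)⟫_ℂ := by rw [h2]
          _ = ⟪ξ' i', (g * x) (ξ' i)⟫_ℂ := by rw [inner_adj, hg.2.1]; rfl
          _ = ⟪ξ' i', (x * g) (ξ' i)⟫_ℂ := by rw [hSBN₂ g hg x hx]
          _ = -⟪ξ' i', x (ξ' i)⟫_ℂ := by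
              rw [mul_apply_eq_comp, h1, map_neg, inner_neg_right]
      exact self_eq_neg.1 h3
  -- back to `N`
  set U := u₁ * u₂ with hU
  have hUU : IsU U := hu₁.mul hu₂
  have hUN : ∀ x ∈ N, star U * x * U ∈ N₂ := by
    intro x hx
    rw [hN₂, mem_conjV, hN₁, mem_conjV]
    have h1 : u₁ * (u₂ * (star U * x * U) * star u₂) * star u₁ = x := by
      rw [hU, star_mul]
      calc u₁ * (u₂ * (star u₂ * star u₁ * x * (u₁ * u₂)) * star u₂) * star u₁
          = u₁ * ((u₂ * star u₂) * (star u₁ * x * u₁) * (u₂ * star u₂)) * star u₁ := by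
            noncomm_ring
        _ = x := by rw [hu₂.2, one_mul, mul_one, conj_inv hu₁]
    rw [h1]
    exact hx
  have hUN₂ : ∀ x ∈ N₂, U * x * star U ∈ N := by
    intro x hx
    have hx' : u₁ * (u₂ * x * star u₂) * star u₁ ∈ N := hx
    have h1 : U * x * star U = u₁ * (u₂ * x * star u₂) * star u₁ := by
      rw [hU, star_mul]
      noncomm_ring
    rw [h1]
    exact hx'
  have hom : ∀ x, om ζ₂ x = om ζ' (U * x * star U) := by
    intro x
    have h1 : ζ₂ = fun k => star U (ζ' k) := by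
      funext k
      rw [hζ₂, hU, star_mul]
      rfl
    rw [h1, om_conj]
  refine ⟨fun i => U (ξ' i), fun i => U * d i * star U, ⟨fun i => hUN₂ _ (hAN₂ _ (hdA i)),
    fun i => ?_, fun i i' x hx => ?_⟩, ?_⟩
  · have h1 := hfam.pr i
    refine ⟨?_, ?_⟩
    · rw [star_mul (U * d i) (star U), star_star, star_mul U (d i), h1.1]
      exact (mul_assoc _ _ _).symm
    · calc U * d i * star U * (U * d i * star U) = U * d i * (star U * U) * d i * star U := by
            noncomm_ring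
        _ = U * (d i * d i) * star U := by rw [hUU.1]; noncomm_ring
        _ = U * d i * star U := by rw [h1.2]
  · have h1 : ⟪U (ξ' i'), x (U (ξ' i))⟫_ℂ = ⟪ξ' i', (star U * x * U) (ξ' i)⟫_ℂ := by
      rw [inner_adj]
      rfl
    rw [h1, hfam₂.inner i i' _ (hUN x hx)]
    split_ifs with hii
    · rw [hom]
      congr 1
      calc U * (star U * x * U * d i) * star U = (U * star U) * x * (U * d i * star U) := by
            noncomm_ring
        _ = x * (U * d i * star U) := by rw [hUU.2, one_mul]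
    · rfl
  · have h1 : ∀ i, (om ζ' (U * d i * star U)).re = (om ζ (d i)).re := by
      intro i
      rw [← hom, htr _ (hdA i)]
    rw [Finset.sum_congr rfl fun i _ => h1 i]
    calc ∑ i, (om ζ (p i)).re ≤ ∑ i, ((om ζ (d i)).re + 1 / 2 ^ k) :=
          Finset.sum_le_sum fun i _ => hle i
      _ = ∑ i, (om ζ (d i)).re + n / 2 ^ k := by
          rw [Finset.sum_add_distrib, Finset.sum_const, Finset.card_univ, Fintype.card_fin,
            nsmul_eq_mul]
          ring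

end Run7.h989.CC
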