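import Mathlib
import Pool.Agent.Run7.h989.CC.Fin

/-!
Close II_1 factors have the same coupling constant, whatever the size of the coupling constant.
-/

open scoped ComplexOrder InnerProductSpace ComplexConjugate Topology ENNReal
open Finset Filter

noncomputable section

namespace Run7.h989.CC.Sub

section defs

variable {H : Type} [NormedAddCommGroup H] [InnerProductSpace ℂ H] [CompleteSpace H]

/-- `M` is a II_1 factor on `H` and `τ` is its faithful normal tracial state: the centre is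
trivial, `M` is infinite dimensional, and `τ` is a tracial state which is faithful and normal,
that is of the form `x ↦ ∑ₖ ⟨ζₖ, x ζₖ⟩` with `∑ₖ ‖ζₖ‖² < ∞`. -/
structure IsIIOneFactor (M : VonNeumannAlgebra H) (τ : M.toStarSubalgebra →ₗ[ℂ] ℂ) : Prop where
  center : ∀ z ∈ M, (∀ a ∈ M, z * a = a * z) → ∃ c : ℂ, z = c • 1
  infinite : ¬ FiniteDimensional ℂ M.toStarSubalgebra
  one : τ 1 = 1
  pos : ∀ a, 0 ≤ τ (star a * a)
  comm : ∀ a b, τ (a * b) = τ (b * a)
  faithful : ∀ a, τ (star a * a) = 0 → a = 0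
  normal : ∃ ζ : ℕ → H, Summable (fun k => ‖ζ k‖ ^ 2) ∧
    ∀ a : M.toStarSubalgebra, τ a = ∑' k, ⟪ζ k, (a : H →L[ℂ] H) (ζ k)⟫_ℂ

/-- The closed unit ball of `M`. -/
def unitBall (M : VonNeumannAlgebra H) : Set (H →L[ℂ] H) := {x | x ∈ M ∧ ‖x‖ ≤ 1}

/-- The Kadison-Kastler distance. -/
def kkDist (M N : VonNeumannAlgebra H) : ℝ := Metric.hausdorffDist (unitBall M) (unitBall N)

/-- Vectors `ξ i` and projections `p i` of `M` with `⟨ξ j, x ξ i⟩ = δ_ij τ(x p i)` for all `x` in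
`M`. Then `x ξ i ↦ x p i` induces an isomorphism of left `M`-modules from the closure of
`⨁ M ξ i` in `H` onto `⨁ L²(M, τ) p i`. -/
structure IsSystem (M : VonNeumannAlgebra H) (τ : M.toStarSubalgebra →ₗ[ℂ] ℂ) {ι : Type}
    [DecidableEq ι] (ξ : ι → H) (p : ι → M.toStarSubalgebra) : Prop where
  proj : ∀ i, star (p i) = p i ∧ p i * p i = p i
  inner : ∀ i j, ∀ x : M.toStarSubalgebra,
    ⟪ξ j, (x : H →L[ℂ] H) (ξ i)⟫_ℂ = if i = j then τ (x * p i) else 0

/-- The Murray-von Neumann dimension `dim_M H ∈ [0, ∞]`: the supremum of the dimensions `∑ τ(p i)`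
of the submodules of `H` isomorphic to a finite sum `⨁ L²(M, τ) p i`. -/
def vnDim (M : VonNeumannAlgebra H) (τ : M.toStarSubalgebra →ₗ[ℂ] ℂ) : ℝ≥0∞ :=
  ⨆ (n : ℕ) (ξ : Fin n → H) (p : Fin n → M.toStarSubalgebra) (_ : IsSystem M τ ξ p),
    ∑ i, ENNReal.ofReal (τ (p i)).re

/-- The vectors `x ξ i` span a dense subspace, that is `H ≅ ⨁ L²(M, τ) p i`. -/
def IsComplete (M : VonNeumannAlgebra H) {ι : Type} (ξ : ι → H) : Prop :=
  (Submodule.span ℂ {η : H | ∃ x ∈ M, ∃ i, η = x (ξ i)}).topologicalClosure = ⊤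

end defs

open Run7.h989.CC H759R2.Kad H710R2.DP

section lemmas

variable {H : Type} [NormedAddCommGroup H] [InnerProductSpace ℂ H] [CompleteSpace H]
variable {M : VonNeumannAlgebra H} {τ : M.toStarSubalgebra →ₗ[ℂ] ℂ}

theorem IsIIOneFactor.isII1 (h : IsIIOneFactor M τ) : IsII1 M τ :=
  ⟨h.center, h.infinite, ⟨h.one, h.pos, h.comm⟩, h.faithful⟩

theorem IsIIOneFactor.exists_ntr (h : IsIIOneFactor M τ) :
    ∃ ζ : ℕ → H, NTr M ζ ∧ ∀ a : M.toStarSubalgebra, τ a = om ζ (a : H →L[ℂ] H) := by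
  obtain ⟨ζ, hζ, hτ⟩ := h.normal
  refine ⟨ζ, ⟨hζ, ?_, fun x hx y hy => ?_, fun x hx h0 => ?_⟩, hτ⟩
  · have h1 := hτ 1
    rw [h.one] at h1
    exact h1.symm
  · have h1 := hτ (⟨x, hx⟩ * ⟨y, hy⟩)
    have h2 := hτ (⟨y, hy⟩ * ⟨x, hx⟩)
    rw [h.comm] at h1
    exact h1.symm.trans h2
  · have h1 := hτ (star ⟨x, hx⟩ * ⟨x, hx⟩)
    have h2 : τ (star ⟨x, hx⟩ * ⟨x, hx⟩) = 0 := h1.trans h0
    exact congrArg Subtype.val (h.faithful _ h2)

theorem IsIIOneFactor.noAb (h : IsIIOneFactor M τ) (r : H →L[ℂ] H) : NoAb M r := by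
  have hcomp : F_comp.{0} := prove5_comp prove5_join prove5_polar prove5_chain
  exact Run7.h989.CC.noAb h.center (prove5_nomin prove5_range hcomp H M τ h.isII1) r

theorem near_of_kk {N : VonNeumannAlgebra H} {δ : ℝ} (h : kkDist M N < δ) : Near M N δ := by
  intro x hx hx1
  have h0 : ∀ P : VonNeumannAlgebra H, (unitBall P).Nonempty := fun P =>
    ⟨0, zero_mem P, by rw [norm_zero]; exact zero_le_one⟩
  have hfin : Metric.hausdorffEDist (unitBall M) (unitBall N) ≠ ⊤ := by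
    refine Metric.hausdorffEDist_ne_top_of_nonempty_of_bounded (h0 M) (h0 N) ?_ ?_
    · refine (Metric.isBounded_closedBall (x := (0 : H →L[ℂ] H)) (r := 1)).subset ?_
      intro y hy
      exact mem_closedBall_zero_iff.2 hy.2
    · refine (Metric.isBounded_closedBall (x := (0 : H →L[ℂ] H)) (r := 1)).subset ?_
      intro y hy
      exact mem_closedBall_zero_iff.2 hy.2
  obtain ⟨y, hy, hxy⟩ := Metric.exists_dist_lt_of_hausdorffDist_lt (s := unitBall M)
    (show x ∈ unitBall M from ⟨hx, hx1⟩) h hfin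
  exact ⟨y, hy.1, by rw [← dist_eq_norm]; exact hxy.le⟩

/-- From systems to families. -/
theorem IsSystem.fam {ζ : ℕ → H} (hζ : ∀ a : M.toStarSubalgebra, τ a = om ζ (a : H →L[ℂ] H))
    {n : ℕ} {ξ : Fin n → H} {p : Fin n → M.toStarSubalgebra} (h : IsSystem M τ ξ p) :
    Fam M ζ ξ fun i => (p i : H →L[ℂ] H) := by
  refine ⟨fun i => (p i).2, fun i => ⟨congrArg Subtype.val (h.proj i).1,
    congrArg Subtype.val (h.proj i).2⟩, fun i j x hx => ?_⟩
  have h1 := h.inner i j ⟨x, hx⟩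
  rw [hζ] at h1
  exact h1

theorem dim_le_of_close {M N : VonNeumannAlgebra H} {τ : M.toStarSubalgebra →ₗ[ℂ] ℂ}
    {σ : N.toStarSubalgebra →ₗ[ℂ] ℂ} (hM : IsIIOneFactor M τ) (hN : IsIIOneFactor N σ)
    {δ : ℝ} (hδ : CD * δ ≤ 1 / 10 ^ 7) (hMN : Near M N δ) (hNM : Near N M δ) :
    vnDim M τ ≤ vnDim N σ := by
  obtain ⟨ζ, hζ, hτ⟩ := hM.exists_ntr
  obtain ⟨ζ', hζ', hσ⟩ := hN.exists_ntr
  refine iSup_le fun n => iSup_le fun ξ => iSup_le fun p => iSup_le fun h => ?_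
  have hnn : ∀ i, 0 ≤ (τ (p i)).re := by
    intro i
    rw [hτ]
    exact om_pr_nonneg hζ.sum ((h.fam hτ).pr i)
  rw [← ENNReal.ofReal_sum_of_nonneg fun i _ => hnn i]
  have key : ∀ k : ℕ, ENNReal.ofReal (∑ i, (τ (p i)).re) ≤
      vnDim N σ + ENNReal.ofReal (n / 2 ^ k) := by
    intro k
    obtain ⟨η, q, hq, hle⟩ := transfer hζ hM.center hM.noAb hN.isII1 hζ' hδ hMN hNM (h.fam hτ) k
    have hsys : IsSystem N σ η fun i => (⟨q i, hq.mem i⟩ : N.toStarSubalgebra) := by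
      refine ⟨fun i => ⟨Subtype.ext (hq.pr i).1, Subtype.ext (hq.pr i).2⟩, fun i j x => ?_⟩
      rw [hσ]
      exact hq.inner i j x.1 x.2
    have hnn' : ∀ i, 0 ≤ (om ζ' (q i)).re := fun i => om_pr_nonneg hζ'.sum (hq.pr i)
    have h1 : ENNReal.ofReal (∑ i, (om ζ' (q i)).re) ≤ vnDim N σ := by
      rw [ENNReal.ofReal_sum_of_nonneg fun i _ => hnn' i]
      have h2 : ∀ i, (om ζ' (q i)).re = (σ (⟨q i, hq.mem i⟩ : N.toStarSubalgebra)).re := by
        intro i
        rw [hσ]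
      rw [Finset.sum_congr rfl fun i _ => by rw [h2 i]]
      exact le_iSup_of_le n (le_iSup_of_le η (le_iSup_of_le _ (le_iSup_of_le hsys le_rfl)))
    have h3 : ∑ i, (τ (p i)).re ≤ ∑ i, (om ζ' (q i)).re + n / 2 ^ k := by
      refine le_trans (le_of_eq ?_) hle
      exact Finset.sum_congr rfl fun i _ => by rw [hτ]
    calc ENNReal.ofReal (∑ i, (τ (p i)).re)
        ≤ ENNReal.ofReal (∑ i, (om ζ' (q i)).re + n / 2 ^ k) := ENNReal.ofReal_le_ofReal h3
      _ ≤ ENNReal.ofReal (∑ i, (om ζ' (q i)).re) + ENNReal.ofReal (n / 2 ^ k) :=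
          ENNReal.ofReal_add_le
      _ ≤ vnDim N σ + ENNReal.ofReal (n / 2 ^ k) := add_le_add h1 le_rfl
  have hlim : Tendsto (fun k : ℕ => vnDim N σ + ENNReal.ofReal ((n : ℝ) / 2 ^ k)) atTop
      (𝓝 (vnDim N σ + ENNReal.ofReal 0)) := by
    refine tendsto_const_nhds.add ?_
    refine ENNReal.tendsto_ofReal ?_
    have h1 : Tendsto (fun k : ℕ => (n : ℝ) * (1 / 2) ^ k) atTop (𝓝 (n * 0)) :=
      (tendsto_pow_atTop_nhds_zero_of_lt_one (by norm_num) (by norm_num)).const_mul _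
    rw [mul_zero] at h1
    refine h1.congr fun k => ?_
    rw [one_div, inv_pow]
    rfl
  rw [ENNReal.ofReal_zero, add_zero] at hlim
  exact ge_of_tendsto' hlim key

/-! ### The dimension computed from a complete system -/

section complete

variable (h : IsIIOneFactor M τ)
include h

theorem trace_re_nonneg (a : M.toStarSubalgebra) : 0 ≤ (τ (star a * a)).re :=
  (Complex.nonneg_iff.1 (h.pos a)).1

theorem proj_nonneg {p : M.toStarSubalgebra} (hp : star p = p ∧ p * p = p) : 0 ≤ (τ p).re := by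
  have h1 := trace_re_nonneg h p
  rwa [hp.1, hp.2] at h1

omit h in
theorem inner_adj' (x : M.toStarSubalgebra) (ξ η : H) :
    ⟪(x : H →L[ℂ] H) ξ, η⟫_ℂ = ⟪ξ, ((star x : M.toStarSubalgebra) : H →L[ℂ] H) η⟫_ℂ :=
  inner_adj _ _ _

omit h in
theorem mul_app (x y : M.toStarSubalgebra) (ξ : H) :
    ((x * y : M.toStarSubalgebra) : H →L[ℂ] H) ξ = (x : H →L[ℂ] H) ((y : H →L[ℂ] H) ξ) := rfl

omit h in
/-- The norm of a combination of a system. -/
theorem norm_comb {ι : Type} [DecidableEq ι] {ξ : ι → H} {p : ι → M.toStarSubalgebra}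
    (hs : IsSystem M τ ξ p) (F : Finset ι) (x : ι → M.toStarSubalgebra) :
    ‖∑ i ∈ F, (x i : H →L[ℂ] H) (ξ i)‖ ^ 2 = ∑ i ∈ F, (τ (star (x i) * x i * p i)).re := by
  have h1 : ⟪∑ i ∈ F, (x i : H →L[ℂ] H) (ξ i), ∑ i ∈ F, (x i : H →L[ℂ] H) (ξ i)⟫_ℂ =
      ∑ i ∈ F, τ (star (x i) * x i * p i) := by
    rw [sum_inner]
    refine Finset.sum_congr rfl fun j hj => ?_
    rw [inner_sum, Finset.sum_eq_single j]
    · rw [inner_adj', ← mul_app, hs.inner j j, if_pos rfl]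
    · intro i _ hij
      rw [inner_adj', ← mul_app, hs.inner i j, if_neg hij]
    · intro hj'
      exact absurd hj hj'
  rw [inner_self_eq_norm_sq_to_K] at h1
  have h2 := congrArg Complex.re h1
  rw [Complex.re_sum] at h2
  rw [← h2]
  norm_cast

omit h in
theorem proj_apply {ι : Type} [DecidableEq ι] {ξ : ι → H} {p : ι → M.toStarSubalgebra}
    (hs : IsSystem M τ ξ p) (i : ι) : (p i : H →L[ℂ] H) (ξ i) = ξ i := by
  have h1 : ‖((p i - 1 : M.toStarSubalgebra) : H →L[ℂ] H) (ξ i)‖ ^ 2 = 0 := by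
    have h2 := norm_comb hs {i} fun _ => p i - 1
    rw [Finset.sum_singleton, Finset.sum_singleton] at h2
    rw [h2]
    have h3 : star (p i - 1) * (p i - 1) * p i = 0 := by
      rw [mul_assoc, sub_mul (p i) 1 (p i), one_mul, (hs.proj i).2, sub_self, mul_zero]
    rw [h3, map_zero, Complex.zero_re]
  have h2 : ((p i - 1 : M.toStarSubalgebra) : H →L[ℂ] H) (ξ i) = 0 := by
    rw [← norm_eq_zero]
    exact pow_eq_zero_iff (two_ne_zero) |>.1 h1
  have h3 : ((p i - 1 : M.toStarSubalgebra) : H →L[ℂ] H) (ξ i) =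
      (p i : H →L[ℂ] H) (ξ i) - ξ i := rfl
  rw [h3] at h2
  exact sub_eq_zero.1 h2

omit h in
theorem norm_sq_vec {ι : Type} [DecidableEq ι] {ξ : ι → H} {p : ι → M.toStarSubalgebra}
    (hs : IsSystem M τ ξ p) (i : ι) : ‖ξ i‖ ^ 2 = (τ (p i)).re := by
  have h2 := norm_comb hs {i} fun _ => 1
  rw [Finset.sum_singleton, Finset.sum_singleton, star_one, one_mul, one_mul] at h2
  rw [← h2]
  rfl

omit h in
theorem norm_proj_le {q : M.toStarSubalgebra} (hq : star q = q ∧ q * q = q) (v : H) :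
    ‖(q : H →L[ℂ] H) v‖ ≤ ‖v‖ := by
  have h1 : ‖(q : H →L[ℂ] H)‖ ≤ 1 := by
    have h2 : ‖(q : H →L[ℂ] H)‖ * ‖(q : H →L[ℂ] H)‖ = ‖(q : H →L[ℂ] H)‖ := by
      rw [← CStarRing.norm_star_mul_self]
      congr 1
      have h3 := congrArg Subtype.val hq.1
      have h4 := congrArg Subtype.val hq.2
      change star (q : H →L[ℂ] H) = q at h3
      change (q : H →L[ℂ] H) * q = q at h4
      rw [h3, h4]
    nlinarith [norm_nonneg (q : H →L[ℂ] H)]
  calc ‖(q : H →L[ℂ] H) v‖ ≤ ‖(q : H →L[ℂ] H)‖ * ‖v‖ := (q : H →L[ℂ] H).le_opNorm v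
    _ ≤ 1 * ‖v‖ := mul_le_mul_of_nonneg_right h1 (norm_nonneg _)
    _ = ‖v‖ := one_mul _

/-- The comparison of two systems. -/
theorem system_le {ι : Type} [DecidableEq ι] {ξ : ι → H} {p : ι → M.toStarSubalgebra}
    (hs : IsSystem M τ ξ p) {m : ℕ} {η : Fin m → H} {q : Fin m → M.toStarSubalgebra}
    (ht : IsSystem M τ η q) (F : Finset ι) (x : Fin m → ι → M.toStarSubalgebra) {ε : ℝ}
    (hε : 0 ≤ ε) (hx : ∀ j, ‖η j - ∑ i ∈ F, (x j i : H →L[ℂ] H) (ξ i)‖ ≤ ε) :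
    ∑ j, (τ (q j)).re ≤ ∑ i ∈ F, (τ (p i)).re + m * ε ^ 2 := by
  let y : Fin m → ι → M.toStarSubalgebra := fun j i => q j * x j i * p i
  have hyp : ∀ j i, y j i * p i = y j i := fun j i => by
    change q j * x j i * p i * p i = _
    rw [mul_assoc, (hs.proj i).2]
  have hqy : ∀ j i, q j * y j i = y j i := fun j i => by
    change q j * (q j * x j i * p i) = _
    rw [← mul_assoc, ← mul_assoc, (ht.proj j).2]
  have hyq : ∀ j i, star (y j i) * q j = star (y j i) := fun j i => by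
    have h1 := congrArg star (hqy j i)
    rwa [star_mul, (ht.proj j).1] at h1
  let v : Fin m → H := fun j => ∑ i ∈ F, (y j i : H →L[ℂ] H) (ξ i)
  have hv : ∀ j, ‖η j - v j‖ ≤ ε := by
    intro j
    have h1 : η j - v j = (q j : H →L[ℂ] H) (η j - ∑ i ∈ F, (x j i : H →L[ℂ] H) (ξ i)) := by
      rw [map_sub, proj_apply ht j, map_sum]
      congr 1
      refine Finset.sum_congr rfl fun i _ => ?_
      change ((q j * x j i * p i : M.toStarSubalgebra) : H →L[ℂ] H) (ξ i) = _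
      rw [mul_app, proj_apply hs i, mul_app]
    rw [h1]
    exact (norm_proj_le (ht.proj j) _).trans (hx j)
  let w : ι → H := fun i => ∑ j, ((star (y j i) : M.toStarSubalgebra) : H →L[ℂ] H) (η j)
  have hvn : ∀ j, ‖v j‖ ^ 2 = ∑ i ∈ F, (τ (star (y j i) * y j i)).re := by
    intro j
    rw [norm_comb hs F (y j)]
    refine Finset.sum_congr rfl fun i _ => ?_
    rw [mul_assoc, hyp]
  have hwn : ∀ i, ‖w i‖ ^ 2 = ∑ j, (τ (star (y j i) * y j i)).re := by
    intro i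
    have h1 := norm_comb ht Finset.univ fun j => star (y j i)
    refine h1.trans (Finset.sum_congr rfl fun j _ => ?_)
    rw [star_star, mul_assoc, hyq, h.comm]
  have hin : ∑ j, (⟪v j, η j⟫_ℂ).re = ∑ i ∈ F, (⟪ξ i, w i⟫_ℂ).re := by
    have h1 : ∀ j, ⟪v j, η j⟫_ℂ = ∑ i ∈ F,
        ⟪ξ i, ((star (y j i) : M.toStarSubalgebra) : H →L[ℂ] H) (η j)⟫_ℂ := by
      intro j
      rw [sum_inner]
      exact Finset.sum_congr rfl fun i _ => inner_adj' _ _ _
    have h2 : ∀ i, ⟪ξ i, w i⟫_ℂ = ∑ j,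
        ⟪ξ i, ((star (y j i) : M.toStarSubalgebra) : H →L[ℂ] H) (η j)⟫_ℂ := fun i => inner_sum _ _ _
    simp only [h1, h2, Complex.re_sum]
    exact Finset.sum_comm
  have hup : ∀ i, (⟪ξ i, w i⟫_ℂ).re ≤ ((τ (p i)).re + ‖w i‖ ^ 2) / 2 := by
    intro i
    have h1 : (⟪ξ i, w i⟫_ℂ).re ≤ ‖ξ i‖ * ‖w i‖ :=
      (Complex.re_le_norm _).trans (norm_inner_le_norm _ _)
    rw [← norm_sq_vec hs i]
    nlinarith [sq_nonneg (‖ξ i‖ - ‖w i‖)]
  have hlow : ∀ j, ((τ (q j)).re + ‖v j‖ ^ 2 - ε ^ 2) / 2 ≤ (⟪v j, η j⟫_ℂ).re := by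
    intro j
    have h1 := norm_sub_sq (𝕜 := ℂ) (η j) (v j)
    have h2 : (⟪η j, v j⟫_ℂ).re = (⟪v j, η j⟫_ℂ).re := by
      rw [← inner_conj_symm, Complex.conj_re]
    have h3 : ‖η j - v j‖ ^ 2 ≤ ε ^ 2 := pow_le_pow_left₀ (norm_nonneg _) (hv j) 2
    have h4 : RCLike.re ⟪η j, v j⟫_ℂ = (⟪v j, η j⟫_ℂ).re := h2
    rw [h4] at h1
    rw [← norm_sq_vec ht j]
    linarith
  have h1 : ∑ j, ((τ (q j)).re + ‖v j‖ ^ 2 - ε ^ 2) / 2 ≤
      ∑ i ∈ F, ((τ (p i)).re + ‖w i‖ ^ 2) / 2 := by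
    calc _ ≤ ∑ j, (⟪v j, η j⟫_ℂ).re := Finset.sum_le_sum fun j _ => hlow j
      _ = ∑ i ∈ F, (⟪ξ i, w i⟫_ℂ).re := hin
      _ ≤ _ := Finset.sum_le_sum fun i _ => hup i
  have h2 : ∑ j, ‖v j‖ ^ 2 = ∑ i ∈ F, ‖w i‖ ^ 2 := by
    simp only [hvn, hwn]
    exact Finset.sum_comm
  rw [← Finset.sum_div, ← Finset.sum_div, Finset.sum_sub_distrib, Finset.sum_add_distrib,
    Finset.sum_add_distrib, h2, Finset.sum_const, Finset.card_univ, Fintype.card_fin,
    nsmul_eq_mul] at h1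
  linarith

/-- Approximation by combinations of a complete system. -/
theorem exists_comb {ι : Type} [DecidableEq ι] {ξ : ι → H} (hc : IsComplete M ξ) (η : H) {ε : ℝ}
    (hε : 0 < ε) : ∃ (F : Finset ι) (x : ι → M.toStarSubalgebra), (∀ i ∉ F, x i = 0) ∧
      ‖η - ∑ i ∈ F, (x i : H →L[ℂ] H) (ξ i)‖ ≤ ε := by
  have h1 : η ∈ (Submodule.span ℂ {η : H | ∃ x ∈ M, ∃ i, η = x (ξ i)}).topologicalClosure := by
    rw [hc]
    exact Submodule.mem_top
  obtain ⟨v, hv, hd⟩ := Metric.mem_closure_iff.1 h1 ε hε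
  have key : ∀ v ∈ Submodule.span ℂ {η : H | ∃ x ∈ M, ∃ i, η = x (ξ i)},
      ∃ (F : Finset ι) (x : ι → M.toStarSubalgebra), (∀ i ∉ F, x i = 0) ∧
        v = ∑ i ∈ F, (x i : H →L[ℂ] H) (ξ i) := by
    intro v hv
    induction hv using Submodule.span_induction with
    | mem v hv =>
      obtain ⟨x, hx, i, rfl⟩ := hv
      refine ⟨{i}, Pi.single i ⟨x, hx⟩, fun j hj => ?_, ?_⟩
      · rw [Pi.single_eq_of_ne]
        exact fun hji => hj (Finset.mem_singleton.2 hji)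
      · rw [Finset.sum_singleton, Pi.single_eq_same]
    | zero => exact ⟨∅, 0, fun _ _ => rfl, by simp⟩
    | add v w _ _ hv hw =>
      obtain ⟨F, x, hx, rfl⟩ := hv
      obtain ⟨F', x', hx', rfl⟩ := hw
      refine ⟨F ∪ F', x + x', fun i hi => ?_, ?_⟩
      · rw [Finset.mem_union, not_or] at hi
        rw [Pi.add_apply, hx i hi.1, hx' i hi.2, add_zero]
      · have e1 : ∑ i ∈ F, (x i : H →L[ℂ] H) (ξ i) = ∑ i ∈ F ∪ F', (x i : H →L[ℂ] H) (ξ i) := by
          refine Finset.sum_subset Finset.subset_union_left fun i _ hi => ?_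
          rw [hx i hi]
          rfl
        have e2 : ∑ i ∈ F', (x' i : H →L[ℂ] H) (ξ i) = ∑ i ∈ F ∪ F', (x' i : H →L[ℂ] H) (ξ i) := by
          refine Finset.sum_subset Finset.subset_union_right fun i _ hi => ?_
          rw [hx' i hi]
          rfl
        rw [e1, e2, ← Finset.sum_add_distrib]
        rfl
    | smul c v _ hv =>
      obtain ⟨F, x, hx, rfl⟩ := hv
      refine ⟨F, c • x, fun i hi => ?_, ?_⟩
      · rw [Pi.smul_apply, hx i hi, smul_zero]
      · rw [Finset.smul_sum]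
        rfl
  obtain ⟨F, x, hx, rfl⟩ := key v hv
  exact ⟨F, x, hx, by rw [← dist_eq_norm]; exact hd.le⟩

/-- If `H` is isomorphic to `⨁ L²(M, τ) p i`, over any index set, then `dim_M H = ∑ τ(p i)`. -/
theorem vnDim_eq {ι : Type} [DecidableEq ι] {ξ : ι → H} {p : ι → M.toStarSubalgebra}
    (hs : IsSystem M τ ξ p) (hc : IsComplete M ξ) :
    vnDim M τ = ∑' i, ENNReal.ofReal (τ (p i)).re := by
  refine le_antisymm ?_ ?_
  · refine iSup_le fun m => iSup_le fun η => iSup_le fun q => iSup_le fun ht => ?_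
    rw [← ENNReal.ofReal_sum_of_nonneg fun j _ => proj_nonneg h (ht.proj j)]
    have key : ∀ k : ℕ, ENNReal.ofReal (∑ j, (τ (q j)).re) ≤
        ∑' i, ENNReal.ofReal (τ (p i)).re + ENNReal.ofReal (m * (1 / 2 ^ k) ^ 2) := by
      intro k
      have hex := fun j => exists_comb h hc (η j) (ε := 1 / 2 ^ k) (by positivity)
      choose F x hx0 hx using hex
      let G : Finset ι := Finset.univ.biUnion F
      have hsum : ∀ j, ∑ i ∈ F j, (x j i : H →L[ℂ] H) (ξ i) =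
          ∑ i ∈ G, (x j i : H →L[ℂ] H) (ξ i) := by
        intro j
        refine Finset.sum_subset (Finset.subset_biUnion_of_mem F (Finset.mem_univ j))
          fun i _ hi => ?_
        rw [hx0 j i hi]
        rfl
      have h1 := system_le h hs ht G x (ε := 1 / 2 ^ k) (by positivity) fun j => by
        rw [← hsum j]
        exact hx j
      calc ENNReal.ofReal (∑ j, (τ (q j)).re)
          ≤ ENNReal.ofReal (∑ i ∈ G, (τ (p i)).re + m * (1 / 2 ^ k) ^ 2) :=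
            ENNReal.ofReal_le_ofReal h1
        _ ≤ ENNReal.ofReal (∑ i ∈ G, (τ (p i)).re) + ENNReal.ofReal (m * (1 / 2 ^ k) ^ 2) :=
            ENNReal.ofReal_add_le
        _ = ∑ i ∈ G, ENNReal.ofReal (τ (p i)).re + ENNReal.ofReal (m * (1 / 2 ^ k) ^ 2) := by
            rw [ENNReal.ofReal_sum_of_nonneg fun i _ => proj_nonneg h (hs.proj i)]
        _ ≤ _ := add_le_add (ENNReal.sum_le_tsum G) le_rfl
    have hlim : Tendsto (fun k : ℕ => ∑' i, ENNReal.ofReal (τ (p i)).re +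
        ENNReal.ofReal ((m : ℝ) * (1 / 2 ^ k) ^ 2)) atTop
        (𝓝 (∑' i, ENNReal.ofReal (τ (p i)).re + ENNReal.ofReal 0)) := by
      refine tendsto_const_nhds.add ?_
      refine ENNReal.tendsto_ofReal ?_
      have h1 : Tendsto (fun k : ℕ => (m : ℝ) * ((1 / 2 : ℝ) ^ k) ^ 2) atTop
          (𝓝 ((m : ℝ) * 0 ^ 2)) :=
        ((tendsto_pow_atTop_nhds_zero_of_lt_one (by norm_num) (by norm_num)).pow 2).const_mul _
      rw [zero_pow two_ne_zero, mul_zero] at h1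
      refine h1.congr fun k => ?_
      rw [one_div_pow]
    rw [ENNReal.ofReal_zero, add_zero] at hlim
    exact ge_of_tendsto' hlim key
  · rw [ENNReal.tsum_eq_iSup_sum]
    refine iSup_le fun F => ?_
    let e : Fin F.card ≃ F := F.equivFin.symm
    have hsys : IsSystem M τ (fun k => ξ (e k)) fun k => p (e k) := by
      refine ⟨fun k => hs.proj _, fun k l x => ?_⟩
      rw [hs.inner]
      by_cases hkl : k = l
      · rw [if_pos hkl, if_pos (by rw [hkl])]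
      · rw [if_neg hkl, if_neg]
        intro h1
        exact hkl (e.injective (Subtype.ext h1))
    have h1 : ∑ i ∈ F, ENNReal.ofReal (τ (p i)).re =
        ∑ k : Fin F.card, ENNReal.ofReal (τ (p (e k))).re := by
      rw [← Finset.sum_coe_sort F, ← e.sum_comp]
    rw [h1]
    exact le_iSup_of_le _ (le_iSup_of_le _ (le_iSup_of_le _ (le_iSup_of_le hsys le_rfl)))

end complete

end lemmas

/-- `vnDim` is the usual dimension: it is `∑ τ(p i)` whenever `H ≅ ⨁ L²(M, τ) p i`. -/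
def DimensionFormula : Prop :=
  ∀ (H : Type) [NormedAddCommGroup H] [InnerProductSpace ℂ H] [CompleteSpace H]
    (M : VonNeumannAlgebra H) (τ : M.toStarSubalgebra →ₗ[ℂ] ℂ), IsIIOneFactor M τ →
    ∀ (ι : Type) [DecidableEq ι] (ξ : ι → H) (p : ι → M.toStarSubalgebra),
    IsSystem M τ ξ p → IsComplete M ξ → vnDim M τ = ∑' i, ENNReal.ofReal (τ (p i)).re

/-- Any two II_1 factors on any Hilbert space at Kadison-Kastler distance less than `δ` have the
same coupling constant. -/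
def CloseFactorsEqualDim (δ : ℝ) : Prop :=
  ∀ (H : Type) [NormedAddCommGroup H] [InnerProductSpace ℂ H] [CompleteSpace H]
    (M N : VonNeumannAlgebra H) (τ : M.toStarSubalgebra →ₗ[ℂ] ℂ)
    (σ : N.toStarSubalgebra →ₗ[ℂ] ℂ), IsIIOneFactor M τ → IsIIOneFactor N σ →
    kkDist M N < δ → vnDim M τ = vnDim N σ

/-- There is an absolute constant `δ > 0` such that II_1 factors at distance less than `δ` have the
same coupling constant. -/
theorem main_sub : DimensionFormula ∧ ∃ δ : ℝ, 0 < δ ∧ CloseFactorsEqualDim δ := by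
  refine ⟨fun H _ _ _ M τ h ι _ ξ p hs hc => vnDim_eq h hs hc, ?_⟩
  have hCD : 0 < CD := by norm_num [CD]
  refine ⟨1 / (10 ^ 7 * CD), by positivity, ?_⟩
  intro H _ _ _ M N τ σ hM hN hd
  have hδ : CD * (1 / (10 ^ 7 * CD)) ≤ 1 / 10 ^ 7 := by
    rw [mul_one_div, mul_comm ((10 : ℝ) ^ 7), ← div_div, div_self hCD.ne']
  have hMN := near_of_kk hd
  have hNM : Near N M (1 / (10 ^ 7 * CD)) := by
    refine near_of_kk ?_
    rw [kkDist, Metric.hausdorffDist_comm]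
    exact hd
  exact le_antisymm (dim_le_of_close hM hN hδ hMN hNM) (dim_le_of_close hN hM hδ hNM hMN)

end Run7.h989.CC.Sub
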